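import Pool.Agent.Lib.H95G.Tame

/-!
# One closed cell

MP_7f673e_co.
-/

set_option linter.unusedSectionVars false

open scoped unitInterval Topology
open Set Metric Module

namespace H95F

variable {α β : Type*} {Gm : Graph α β}
variable {E : Type*} [NormedAddCommGroup E] [NormedSpace ℝ E]

theorem PW.of_walk' {H : Graph α β} {D : Drawing H E}
    (hD : ∀ {e x y} (h : H.IsLink e x y), PW (D.path h)) {x y : α} (p : Walk H x y) :
    PW (D.walk p) := by
  induction p with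
  | nil x => exact pw_refl _
  | cons e h p ih =>
    cases p with
    | nil _ => exact hD h
    | cons e' h' p => exact (hD h).trans ih

/-- the one-dimensional part of a closed cell -/
def core (pt : α → E) (c : β → ℝ → E) : Cell Gm → Set E
  | .vertex x _ => {pt x}
  | .edge e _ => c e '' Icc 0 1
  | .disc _ _ => ∅

/-- what we need of the set of a cell -/
def CellOK (D : Drawing Gm E) (c : β → ℝ → E) (base : ∀ C, IsCycleSet Gm C → α)
    (bdry : ∀ C (hC : IsCycleSet Gm C), Walk Gm (base C hC) (base C hC)) :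
    Cell Gm → Set E → Prop
  | .vertex x _, S => D.pt x ∈ S
  | .edge e _, S => c e '' Icc 0 1 ⊆ S
  | .disc C hC, S => HomIn S (D.walk (bdry C hC)) (Path.refl (D.pt (base C hC)))

theorem core_small {pt : α → E} {c : β → ℝ → E} (hc : ∀ e, ContDiff ℝ 1 (c e)) (s : Cell Gm) :
    Small ℝ (core pt c s) := by
  cases s with
  | vertex x h => exact small_singleton _
  | edge e h => exact small_curve (hc e)
  | disc C h => exact small_empty

variable [FiniteDimensional ℝ E]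

theorem Cc_core_small [Finite (Cell Gm)] {pt : α → E} {c : β → ℝ → E}
    (hc : ∀ e, ContDiff ℝ 1 (c e)) (A : Set α) : Small ℝ (Cc (core (Gm := Gm) pt c) A) := by
  have h1 : Cc (core (Gm := Gm) pt c) A = ⋃ s : {s : Cell Gm // s.verts ⊆ A}, core pt c s.1 := by
    ext z
    simp [Cc]
  rw [h1]
  exact Small.iUnion fun s => core_small hc s.1

theorem cell_lemma (hd : 3 < finrank ℝ E) (D : Drawing Gm E) (c : β → ℝ → E)
    (hc : ∀ e, ContDiff ℝ 1 (c e))
    (harc : ∀ {e x y}, Gm.IsLink e x y → ∀ t, D.arc e x y t ∈ c e '' Icc 0 1)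
    (hpw : ∀ {e x y} (h : Gm.IsLink e x y), PW (D.path h))
    (base : ∀ C, IsCycleSet Gm C → α)
    (bdry : ∀ C (hC : IsCycleSet Gm C), Walk Gm (base C hC) (base C hC))
    (hb : ∀ C hC, (bdry C hC).IsCycle ∧ {e | e ∈ (bdry C hC).edges} = C)
    (U : Set α → Set E) (hU : ∀ A, IsOpen (U A)) (hmono : ∀ A B, A ⊆ B → U A ⊆ U B)
    (hpt : ∀ x ∈ Gm.vertexSet, D.pt x ∈ U {x})
    (hcU : ∀ {e x y}, Gm.IsLink e x y → c e '' Icc 0 1 ⊆ U {x, y})
    (hnull : ∀ A, ∀ {x} (p : Walk Gm x x), x ∈ Gm.vertexSet → (∀ u ∈ p.support, u ∈ A) →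
      HomIn (U A) (D.hol p) (Path.refl (D.pt x)))
    {A' : Set α} {Θ : Set E} (hΘ : Small ℝ Θ) (hLΘ : ∀ z ∈ Cc (core (Gm := Gm) D.pt c) A', z ∉ Θ)
    (s : Cell Gm) :
    ∃ Q Q' : Set E, IsCompact Q ∧ IsCompact Q' ∧ Q ⊆ U s.verts ∧
      Q' ⊆ Cc (core (Gm := Gm) D.pt c) s.verts ∧ (s.verts ⊆ A' → ∀ z ∈ Q, z ∉ Θ) ∧
      ∀ ε > 0, ∃ P : ℝ × ℝ → E, ContDiff ℝ 1 P ∧ ∀ w : E, ‖w‖ < ε → ∃ C : Set E,
        Small (ℝ × ℝ) C ∧ (∀ z ∈ C, ∃ x ∈ Q, dist z x < 2 * ε) ∧
        (∀ z ∈ C, (∃ q, z = P q + w) ∨ ∃ x ∈ Q', dist z x < 2 * ε) ∧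
        CellOK D c base bdry s C := by
  have hverts : ∀ {e x y} (he : e ∈ Gm.edgeSet), Gm.IsLink e x y →
      ({x, y} : Set α) ⊆ (Cell.edge e he : Cell Gm).verts := by
    rintro e x y he h u (rfl | rfl)
    · exact ⟨_, h⟩
    · exact ⟨_, h.symm⟩
  have h1dim : ∀ (s : Cell Gm) (K : Set E), IsCompact K → K = core (Gm := Gm) D.pt c s →
      K ⊆ U s.verts → Small (ℝ × ℝ) K → CellOK D c base bdry s K →
      ∃ Q Q' : Set E, IsCompact Q ∧ IsCompact Q' ∧ Q ⊆ U s.verts ∧
      Q' ⊆ Cc (core (Gm := Gm) D.pt c) s.verts ∧ (s.verts ⊆ A' → ∀ z ∈ Q, z ∉ Θ) ∧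
      ∀ ε > 0, ∃ P : ℝ × ℝ → E, ContDiff ℝ 1 P ∧ ∀ w : E, ‖w‖ < ε → ∃ C : Set E,
        Small (ℝ × ℝ) C ∧ (∀ z ∈ C, ∃ x ∈ Q, dist z x < 2 * ε) ∧
        (∀ z ∈ C, (∃ q, z = P q + w) ∨ ∃ x ∈ Q', dist z x < 2 * ε) ∧
        CellOK D c base bdry s C := by
    intro s K hK hKc hKU hKS hKOK
    have hK' : K ⊆ Cc (core (Gm := Gm) D.pt c) s.verts := by
      intro z hz
      exact ⟨s, subset_rfl, hKc ▸ hz⟩
    refine ⟨K, K, hK, hK, hKU, hK', fun hA z hz => hLΘ z (Cc_mono _ hA (hK' hz)), ?_⟩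
    intro ε hε
    refine ⟨fun _ => 0, contDiff_const, fun w _ => ⟨K, hKS, ?_, ?_, hKOK⟩⟩
    · exact fun z hz => ⟨z, hz, by rw [dist_self]; linarith⟩
    · exact fun z hz => Or.inr ⟨z, hz, by rw [dist_self]; linarith⟩
  cases s with
  | vertex x h =>
    refine h1dim _ {D.pt x} isCompact_singleton rfl ?_ (small_singleton _) rfl
    rintro z rfl
    exact hpt x h
  | edge e h =>
    obtain ⟨x, y, hl⟩ := Graph.exists_isLink_of_mem_edgeSet h
    refine h1dim _ (c e '' Icc 0 1) (isCompact_Icc.image (hc e).continuous) rfl ?_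
      (small_curve (hc e)).two subset_rfl
    exact (hcU hl).trans (hmono _ _ (hverts h hl))
  | disc C hC =>
    have hbs : ∀ u ∈ (bdry C hC).support, u ∈ (Cell.disc C hC).verts := by
      intro u hu
      obtain ⟨e, he, hu'⟩ := exists_edge_of_mem (hb C hC).1 hu
      exact ⟨e, (hb C hC).2 ▸ he, hu'⟩
    have hbV : base C hC ∈ Gm.vertexSet := by
      have h2 := (hb C hC).1
      revert h2
      generalize bdry C hC = b
      generalize base C hC = x0 at b
      intro h2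
      cases b with
      | nil x => exact absurd rfl h2.1
      | cons e h p => exact h.left_mem
    have hp := PW.of_walk' (D := D) hpw (bdry C hC)
    -- the boundary is in the core
    have hcore : ∀ t, D.walk (bdry C hC) t ∈ Cc (core (Gm := Gm) D.pt c) (Cell.disc C hC).verts := by
      refine fun t => (walk_hol D (bdry C hC) ?_ ?_).left_mem t
      · exact ⟨.vertex _ hbV, by simpa [Cell.verts] using hbs _ (bdry C hC).start_mem_support, rfl⟩
      · intro e u w h he t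
        refine ⟨.edge e h.edge_mem, ?_, harc h t⟩
        rintro v ⟨v', hv⟩
        exact hbs _ ((bdry C hC).end_mem_of_edge he hv)
    have hnull1 : HomIn (U (Cell.disc C hC).verts) (D.walk (bdry C hC))
        (Path.refl (D.pt (base C hC))) := by
      refine (walk_hol D (bdry C hC) ?_ ?_).trans (hnull _ (bdry C hC) hbV hbs)
      · exact hmono _ _ (by simpa using hbs _ (bdry C hC).start_mem_support) (hpt _ hbV)
      · intro e u w h he t
        refine hmono _ _ ?_ (hcU h (harc h t))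
        rintro v (rfl | rfl)
        · exact hbs _ ((bdry C hC).end_mem_of_edge he h)
        · exact hbs _ ((bdry C hC).end_mem_of_edge he h.symm)
    obtain ⟨F, hF1, hF2⟩ : ∃ F : Path.Homotopy (D.walk (bdry C hC))
        (Path.refl (D.pt (base C hC))), (∀ t, F t ∈ U (Cell.disc C hC).verts) ∧
        ((Cell.disc C hC).verts ⊆ A' → ∀ t, F t ∉ Θ) := by
      by_cases hA : (Cell.disc C hC).verts ⊆ A'
      · have hav : ∀ t, D.walk (bdry C hC) t ∉ Θ := fun t => hLΘ _ (Cc_mono _ hA (hcore t))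
        obtain ⟨F, hF⟩ := pushHom (W := ℝ) (by rw [finrank_self]; omega) (hU _) hnull1 hΘ hav
          (fun t => by simpa using hav 0)
        exact ⟨F, fun t => (hF t).1, fun _ t => (hF t).2⟩
      · obtain ⟨F, hF⟩ := hnull1
        exact ⟨F, hF, fun h => absurd h hA⟩
    refine ⟨range F, range (D.walk (bdry C hC)), isCompact_range F.continuous,
      isCompact_range (D.walk (bdry C hC)).continuous, ?_, ?_, ?_, ?_⟩
    · rintro z ⟨t, rfl⟩
      exact hF1 t
    · rintro z ⟨t, rfl⟩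
      exact hcore t
    · rintro hA z ⟨t, rfl⟩
      exact hF2 hA t
    · intro ε hε
      obtain ⟨P, hP, h⟩ := disc_small hp F hε
      refine ⟨P, hP, fun w hw => ?_⟩
      obtain ⟨K, hK, -, hKn, hK1, hK2⟩ := h w hw
      refine ⟨K, hK, ?_, ?_, hKn⟩
      · intro z hz
        obtain ⟨q, hq⟩ := hK1 z hz
        exact ⟨F q, ⟨q, rfl⟩, hq⟩
      · intro z hz
        rcases hK2 z hz with h3 | ⟨t, ht⟩
        · exact Or.inl h3
        · exact Or.inr ⟨_, ⟨t, rfl⟩, ht⟩

end H95F
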