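import Pool.Agent.Lib.H95G.Twins

/-!
# The closure of finite graphs under the operations

MP_7f673e_co. All operations of `StepTwin` preserve finiteness and almost embeddability in a space
of dimension at least four.
-/

open Set Module

namespace H95F

variable {α β : Type*} {G H : Graph α β}

theorem finite_yDelta {v a b c : α} {ea eb ec : β} (h : IsYDelta G H v a b c ea eb ec)
    (hV : G.vertexSet.Finite) (hE : G.edgeSet.Finite) :
    H.vertexSet.Finite ∧ H.edgeSet.Finite := by
  refine ⟨?_, (hE.union (Set.toFinite ({ea, eb, ec} : Set β))).subset ?_⟩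
  · rw [h.verts]
    exact hV.subset Set.sdiff_subset
  · intro e he
    obtain ⟨x, y, hl⟩ := Graph.exists_isLink_of_mem_edgeSet he
    rcases (h.link e x y).1 hl with h1 | h1 | h1 | h1
    · exact Or.inl h1.2.2.2.edge_mem
    · exact Or.inr (Or.inl h1.1)
    · exact Or.inr (Or.inr (Or.inl h1.1))
    · exact Or.inr (Or.inr (Or.inr h1.1))

theorem finite_stepTwin (h : StepTwin G H) (hV : G.vertexSet.Finite) (hE : G.edgeSet.Finite) :
    H.vertexSet.Finite ∧ H.edgeSet.Finite := by
  cases h with
  | step h =>
    cases h with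
    | yDelta h => exact finite_yDelta h hV hE
    | delete h =>
      refine ⟨hV.subset h.1, hE.subset ?_⟩
      intro e he
      obtain ⟨x, y, hl⟩ := Graph.exists_isLink_of_mem_edgeSet he
      exact (h.2 hl).edge_mem
    | contract h =>
      refine ⟨?_, hE.subset ?_⟩
      · rw [h.verts]
        exact hV.subset Set.sdiff_subset
      · intro e he
        obtain ⟨x, y, hl⟩ := Graph.exists_isLink_of_mem_edgeSet he
        obtain ⟨-, x', y', hl', -⟩ := (h.link e x y).1 hl
        exact hl'.edge_mem
    | @double e0 e1 h =>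
      refine ⟨?_, (hE.union (Set.toFinite ({e1} : Set β))).subset ?_⟩
      · rw [h.verts]
        exact hV
      · intro e he
        obtain ⟨x, y, hl⟩ := Graph.exists_isLink_of_mem_edgeSet he
        rcases (h.link e x y).1 hl with h1 | h1
        · exact Or.inl h1.edge_mem
        · exact Or.inr h1.1
  | @twin v n g v' g' h =>
    refine ⟨?_, (hE.union (Set.finite_range g')).subset ?_⟩
    · rw [h.verts]
      exact hV.insert v'
    · intro e he
      obtain ⟨x, y, hl⟩ := Graph.exists_isLink_of_mem_edgeSet he
      rcases (h.link_iff e x y).1 hl with h1 | ⟨i, rfl, -⟩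
      · exact Or.inl h1.edge_mem
      · exact Or.inr ⟨i, rfl⟩

theorem almostEmbeds_of_stepsTwin {E : Type*} [NormedAddCommGroup E] [NormedSpace ℝ E]
    [FiniteDimensional ℝ E] (hd : 3 < finrank ℝ E) (h : Relation.ReflTransGen StepTwin G H)
    (hV : G.vertexSet.Finite) (hE : G.edgeSet.Finite) (hG : AlmostEmbeds G E) :
    AlmostEmbeds H E := by
  have key : (H.vertexSet.Finite ∧ H.edgeSet.Finite) ∧ AlmostEmbeds H E := by
    induction h with
    | refl => exact ⟨⟨hV, hE⟩, hG⟩
    | tail _ h2 ih =>
      refine ⟨finite_stepTwin h2 ih.1.1 ih.1.2, ?_⟩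
      cases h2 with
      | step h3 => exact almostEmbeds_of_step h3 ih.2
      | twin h3 => exact almostEmbeds_of_twin ih.1.1 ih.1.2 hd h3 ih.2
  exact key.2

end H95F
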