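import Pool.Agent.Lib.H95G.DeltaYMain

/-!
# The closure of finite loopless graphs under all operations

MP_7f673e_co. All operations of `StepAll` preserve finiteness, looplessness and almost
embeddability in a space of dimension at least four.
-/

open Set Module

namespace H95F

variable {α β : Type*} {G H : Graph α β}

theorem finite_stepAll (h : StepAll G H) (hV : G.vertexSet.Finite) (hE : G.edgeSet.Finite) :
    H.vertexSet.Finite ∧ H.edgeSet.Finite := by
  cases h with
  | twin h => exact finite_stepTwin h hV hE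
  | @deltaY n t w h =>
    refine ⟨?_, (hE.union (Set.finite_range t)).subset ?_⟩
    · rw [h.verts]
      exact hV.insert w
    · intro e he
      obtain ⟨x, y, hl⟩ := Graph.exists_isLink_of_mem_edgeSet he
      rcases (h.link_iff e x y).1 hl with h1 | ⟨i, rfl, -⟩
      · exact Or.inl h1.2.edge_mem
      · exact Or.inr ⟨i, rfl⟩

theorem loopless_stepAll (h : StepAll G H) (hG : ∀ e x, ¬ G.IsLink e x x) :
    ∀ e x, ¬ H.IsLink e x x := by
  intro e x hl
  cases h with
  | twin h =>
    cases h with
    | step h =>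
      cases h with
      | @yDelta v a b c ea eb ec h =>
        rcases (h.link e x x).1 hl with h1 | h1 | h1 | h1
        · exact hG _ _ h1.2.2.2
        · have h2 := h1.2
          simp only [Sym2.eq_iff] at h2
          rcases h2 with ⟨rfl, h3⟩ | ⟨rfl, h3⟩
          · exact h.bc h3
          · exact h.bc h3.symm
        · have h2 := h1.2
          simp only [Sym2.eq_iff] at h2
          rcases h2 with ⟨rfl, h3⟩ | ⟨rfl, h3⟩
          · exact h.ca h3
          · exact h.ca h3.symm
        · have h2 := h1.2
          simp only [Sym2.eq_iff] at h2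
          rcases h2 with ⟨rfl, h3⟩ | ⟨rfl, h3⟩
          · exact h.ab h3
          · exact h.ab h3.symm
      | delete h => exact hG _ _ (h.2 hl)
      | contract h => exact ((h.link e x x).1 hl).1 rfl
      | double h =>
        rcases (h.link e x x).1 hl with h1 | h1
        · exact hG _ _ h1
        · exact hG _ _ h1.2
    | @twin v n g v' g' h =>
      rcases (h.link_iff e x x).1 hl with h1 | ⟨i, -, h2⟩
      · exact hG _ _ h1
      · simp only [Sym2.eq_iff] at h2
        have h3 : n i ∈ G.vertexSet := (h.link i).right_mem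
        rcases h2 with ⟨rfl, h4⟩ | ⟨h4, rfl⟩
        · exact h.notMem (h4 ▸ h3)
        · exact h.notMem (h4 ▸ h3)
  | @deltaY n t w h =>
    rcases (h.link_iff e x x).1 hl with h1 | ⟨i, -, h2⟩
    · exact hG _ _ h1.2
    · simp only [Sym2.eq_iff] at h2
      have h3 : n i ∈ G.vertexSet := h.n_mem i
      rcases h2 with ⟨rfl, h4⟩ | ⟨h4, rfl⟩
      · exact h.notMem (h4 ▸ h3)
      · exact h.notMem (h4 ▸ h3)

theorem almostEmbeds_of_stepsAll {E : Type*} [NormedAddCommGroup E] [NormedSpace ℝ E]
    [FiniteDimensional ℝ E] (hd : 3 < finrank ℝ E) (h : Relation.ReflTransGen StepAll G H)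
    (hV : G.vertexSet.Finite) (hE : G.edgeSet.Finite) (hloop : ∀ e x, ¬ G.IsLink e x x)
    (hG : AlmostEmbeds G E) : AlmostEmbeds H E := by
  have key : ((H.vertexSet.Finite ∧ H.edgeSet.Finite) ∧ ∀ e x, ¬ H.IsLink e x x) ∧
      AlmostEmbeds H E := by
    induction h with
    | refl => exact ⟨⟨⟨hV, hE⟩, hloop⟩, hG⟩
    | tail _ h2 ih =>
      refine ⟨⟨finite_stepAll h2 ih.1.1.1 ih.1.1.2, loopless_stepAll h2 ih.1.2⟩, ?_⟩
      cases h2 with
      | twin h3 =>
        cases h3 with
        | step h4 => exact almostEmbeds_of_step h4 ih.2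
        | twin h4 => exact almostEmbeds_of_twin ih.1.1.1 ih.1.1.2 hd h4 ih.2
      | deltaY h3 => exact almostEmbeds_of_deltaY ih.1.1.1 ih.1.1.2 ih.1.2 hd h3 ih.2
  exact key.2

end H95F
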