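import Pool.Agent.Lib.H95G.GP

/-!
# The combinatorial core of the twin theorem

MP_7f673e_co. A drawing of a graph `H` with twins `tw false`, `tw true` of degree three, together
with open regions `W A`, gives an almost embedding of the full complex of `H` if closed walks are
null-homotopic in the regions and the drawing is in general position at the twins.
-/

open scoped unitInterval
open Set Metric Module

set_option linter.unusedSectionVars false

namespace H95F

variable {α β : Type*}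

/-- assembling an almost embedding from regions `K A` -/
theorem assemble {Z : Type*} [TopologicalSpace Z] {H : Graph α β} (D : Drawing H Z)
    (K : Set α → Set Z)
    (hdis : ∀ A B, A ⊆ H.vertexSet → B ⊆ H.vertexSet → Disjoint A B → Disjoint (K A) (K B))
    (hpt : ∀ A, A ⊆ H.vertexSet → ∀ x ∈ A, D.pt x ∈ K A)
    (harc : ∀ A, A ⊆ H.vertexSet → ∀ {e x y}, H.IsLink e x y → x ∈ A → y ∈ A →
      ∀ t, D.arc e x y t ∈ K A)
    (hcyc : ∀ {x} (w : Walk H x x), w.IsCycle → {u | u ∈ w.support} ⊆ H.vertexSet →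
      HomIn (K {u | u ∈ w.support}) (D.hol w) (Path.refl (D.pt x))) :
    AlmostEmbeds H Z := by
  choose base0 bdry0 hb using fun (C : Set β) (hC : IsCycleSet H C) => hC
  have hbase : ∀ C hC, base0 C hC ∈ H.vertexSet := by
    intro C hC
    have h2 := (hb C hC).1
    revert h2
    generalize bdry0 C hC = b
    generalize base0 C hC = x0 at b
    intro h2
    cases b with
    | nil x => exact absurd rfl h2.1
    | cons e h p => exact h.left_mem
  have hsupp : ∀ C hC, {u | u ∈ (bdry0 C hC).support} ⊆ H.vertexSet :=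
    fun C hC u hu => (bdry0 C hC).mem_vertexSet (hbase C hC) hu
  have hdisc : ∀ C hC, HomIn (K {u | u ∈ (bdry0 C hC).support})
      (D.walk (bdry0 C hC)) (Path.refl (D.pt (base0 C hC))) := by
    intro C hC
    refine (walk_hol D (bdry0 C hC) (hpt _ (hsupp C hC) _ (bdry0 C hC).start_mem_support)
      ?_).trans (hcyc _ (hb C hC).1 (hsupp C hC))
    intro e u w' h he t
    exact harc _ (hsupp C hC) h ((bdry0 C hC).end_mem_of_edge he h)
      ((bdry0 C hC).end_mem_of_edge he h.symm) t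
  choose disc0 hdisc0 using hdisc
  let f' : FullMap H Z :=
    { toDrawing := D
      base := base0
      bdry := bdry0
      bdry_isCycle := fun C hC => (hb C hC).1
      bdry_edges := fun C hC => (hb C hC).2
      disc := disc0 }
  refine ⟨f', ?_⟩
  have himg : ∀ s : Cell H, f'.image s ⊆ K s.verts ∧ s.verts ⊆ H.vertexSet := by
    intro s
    cases s with
    | vertex x hx =>
      have h1 : (Cell.vertex x hx).verts ⊆ H.vertexSet := by simpa [Cell.verts] using hx
      refine ⟨?_, h1⟩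
      rintro z rfl
      exact hpt _ h1 x rfl
    | edge e he =>
      have h1 : (Cell.edge e he).verts ⊆ H.vertexSet := by
        rintro u ⟨w, hw'⟩
        exact hw'.left_mem
      refine ⟨?_, h1⟩
      rintro z ⟨x, y, hl, t, rfl⟩
      exact harc _ h1 hl ⟨_, hl⟩ ⟨_, hl.symm⟩ t
    | disc C hC =>
      have h2 : {u | u ∈ (bdry0 C hC).support} = (Cell.disc C hC).verts := by
        ext u
        constructor
        · intro hu
          obtain ⟨e, he, hu'⟩ := exists_edge_of_mem (hb C hC).1 hu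
          exact ⟨e, (hb C hC).2 ▸ he, hu'⟩
        · rintro ⟨e, he, hu⟩
          rw [← (hb C hC).2] at he
          exact (bdry0 C hC).mem_support_of_edge he hu
      refine ⟨?_, fun u hu => ?_⟩
      · rintro z ⟨t, rfl⟩
        rw [← h2]
        exact hdisc0 C hC t
      · obtain ⟨e, -, w, hw'⟩ := hu
        exact hw'.left_mem
  intro s t hst
  exact (hdis _ _ (himg s).2 (himg t).2 hst).mono (himg s).1 (himg t).1

theorem exists_last {H : Graph α β} {x y : α} (p : Walk H x y) (hp : p.edges ≠ []) :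
    ∃ e ∈ p.edges, H.Inc e y := by
  induction p with
  | nil x => exact absurd rfl hp
  | @cons x u z e h p ih =>
    cases p with
    | nil _ => exact ⟨e, by simp [Walk.edges], ⟨_, h.symm⟩⟩
    | cons e' h' p =>
      obtain ⟨e'', h1, h2⟩ := ih (by simp [Walk.edges])
      exact ⟨e'', by rw [Walk.edges]; exact List.mem_cons_of_mem _ h1, h2⟩

/-- a cycle uses two different edges at each of its vertices -/
theorem two_edges {H : Graph α β} {x : α} {w : Walk H x x} (hw : w.IsCycle) {u : α}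
    (hu : u ∈ w.support) (hloop : ∀ e, ¬ H.IsLink e u u) :
    ∃ e1 e2, e1 ≠ e2 ∧ e1 ∈ w.edges ∧ e2 ∈ w.edges ∧ H.Inc e1 u ∧ H.Inc e2 u := by
  obtain ⟨b1, b2, rfl⟩ := w.exists_append_of_mem hu
  have hcyc : (b2.append b1).IsCycle := by
    obtain ⟨h1, h2, h3⟩ := hw
    refine ⟨?_, ?_, ?_⟩
    · rw [Walk.edges_append] at h1 ⊢
      intro h4
      rw [List.append_eq_nil_iff] at h4
      exact h1 (by rw [h4.1, h4.2]; rfl)
    · rw [Walk.edges_append] at h2 ⊢
      exact List.nodup_append_comm.1 h2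
    · rw [Walk.support_append, Walk.support_eq_cons, List.cons_append, List.tail_cons] at h3 ⊢
      exact List.nodup_append_comm.1 h3
  have hE2 : ∀ e, e ∈ (b2.append b1).edges → e ∈ (b1.append b2).edges := by
    intro e
    rw [Walk.edges_append, Walk.edges_append, List.mem_append, List.mem_append, or_comm]
    exact id
  revert hcyc hE2
  generalize b2.append b1 = c
  intro hcyc hE2
  cases c with
  | nil _ => exact absurd rfl hcyc.1
  | @cons _ y _ e h p =>
    have hp : p.edges ≠ [] := by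
      intro h1
      cases p with
      | nil _ => exact hloop e h
      | cons e' h' p => simp [Walk.edges] at h1
    obtain ⟨e', he', hu'⟩ := exists_last p hp
    have h2 := hcyc.2.1
    rw [Walk.edges, List.nodup_cons] at h2
    refine ⟨e, e', ?_, hE2 e (by simp [Walk.edges]), hE2 e' (by simp [Walk.edges, he']),
      ⟨_, h⟩, hu'⟩
    rintro rfl
    exact h2.1 he'

section Core

variable {E : Type*} [NormedAddCommGroup E] [NormedSpace ℝ E] [FiniteDimensional ℝ E]

/-- moving a homotopy off finitely many `C^1` arcs -/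
theorem move_hom_finset {ι : Type*} (hd : 3 < finrank ℝ E) {x y : E} {p q : Path x y}
    (γ : ι → ℝ → E) (hγ : ∀ i, ContDiff ℝ 1 (γ i)) (s : Finset ι) {U : Set E} (hU : IsOpen U)
    (h : HomIn U p q) (hp : ∀ i ∈ s, ∀ t, p t ∉ γ i '' Icc 0 1)
    (hq : ∀ i ∈ s, ∀ t, q t ∉ γ i '' Icc 0 1) :
    HomIn {z | z ∈ U ∧ ∀ i ∈ s, z ∉ γ i '' Icc 0 1} p q := by
  classical
  induction s using Finset.induction_on with
  | empty => exact h.mono fun z hz => ⟨hz, by simp⟩
  | insert i s his ih =>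
    have h1 := ih (fun j hj => hp j (Finset.mem_insert_of_mem hj))
      (fun j hj => hq j (Finset.mem_insert_of_mem hj))
    have hclosed : ∀ j, IsClosed (γ j '' Icc 0 1) := fun j =>
      (isCompact_Icc.image (hγ j).continuous).isClosed
    have hopen : IsOpen {z | z ∈ U ∧ ∀ i ∈ s, z ∉ γ i '' Icc 0 1} := by
      have h2 : {z | z ∈ U ∧ ∀ i ∈ s, z ∉ γ i '' Icc 0 1} =
          U ∩ ⋂ i ∈ s, (γ i '' Icc 0 1)ᶜ := by
        ext z
        simp
      rw [h2]
      exact hU.inter (isOpen_biInter_finset fun j _ => (hclosed j).isOpen_compl)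
    refine (move_hom hd hopen h1 (γ i) (hγ i) (hp i (Finset.mem_insert_self _ _))
      (hq i (Finset.mem_insert_self _ _))).mono ?_
    rintro z ⟨⟨hz1, hz2⟩, hz3⟩
    refine ⟨hz1, fun j hj => ?_⟩
    rcases Finset.mem_insert.1 hj with rfl | hj
    · exact hz3
    · exact hz2 j hj

/-- a drawing with twins in general position -/
structure TwinData (H : Graph α β) (D : Drawing H E) (W : Set α → Set E) (tw : Bool → α)
    (n : Fin 3 → α) (g : Bool → Fin 3 → β) (γ : Bool → Fin 3 → ℝ → E) : Prop where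
  tn : ∀ b i, tw b ≠ n i
  tt : ∀ b, tw b ≠ tw !b
  link : ∀ b i, H.IsLink (g b i) (tw b) (n i)
  only : ∀ b e, H.Inc e (tw b) → ∃ i, e = g b i
  isOpen : ∀ A, IsOpen (W A)
  mono : ∀ A B, A ⊆ B → W A ⊆ W B
  dis : ∀ A B, A ⊆ H.vertexSet → B ⊆ H.vertexSet → Disjoint A B →
    (∀ b b', tw b ∈ A → tw b' ∈ B → False) → Disjoint (W A) (W B)
  pt : ∀ x ∈ H.vertexSet, D.pt x ∈ W {x}
  arc : ∀ {e x y}, H.IsLink e x y → ∀ t, D.arc e x y t ∈ W {x, y}
  null : ∀ A, A ⊆ H.vertexSet → ∀ {x} (p : Walk H x x), x ∈ H.vertexSet →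
    (∀ u ∈ p.support, u ∈ A) → HomIn (W A) (D.hol p) (Path.refl (D.pt x))
  smooth : ∀ b i, ContDiff ℝ 1 (γ b i)
  arc_eq : ∀ b i (t : I), D.arc (g b i) (tw b) (n i) t = γ b i t
  pt_curve : ∀ b i, D.pt (tw b) ∉ γ (!b) i '' Icc 0 1
  curve_curve : ∀ b i j, i ≠ j → Disjoint (γ b i '' Icc 0 1) (γ (!b) j '' Icc 0 1)

variable {H : Graph α β} {D : Drawing H E} {W : Set α → Set E} {tw : Bool → α}
    {n : Fin 3 → α} {g : Bool → Fin 3 → β} {γ : Bool → Fin 3 → ℝ → E}

/-- the set contains two neighbours of the twins -/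
def Two (n : Fin 3 → α) (A : Set α) : Prop := ∃ i j, i ≠ j ∧ n i ∈ A ∧ n j ∈ A

/-- the region of a set which contains the twin `tw b` only -/
def R (D : Drawing H E) (W : Set α → Set E) (tw : Bool → α)
    (n : Fin 3 → α) (γ : Bool → Fin 3 → ℝ → E) (b : Bool) (A : Set α) : Set E :=
  {z | (Two n A → z ∈ W A ∧ z ≠ D.pt (tw !b) ∧ ∀ i, n i ∉ A → z ∉ γ (!b) i '' Icc 0 1) ∧
    (¬ Two n A → z ∈ W (A \ {tw b}) ∨ z = D.pt (tw b) ∨ ∃ i, n i ∈ A ∧ z ∈ γ b i '' Icc 0 1)}

/-- the regions -/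
def K (D : Drawing H E) (W : Set α → Set E) (tw : Bool → α)
    (n : Fin 3 → α) (γ : Bool → Fin 3 → ℝ → E) (A : Set α) : Set E :=
  {z | (∀ b, tw b ∈ A → tw (!b) ∉ A → z ∈ R D W tw n γ b A) ∧
    ((∀ b, tw b ∈ A → tw (!b) ∈ A) → z ∈ W A)}

theorem not_two {A B : Set α} (hAB : Disjoint A B) (hA : Two n A) : ¬ Two n B := by
  rintro ⟨k, l, hkl, hk, hl⟩
  obtain ⟨i, j, hij, hi, hj⟩ := hA
  have h : ∀ p q, n p ∈ A → n q ∈ B → p ≠ q := by
    rintro p q hp hq rfl
    exact Set.disjoint_left.1 hAB hp hq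
  have h1 := h i k hi hk
  have h2 := h i l hi hl
  have h3 := h j k hj hk
  have h4 := h j l hj hl
  revert hkl hij h1 h2 h3 h4
  clear hk hl hi hj h
  revert i j k l
  decide

theorem eq_or_not (b b' : Bool) : b' = b ∨ b' = !b := by
  revert b b'
  decide

namespace TwinData

variable (T : TwinData H D W tw n g γ)
include T

theorem tw_mem (b : Bool) : tw b ∈ H.vertexSet := (T.link b 0).left_mem

theorem n_mem (i : Fin 3) : n i ∈ H.vertexSet := (T.link false i).right_mem

theorem curve_zero (b : Bool) (i : Fin 3) : D.pt (tw b) ∈ γ b i '' Icc 0 1 := by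
  refine ⟨0, by simp, ?_⟩
  have h := T.arc_eq b i 0
  rw [D.arc_zero (T.link b i)] at h
  simpa using h.symm

theorem curve_mem (b : Bool) (i : Fin 3) {z : E} (hz : z ∈ γ b i '' Icc 0 1) :
    z ∈ W {tw b, n i} := by
  obtain ⟨t, ht, rfl⟩ := hz
  have h := T.arc_eq b i ⟨t, ht⟩
  rw [← h]
  exact T.arc (T.link b i) _

theorem pt_ne (b : Bool) : D.pt (tw b) ≠ D.pt (tw !b) := by
  intro h
  exact T.pt_curve b 0 (h ▸ T.curve_zero (!b) 0)

theorem R_sub {b : Bool} {A : Set α} (hA : A ⊆ H.vertexSet) (hb : tw b ∈ A) :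
    R D W tw n γ b A ⊆ W A := by
  rintro z ⟨h1, h2⟩
  by_cases h : Two n A
  · exact (h1 h).1
  · rcases h2 h with h3 | rfl | ⟨i, hi, h3⟩
    · exact T.mono _ _ Set.sdiff_subset h3
    · exact T.mono _ _ (by simpa using hb) (T.pt _ (hA hb))
    · refine T.mono _ _ ?_ (T.curve_mem b i h3)
      rintro u (rfl | rfl)
      · exact hb
      · exact hi

theorem K_sub {A : Set α} (hA : A ⊆ H.vertexSet) : K D W tw n γ A ⊆ W A := by
  rintro z ⟨h1, h2⟩
  by_cases h : ∀ b, tw b ∈ A → tw (!b) ∈ A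
  · exact h2 h
  · push Not at h
    obtain ⟨b, hb, hb'⟩ := h
    exact T.R_sub hA hb (h1 b hb hb')

/-- one half of the disjointness -/
theorem dis_aux {b : Bool} {A B : Set α} (hA : A ⊆ H.vertexSet) (hB : B ⊆ H.vertexSet)
    (hAB : Disjoint A B) (hb : tw b ∈ A) (hb' : tw (!b) ∈ B) (hTA : Two n A) {z : E}
    (hz : z ∈ R D W tw n γ b A) (hz' : z ∈ R D W tw n γ (!b) B) : False := by
  have hTB := not_two hAB hTA
  obtain ⟨h1, h2, h3⟩ := hz.1 hTA
  have hbB : tw b ∉ B := fun h => Set.disjoint_left.1 hAB hb h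
  rcases hz'.2 hTB with h4 | rfl | ⟨i, hi, h4⟩
  · refine Set.disjoint_left.1 (T.dis A (B \ {tw !b}) hA (Set.sdiff_subset.trans hB)
      (hAB.mono_right Set.sdiff_subset) ?_) h1 h4
    intro c c' _ hc'
    rcases eq_or_not b c' with rfl | rfl
    · exact hbB hc'.1
    · exact hc'.2 rfl
  · exact h2 rfl
  · exact h3 i (fun h => Set.disjoint_left.1 hAB h hi) h4

/-- another part of the disjointness -/
theorem dis_aux2 {b : Bool} {A B : Set α} (hA : A ⊆ H.vertexSet) (hB : B ⊆ H.vertexSet)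
    (hAB : Disjoint A B) (hb : tw b ∈ A) (hb' : tw (!b) ∈ B) {z : E}
    (hz : z ∈ W (A \ {tw b}))
    (hz' : z ∈ W (B \ {tw !b}) ∨ z = D.pt (tw !b) ∨ ∃ i, n i ∈ B ∧ z ∈ γ (!b) i '' Icc 0 1) :
    False := by
  have hbA : tw (!b) ∉ A := fun h => Set.disjoint_left.1 hAB h hb'
  have hno : ∀ c, tw c ∉ A \ {tw b} := by
    intro c hc
    rcases eq_or_not b c with rfl | rfl
    · exact hc.2 rfl
    · exact hbA hc.1
  have hsub : A \ {tw b} ⊆ H.vertexSet := Set.sdiff_subset.trans hA
  rcases hz' with h | rfl | ⟨i, hi, h⟩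
  · exact Set.disjoint_left.1 (T.dis (A \ {tw b}) (B \ {tw !b}) hsub
      (Set.sdiff_subset.trans hB) (hAB.mono Set.sdiff_subset Set.sdiff_subset)
      (fun c _ hc _ => hno c hc)) hz h
  · refine Set.disjoint_left.1 (T.dis (A \ {tw b}) {tw !b} hsub (by simpa using hB hb') ?_
      (fun c _ hc _ => hno c hc)) hz (T.pt _ (hB hb'))
    rw [Set.disjoint_singleton_right]
    exact hno _
  · refine Set.disjoint_left.1 (T.dis (A \ {tw b}) {tw !b, n i} hsub ?_ ?_
      (fun c _ hc _ => hno c hc)) hz (T.curve_mem _ i h)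
    · rintro u (rfl | rfl)
      · exact hB hb'
      · exact hB hi
    · rw [Set.disjoint_right]
      rintro u (rfl | rfl)
      · exact hno _
      · exact fun h2 => Set.disjoint_left.1 hAB h2.1 hi

theorem K_dis {A B : Set α} (hA : A ⊆ H.vertexSet) (hB : B ⊆ H.vertexSet) (hAB : Disjoint A B) :
    Disjoint (K D W tw n γ A) (K D W tw n γ B) := by
  by_cases h : ∀ b b', tw b ∈ A → tw b' ∈ B → False
  · exact (T.dis A B hA hB hAB h).mono (T.K_sub hA) (T.K_sub hB)
  obtain ⟨b, b', hb, hb'⟩ : ∃ b b', tw b ∈ A ∧ tw b' ∈ B := by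
    by_contra h2
    exact h fun b b' h3 h4 => h2 ⟨b, b', h3, h4⟩
  have hbb : b' = !b := by
    rcases eq_or_not b b' with rfl | rfl
    · exact absurd hb' (fun h => Set.disjoint_left.1 hAB hb h)
    · rfl
  subst hbb
  have hbA : tw (!b) ∉ A := fun h => Set.disjoint_left.1 hAB h hb'
  have hbB : tw b ∉ B := fun h => Set.disjoint_left.1 hAB hb h
  rw [Set.disjoint_left]
  intro z hz hz'
  have h1 : z ∈ R D W tw n γ b A := hz.1 b hb hbA
  have h2 : z ∈ R D W tw n γ (!b) B := hz'.1 (!b) hb' (by simpa using hbB)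
  by_cases hTA : Two n A
  · exact T.dis_aux hA hB hAB hb hb' hTA h1 h2
  by_cases hTB : Two n B
  · exact T.dis_aux (b := !b) hB hA hAB.symm hb' (by simpa using hb) hTB h2 (by simpa using h1)
  have h3 := h1.2 hTA
  have h4 := h2.2 hTB
  rcases h3 with h3 | h3
  · exact T.dis_aux2 hA hB hAB hb hb' h3 h4
  rcases h4 with h4 | h4
  · refine T.dis_aux2 (b := !b) hB hA hAB.symm hb' (by simpa using hb) h4 ?_
    simp only [Bool.not_not]
    exact Or.inr h3
  rcases h3 with rfl | ⟨i, hi, h3⟩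
  · rcases h4 with h4 | ⟨j, hj, h4⟩
    · exact T.pt_ne b h4
    · exact T.pt_curve b j h4
  · rcases h4 with rfl | ⟨j, hj, h4⟩
    · have := T.pt_curve (!b) i
      rw [Bool.not_not] at this
      exact this h3
    · refine Set.disjoint_left.1 (T.curve_curve b i j ?_) h3 h4
      rintro rfl
      exact Set.disjoint_left.1 hAB hi hj

/-- what is away from the twins -/
theorem off {b : Bool} {A B : Set α} (hA : A ⊆ H.vertexSet) (hb' : tw (!b) ∉ A)
    (hBA : B ⊆ A) (hbB : tw b ∉ B) : W B ⊆ R D W tw n γ b A := by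
  intro z hz
  have hno : ∀ c, tw c ∉ B := by
    intro c hc
    rcases eq_or_not b c with rfl | rfl
    · exact hbB hc
    · exact hb' (hBA hc)
  have hB := hBA.trans hA
  refine ⟨fun _ => ⟨T.mono _ _ hBA hz, ?_, ?_⟩, fun _ => Or.inl (T.mono _ _ ?_ hz)⟩
  · rintro rfl
    refine Set.disjoint_left.1 (T.dis B {tw !b} hB (by simpa using T.tw_mem _) ?_
      (fun c _ hc _ => hno c hc)) hz (T.pt _ (T.tw_mem _))
    rw [Set.disjoint_singleton_right]
    exact hno _
  · intro i hi h
    refine Set.disjoint_left.1 (T.dis B {tw !b, n i} hB ?_ ?_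
      (fun c _ hc _ => hno c hc)) hz (T.curve_mem _ i h)
    · rintro u (rfl | rfl)
      · exact T.tw_mem _
      · exact T.n_mem _
    · rw [Set.disjoint_right]
      rintro u (rfl | rfl)
      · exact hno _
      · exact fun h2 => hi (hBA h2)
  · intro u hu
    exact ⟨hBA hu, fun h => hbB (h ▸ hu)⟩

theorem K_pt {A : Set α} (hA : A ⊆ H.vertexSet) {x : α} (hx : x ∈ A) :
    D.pt x ∈ K D W tw n γ A := by
  refine ⟨fun b hb hb' => ?_, fun _ => T.mono _ _ (by simpa using hx) (T.pt x (hA hx))⟩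
  by_cases h : x = tw b
  · subst h
    exact ⟨fun _ => ⟨T.mono _ _ (by simpa using hx) (T.pt _ (hA hx)), T.pt_ne b,
      fun i _ => T.pt_curve b i⟩, fun _ => Or.inr (Or.inl rfl)⟩
  · exact T.off hA hb' (by simpa using hx) (fun h2 => h h2.symm) (T.pt x (hA hx))

theorem K_arc {A : Set α} (hA : A ⊆ H.vertexSet) {e : β} {x y : α} (h : H.IsLink e x y)
    (hx : x ∈ A) (hy : y ∈ A) (t : I) : D.arc e x y t ∈ K D W tw n γ A := by
  have hsub : ({x, y} : Set α) ⊆ A := by
    rintro u (rfl | rfl)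
    · exact hx
    · exact hy
  have hW : D.arc e x y t ∈ W A := T.mono _ _ hsub (T.arc h t)
  refine ⟨fun b hb hb' => ?_, fun _ => hW⟩
  by_cases h1 : tw b ∈ ({x, y} : Set α)
  · obtain ⟨i, hi, hz⟩ : ∃ i, n i ∈ A ∧ D.arc e x y t ∈ γ b i '' Icc 0 1 := by
      rcases h1 with h1 | h1
      · obtain ⟨i, rfl⟩ := T.only b e ⟨y, h1 ▸ h⟩
        rw [← h1] at h ⊢
        have hyi := h.right_unique (T.link b i)
        subst hyi
        exact ⟨i, hy, t, t.2, (T.arc_eq b i t).symm⟩
      · have h1' : tw b = y := h1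
        obtain ⟨i, rfl⟩ := T.only b e ⟨x, h1' ▸ h.symm⟩
        rw [← h1'] at h ⊢
        have hxi := h.symm.right_unique (T.link b i)
        subst hxi
        refine ⟨i, hx, σ t, (σ t).2, ?_⟩
        rw [D.arc_symm h.symm t]
        exact (T.arc_eq b i (σ t)).symm
    refine ⟨fun _ => ⟨hW, ?_, ?_⟩, fun _ => Or.inr (Or.inr ⟨i, hi, hz⟩)⟩
    · intro h2
      rw [h2] at hz
      have := T.pt_curve (!b) i
      rw [Bool.not_not] at this
      exact this hz
    · intro j hj h2
      refine Set.disjoint_left.1 (T.curve_curve b i j ?_) hz h2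
      rintro rfl
      exact hj hi
  · exact T.off hA hb' hsub h1 (T.arc h t)

theorem loopless (b : Bool) (e : β) : ¬ H.IsLink e (tw b) (tw b) := by
  intro h
  obtain ⟨i, rfl⟩ := T.only b e ⟨_, h⟩
  exact T.tn b i (h.right_unique (T.link b i))

theorem hol_mem {A : Set α} (hA : A ⊆ H.vertexSet) {x y : α} (p : Walk H x y)
    (hp : ∀ u ∈ p.support, u ∈ A) (t : I) : D.hol p t ∈ K D W tw n γ A := by
  induction p generalizing t with
  | nil x => exact T.K_pt hA (hp x (by simp [Walk.support]))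
  | @cons x y z e h p ih =>
    have h1 : ∀ u ∈ p.support, u ∈ A := fun u hu => hp u (by simp [Walk.support, hu])
    exact trans_mem (fun t => T.K_arc hA h (hp x (by simp [Walk.support]))
      (h1 y p.start_mem_support) t) (ih h1) t

theorem K_cyc (hd : 3 < finrank ℝ E) {x : α} (w : Walk H x x) (hw : w.IsCycle)
    (hS : {u | u ∈ w.support} ⊆ H.vertexSet) :
    HomIn (K D W tw n γ {u | u ∈ w.support}) (D.hol w) (Path.refl (D.pt x)) := by
  classical
  have hx : x ∈ w.support := w.start_mem_support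
  have hnull := T.null {u | u ∈ w.support} hS w (hS hx) (fun u hu => hu)
  by_cases h : ∀ b, tw b ∈ w.support → tw (!b) ∈ w.support
  · refine hnull.mono fun z hz => ⟨fun b hb hb' => absurd (h b hb) hb', fun _ => hz⟩
  push Not at h
  obtain ⟨b, hb, hb'⟩ := h
  have htwo : Two n {u | u ∈ w.support} := by
    obtain ⟨e1, e2, hne, he1, he2, hi1, hi2⟩ := two_edges hw hb (T.loopless b)
    obtain ⟨i, rfl⟩ := T.only b e1 hi1
    obtain ⟨j, rfl⟩ := T.only b e2 hi2
    refine ⟨i, j, fun h => hne (by rw [h]), ?_, ?_⟩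
    · exact w.end_mem_of_edge he1 (T.link b i).symm
    · exact w.end_mem_of_edge he2 (T.link b j).symm
  let s : Finset (Option (Fin 3)) := Finset.univ.filter
    (fun o => ∀ i, o = some i → n i ∉ w.support)
  let c : Option (Fin 3) → ℝ → E := fun o => match o with
    | none => fun _ => D.pt (tw !b)
    | some i => γ (!b) i
  have hc : ∀ o, ContDiff ℝ 1 (c o) := by
    intro o
    cases o with
    | none => exact contDiff_const
    | some i => exact T.smooth _ i
  have havoid : ∀ z ∈ K D W tw n γ {u | u ∈ w.support}, ∀ o ∈ s, z ∉ c o '' Icc 0 1 := by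
    intro z hz o ho
    obtain ⟨-, h2, h3⟩ := (hz.1 b hb hb').1 htwo
    cases o with
    | none =>
      rintro ⟨t, -, h4⟩
      exact h2 h4.symm
    | some i => exact h3 i ((Finset.mem_filter.1 ho).2 i rfl)
  have h1 := move_hom_finset hd c hc s (T.isOpen _) hnull
    (fun o ho t => havoid _ (T.hol_mem hS w (fun u hu => hu) t) o ho)
    (fun o ho t => havoid _ (by simpa using T.K_pt hS hx) o ho)
  refine h1.mono ?_
  rintro z ⟨hz, hzs⟩
  refine ⟨fun b' hb1 hb1' => ?_, fun h => absurd (h b hb) hb'⟩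
  have hbb : b' = b := by
    rcases eq_or_not b b' with rfl | rfl
    · rfl
    · exact absurd hb1 hb'
  subst hbb
  refine ⟨fun _ => ⟨hz, ?_, ?_⟩, fun h => absurd htwo h⟩
  · rintro rfl
    exact hzs none (Finset.mem_filter.2 ⟨Finset.mem_univ _, by simp⟩) ⟨0, by simp, rfl⟩
  · intro i hi
    exact hzs (some i) (Finset.mem_filter.2 ⟨Finset.mem_univ _, by
      intro j hj
      obtain rfl := Option.some.inj hj
      exact hi⟩)

theorem almostEmbeds (hd : 3 < finrank ℝ E) : AlmostEmbeds H E :=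
  assemble D (K D W tw n γ) (fun _ _ hA hB hAB => T.K_dis hA hB hAB)
    (fun _ hA _ hx => T.K_pt hA hx) (fun _ hA _ _ _ h hx hy t => T.K_arc hA h hx hy t)
    (fun w hw hS => T.K_cyc hd w hw hS)

end TwinData

end Core

end H95F
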