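import Pool.Agent.Lib.H95F.Defs

/-!
# Twins of a vertex of degree three

MP_7f673e_co. The operation `IsTwin` (a twin of a vertex of degree three is added) and the relation
`StepTwin`, which allows it besides the operations of `Step`.
-/

namespace H95F

variable {α β : Type*}

/-- `H` arises from `G` by adding a twin `v'` of the vertex `v` of degree three: `v` has exactly
the three edges `g 0, g 1, g 2`, to the three distinct vertices `n 0, n 1, n 2`, and `v'` is a new
vertex, joined to `n 0, n 1, n 2` by the three new edges `g' 0, g' 1, g' 2`. -/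
structure IsTwin (G H : Graph α β) (v : α) (n : Fin 3 → α) (g : Fin 3 → β) (v' : α)
    (g' : Fin 3 → β) : Prop where
  link : ∀ i, G.IsLink (g i) v (n i)
  only : ∀ e, G.Inc e v → ∃ i, e = g i
  ne : ∀ i, v ≠ n i
  inj : Function.Injective n
  notMem : v' ∉ G.vertexSet
  edge_notMem : ∀ i, g' i ∉ G.edgeSet
  edge_inj : Function.Injective g'
  verts : H.vertexSet = insert v' G.vertexSet
  link_iff : ∀ e x y, H.IsLink e x y ↔ G.IsLink e x y ∨ ∃ i, e = g' i ∧ s(x, y) = s(v', n i)

/-- one operation: a `Step` (Y-Delta transformation, deletion, contraction, doubling of an edge),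
or the addition of a twin of a vertex of degree three -/
inductive StepTwin : Graph α β → Graph α β → Prop
  | step {G H : Graph α β} (h : Step G H) : StepTwin G H
  | twin {G H : Graph α β} {v : α} {n : Fin 3 → α} {g : Fin 3 → β} {v' : α} {g' : Fin 3 → β}
      (h : IsTwin G H v n g v' g') : StepTwin G H

end H95F
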