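import Pool.Agent.Lib.H95G.Defs

/-!
# The Delta-Y transformation

MP_7f673e_co. The operation `IsDeltaY`, inverse to the Y-Delta transformation of `Step`, and the
relation `StepAll`, which allows it besides the operations of `StepTwin`.
-/

namespace H95F

variable {α β : Type*}

/-- `H` arises from `G` by the Delta-Y transformation at the triangle of `G` with the three distinct
vertices `n 0, n 1, n 2`, whose edge opposite to `n i` is `t i`: the edges `t 0, t 1, t 2` are
deleted, and a new vertex `w` is added and joined to `n 0, n 1, n 2`. The names `t 0, t 1, t 2` are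
used again, for the three new edges. -/
structure IsDeltaY (G H : Graph α β) (n : Fin 3 → α) (t : Fin 3 → β) (w : α) : Prop where
  inj : Function.Injective n
  link : ∀ i, G.IsLink (t i) (n (i + 1)) (n (i + 2))
  notMem : w ∉ G.vertexSet
  verts : H.vertexSet = insert w G.vertexSet
  link_iff : ∀ e x y, H.IsLink e x y ↔
    ((∀ i, e ≠ t i) ∧ G.IsLink e x y) ∨ ∃ i, e = t i ∧ s(x, y) = s(w, n i)

/-- one operation: a `StepTwin` (Y-Delta transformation, deletion, contraction, doubling of an
edge, addition of a twin of a vertex of degree three), or a Delta-Y transformation -/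
inductive StepAll : Graph α β → Graph α β → Prop
  | twin {G H : Graph α β} (h : StepTwin G H) : StepAll G H
  | deltaY {G H : Graph α β} {n : Fin 3 → α} {t : Fin 3 → β} {w : α}
      (h : IsDeltaY G H n t w) : StepAll G H

end H95F
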