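import Pool.Agent.Lib.H95G.TameAll
import Pool.Agent.Lib.H95G.DeltaYDefs

/-!
# Delta-Y transformations

MP_7f673e_co.
-/

set_option linter.unusedSectionVars false

open scoped unitInterval Topology
open Set Metric Module

namespace H95F

variable {α β : Type*} {G H Gm : Graph α β}

section Generic

variable {Z : Type*} [TopologicalSpace Z]

theorem hol_mem' (D : Drawing H Z) {S : Set Z} {A : Set α}
    (hpt : ∀ u ∈ A, u ∈ H.vertexSet → D.pt u ∈ S)
    (harc : ∀ {e x y}, H.IsLink e x y → x ∈ A → y ∈ A → ∀ t, D.arc e x y t ∈ S) {x y : α}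
    (p : Walk H x y) (hx : x ∈ H.vertexSet) (hp : ∀ u ∈ p.support, u ∈ A) (t : I) :
    D.hol p t ∈ S := by
  induction p generalizing t with
  | nil x => exact hpt x (hp x (by simp [Walk.support])) hx
  | @cons x y z e h p ih =>
    have h1 : ∀ u ∈ p.support, u ∈ A := fun u hu => hp u (by simp [Walk.support, hu])
    exact trans_mem (fun t => harc h (hp x (by simp [Walk.support]))
      (h1 y p.start_mem_support) t) (ih h.right_mem h1) t

theorem hol_append' (D : Drawing H Z) {S : Set Z} {A : Set α}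
    (hpt : ∀ u ∈ A, u ∈ H.vertexSet → D.pt u ∈ S)
    (harc : ∀ {e x y}, H.IsLink e x y → x ∈ A → y ∈ A → ∀ t, D.arc e x y t ∈ S) {x y z : α}
    (p : Walk H x y) (q : Walk H y z) (hx : x ∈ H.vertexSet) (hp : ∀ u ∈ p.support, u ∈ A)
    (hq : ∀ u ∈ q.support, u ∈ A) :
    HomIn S (D.hol (p.append q)) ((D.hol p).trans (D.hol q)) := by
  induction p with
  | nil x => exact (homIn_refl_trans (hol_mem' D hpt harc q hx hq)).symm
  | @cons x y z e h p ih =>
    have h1 : ∀ u ∈ p.support, u ∈ A := fun u hu => hp u (by simp [Walk.support, hu])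
    have hxS : x ∈ A := hp x (by simp [Walk.support])
    have hyS : y ∈ A := h1 y p.start_mem_support
    have h2 := ih q h.right_mem h1 hq
    have m1 : ∀ t, D.path h t ∈ S := fun t => harc h hxS hyS t
    refine HomIn.trans ((HomIn.refl m1).hcomp h2) ?_
    refine (homIn_assoc m1 (hol_mem' D hpt harc p h.right_mem h1)
      (hol_mem' D hpt harc q ?_ hq)).symm
    exact p.mem_vertexSet h.right_mem p.end_mem_support

theorem split_last {x y : α} (p : Walk H x y) (hp : p.support.Nodup) (hxy : x ≠ y) :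
    ∃ (z : α) (q : Walk H x z) (e : β) (h : H.IsLink e z y),
      p = q.append (.cons e h (.nil y)) ∧ y ∉ q.support := by
  induction p with
  | nil x => exact absurd rfl hxy
  | @cons x u y e h p ih =>
    simp only [Walk.support, List.nodup_cons] at hp
    by_cases huy : u = y
    · subst huy
      obtain rfl := p.eq_nil_of_nodup hp.2
      exact ⟨x, .nil x, e, h, rfl, by simpa [Walk.support] using hxy.symm⟩
    · obtain ⟨z, q, e', h', rfl, hq⟩ := ih hp.2 huy
      exact ⟨z, .cons e h q, e', h', rfl, by simp [Walk.support, hxy.symm, hq]⟩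

theorem trans_congr {a b c a' b' c' : Z} {p : Path a b} {q : Path b c} {p' : Path a' b'}
    {q' : Path b' c'} (hp : ∀ t, p t = p' t) (hq : ∀ t, q t = q' t) (t : I) :
    (p.trans q) t = (p'.trans q') t := by
  rw [Path.trans_apply, Path.trans_apply]
  split_ifs
  · exact hp _
  · exact hq _

theorem conv (DH : Drawing H Z) (D : Drawing Gm Z) (w : α)
    (hlk : ∀ {e x y}, H.IsLink e x y → x ≠ w → y ≠ w → Gm.IsLink e x y)
    (hpt : ∀ x, x ≠ w → DH.pt x = D.pt x)
    (harc : ∀ {e x y}, H.IsLink e x y → x ≠ w → y ≠ w → DH.arc e x y = D.arc e x y)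
    {x y : α} (p : Walk H x y) (hw : w ∉ p.support) :
    ∃ p' : Walk Gm x y, p'.support = p.support ∧ ∀ t, D.hol p' t = DH.hol p t := by
  induction p with
  | nil x =>
    have hx : x ≠ w := by
      rintro rfl
      exact hw (by simp [Walk.support])
    exact ⟨.nil x, rfl, fun t => (hpt x hx).symm⟩
  | @cons x y z e h p ih =>
    have hx : x ≠ w := by
      rintro rfl
      exact hw (by simp [Walk.support])
    have hw' : w ∉ p.support := fun h1 => hw (by simp [Walk.support, h1])
    have hy : y ≠ w := by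
      rintro rfl
      exact hw' p.start_mem_support
    obtain ⟨p', h1, h2⟩ := ih hw'
    refine ⟨.cons e (hlk h hx hy) p', by simp [Walk.support, h1], ?_⟩
    intro t
    refine trans_congr (p := D.path (hlk h hx hy)) (p' := DH.path h) (fun t => ?_) h2 t
    change D.arc e x y t = DH.arc e x y t
    rw [harc h hx hy]

theorem hol_unique (f : FullMap G Z) {S : Set α} {x y : α} (p q : Walk G x y)
    (hx : x ∈ G.vertexSet) (hp : ∀ u ∈ p.support, u ∈ S) (hq : ∀ u ∈ q.support, u ∈ S) :
    HomIn (f.big S) (f.hol p) (f.hol q) := by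
  have hy : y ∈ G.vertexSet := p.mem_vertexSet hx p.end_mem_support
  have hq' : ∀ u ∈ q.reverse.support, u ∈ S := by
    intro u hu
    rw [Walk.support_reverse, List.mem_reverse] at hu
    exact hq u hu
  have h1 := closed_null f (p.append q.reverse) hx (S := S) (by
    intro u hu
    rw [Walk.support_append, List.mem_append] at hu
    rcases hu with hu | hu
    · exact hp u hu
    · exact hq' u (List.mem_of_mem_tail hu))
  have h2 := walk_append f p q.reverse hx hp hq'
  have h3 := walk_reverse f q hx hq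
  have mp := walk_mem_big f p hx hp
  have mq := walk_mem_big f q hx hq
  have mqs : ∀ t, (f.hol q).symm t ∈ f.big S := fun t => mq _
  have h4 : HomIn (f.big S) ((f.hol p).trans (f.hol q).symm) (Path.refl _) :=
    ((HomIn.refl mp).hcomp h3.symm).trans (h2.symm.trans h1)
  exact (homIn_trans_refl mp).symm.trans (((HomIn.refl mp).hcomp (homIn_symm_trans mq).symm).trans
    ((homIn_assoc mp mqs mq).symm.trans ((h4.hcomp (HomIn.refl mq)).trans (homIn_refl_trans mq))))

theorem rel_symm {S : Set Z} {x y z : Z} {p : Path x y} {q : Path y z} {r : Path x z}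
    (hp : ∀ t, p t ∈ S) (hq : ∀ t, q t ∈ S) (h : HomIn S (p.trans q) r) :
    HomIn S (r.trans q.symm) p := by
  have hqs : ∀ t, q.symm t ∈ S := fun t => hq _
  exact (h.symm.hcomp (HomIn.refl hqs)).trans ((homIn_assoc hp hq hqs).trans
    (((HomIn.refl hp).hcomp (homIn_trans_symm hq)).trans (homIn_trans_refl hp)))

end Generic

section Core

variable {E : Type*} [NormedAddCommGroup E] [NormedSpace ℝ E] [FiniteDimensional ℝ E]
variable {n : Fin 3 → α} {t : Fin 3 → β} {w : α}

theorem IsDeltaY.t_inj (h : IsDeltaY G H n t w) : Function.Injective t := by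
  intro i j hij
  have h1 := h.link i
  rw [hij] at h1
  have h2 := h1.left_eq_or_eq (h.link j)
  have h3 := h1.symm.left_eq_or_eq (h.link j)
  rw [h.inj.eq_iff, h.inj.eq_iff] at h2 h3
  clear h1 hij
  revert i j
  decide

theorem IsDeltaY.n_mem (h : IsDeltaY G H n t w) (i : Fin 3) : n i ∈ G.vertexSet := by
  have h1 := (h.link (i + 2)).left_mem
  have h2 : ∀ i : Fin 3, i + 2 + 1 = i := by decide
  rwa [h2] at h1

theorem IsDeltaY.n_ne (h : IsDeltaY G H n t w) (i : Fin 3) : n i ≠ w := by
  intro h1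
  exact h.notMem (h1 ▸ h.n_mem i)

theorem deltaY_core (h : IsDeltaY G H n t w)
    (hGl : ∀ {e x y}, Gm.IsLink e x y ↔ (∀ i, e ≠ t i) ∧ G.IsLink e x y)
    (hGV : Gm.vertexSet = G.vertexSet) (f : FullMap G E) {δ : ℝ} (hδ : 0 < δ)
    (hdis : ∀ A B, Disjoint A B → Disjoint (reg f δ A) (reg f δ B))
    (arc : β → α → α → C(I, E)) (h0 : ∀ {e x y}, Gm.IsLink e x y → arc e x y 0 = f.pt x)
    (h1 : ∀ {e x y}, Gm.IsLink e x y → arc e x y 1 = f.pt y)
    (hs : ∀ {e x y}, Gm.IsLink e x y → ∀ t, arc e y x t = arc e x y (σ t))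
    (S : Cell Gm → Set E) (hSreg : ∀ s, S s ⊆ reg f δ s.verts)
    (hSpt : ∀ x ∈ Gm.vertexSet, ∀ A, x ∈ A → f.pt x ∈ Cc S A)
    (hSarc : ∀ {e x y}, Gm.IsLink e x y → ∀ A, x ∈ A → y ∈ A → ∀ t, arc e x y t ∈ Cc S A)
    (hhom : ∀ {e x y} (h : Gm.IsLink e x y) (h' : G.IsLink e x y), HomIn (reg f δ {x, y})
      (⟨arc e x y, h0 h, h1 h⟩ : Path (f.pt x) (f.pt y)) (f.path h'))
    (hnull : ∀ A {x} (p : Walk Gm x x), x ∈ Gm.vertexSet → (∀ u ∈ p.support, u ∈ A) →
      HomIn (Cc S A) ((⟨f.pt, arc, h0, h1, hs⟩ : Drawing Gm E).hol p) (Path.refl (f.pt x)))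
    {w0 : E} (hw0 : w0 ∉ Cc S univ) (sp : ∀ i, Path w0 (f.pt (n i)))
    (hsp : ∀ i s, sp i s ∉ Cc S {n i}ᶜ)
    (hrel : ∀ i j, i ≠ j → ∃ (e : β) (l : G.IsLink e (n i) (n j)),
      HomIn (Cc S {n i, n j}ᶜ)ᶜ ((sp i).trans (f.path l)) (sp j)) :
    AlmostEmbeds H E := by
  classical
  have far : ∀ {A B : Set α} {z : E}, Disjoint A B → z ∈ reg f δ A → z ∈ reg f δ B → False :=
    fun hAB h2 h3 => Set.disjoint_left.1 (hdis _ _ hAB) h2 h3
  have hCreg : ∀ A, Cc S A ⊆ reg f δ A := Cc_sub hSreg
  have hwV : ∀ {x}, x ∈ Gm.vertexSet → x ≠ w := by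
    rintro x hx rfl
    exact h.notMem (hGV ▸ hx)
  let D : Drawing Gm E := ⟨f.pt, arc, h0, h1, hs⟩
  let ptH : α → E := fun x => if x = w then w0 else f.pt x
  have ptw : ptH w = w0 := if_pos rfl
  have ptn : ∀ {x}, x ≠ w → ptH x = f.pt x := fun hx => if_neg hx
  let arcH : β → α → α → C(I, E) := fun e x y =>
    if he : ∃ i, e = t i then
      (if x = w then (sp he.choose).toContinuousMap else (sp he.choose).symm.toContinuousMap)
    else arc e x y
  have hch : ∀ i (he : ∃ j, t i = t j), he.choose = i := fun i he =>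
    (h.t_inj he.choose_spec).symm
  have arc1 : ∀ i y s, arcH (t i) w y s = sp i s := by
    intro i y s
    have he : ∃ j, t i = t j := ⟨i, rfl⟩
    rw [show arcH (t i) w y = if he : ∃ j, t i = t j then
      (if w = w then (sp he.choose).toContinuousMap else (sp he.choose).symm.toContinuousMap)
      else arc (t i) w y from rfl, dif_pos he, if_pos rfl, hch i he]
    rfl
  have arc2 : ∀ i x y s, x ≠ w → arcH (t i) x y s = sp i (σ s) := by
    intro i x y s hx
    have he : ∃ j, t i = t j := ⟨i, rfl⟩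
    simp only [arcH]
    rw [dif_pos he, if_neg hx, hch i he]
    rfl
  have arc3 : ∀ {e} x y, (∀ i, e ≠ t i) → arcH e x y = arc e x y := by
    intro e x y he
    exact dif_neg (by rintro ⟨i, hi⟩; exact he i hi)
  have hcase : ∀ {e x y}, H.IsLink e x y →
      (Gm.IsLink e x y ∧ x ≠ w ∧ y ≠ w ∧ arcH e x y = arc e x y ∧ arcH e y x = arc e y x) ∨
      ∃ i, e = t i ∧ ((x = w ∧ y = n i) ∨ (x = n i ∧ y = w)) := by
    intro e x y hl
    rcases (h.link_iff e x y).1 hl with ⟨h2, h3⟩ | ⟨i, h2, h3⟩
    · have h4 : Gm.IsLink e x y := hGl.2 ⟨h2, h3⟩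
      exact Or.inl ⟨h4, hwV h4.left_mem, hwV h4.right_mem, arc3 _ _ h2, arc3 _ _ h2⟩
    · refine Or.inr ⟨i, h2, ?_⟩
      simpa using h3
  let DH : Drawing H E :=
    { pt := ptH
      arc := arcH
      arc_zero := by
        intro e x y hl
        rcases hcase hl with ⟨h2, h3, h4, h5, -⟩ | ⟨i, rfl, ⟨rfl, rfl⟩ | ⟨rfl, rfl⟩⟩
        · rw [h5, ptn h3, h0 h2]
        · rw [arc1, ptw, Path.source]
        · rw [arc2 _ _ _ _ (h.n_ne i), ptn (h.n_ne i), unitInterval.symm_zero, Path.target]
      arc_one := by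
        intro e x y hl
        rcases hcase hl with ⟨h2, h3, h4, h5, -⟩ | ⟨i, rfl, ⟨rfl, rfl⟩ | ⟨rfl, rfl⟩⟩
        · rw [h5, ptn h4, h1 h2]
        · rw [arc1, ptn (h.n_ne i), Path.target]
        · rw [arc2 _ _ _ _ (h.n_ne i), ptw, unitInterval.symm_one, Path.source]
      arc_symm := by
        intro e x y hl s
        rcases hcase hl with ⟨h2, h3, h4, h5, h6⟩ | ⟨i, rfl, ⟨rfl, rfl⟩ | ⟨rfl, rfl⟩⟩
        · rw [h5, h6, hs h2]
        · rw [arc1, arc2 _ _ _ _ (h.n_ne i)]
        · rw [arc1, arc2 _ _ _ _ (h.n_ne i), unitInterval.symm_symm] }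
  let K : Set α → Set E := fun A => {z | (w ∈ A → z ∉ Cc S Aᶜ) ∧ (w ∉ A → z ∈ Cc S A)}
  have Kw : ∀ {A : Set α}, w ∈ A → (Cc S Aᶜ)ᶜ ⊆ K A := fun hA z hz =>
    ⟨fun _ => hz, fun h2 => absurd hA h2⟩
  have Kn : ∀ {A : Set α}, w ∉ A → Cc S A ⊆ K A := fun hA z hz =>
    ⟨fun h2 => absurd h2 hA, fun _ => hz⟩
  have regK : ∀ A, reg f δ A ⊆ (Cc S Aᶜ)ᶜ := fun A z hz hz' =>
    far (disjoint_compl_right (a := A)) hz (hCreg _ hz')
  have spK : ∀ i {A : Set α}, n i ∈ A → ∀ s, sp i s ∈ (Cc S Aᶜ)ᶜ := by
    intro i A hA s hz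
    refine hsp i s (Cc_mono _ ?_ hz)
    intro u hu h2
    rw [Set.mem_singleton_iff] at h2
    exact hu (h2 ▸ hA)
  have Kpt : ∀ A, A ⊆ H.vertexSet → ∀ x ∈ A, DH.pt x ∈ K A := by
    intro A hA x hx
    by_cases hxw : x = w
    · subst hxw
      refine Kw hx ?_
      change ptH x ∉ _
      rw [ptw]
      exact fun h2 => hw0 (Cc_mono _ (subset_univ _) h2)
    · have hxG : x ∈ Gm.vertexSet := by
        have := hA hx
        rw [h.verts] at this
        rw [hGV]
        exact this.resolve_left hxw
      have e1 : DH.pt x = f.pt x := ptn hxw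
      rw [e1]
      by_cases hwA : w ∈ A
      · exact Kw hwA (regK A (hCreg _ (hSpt x hxG A hx)))
      · exact Kn hwA (hSpt x hxG A hx)
  have Karc : ∀ A, A ⊆ H.vertexSet → ∀ {e x y}, H.IsLink e x y → x ∈ A → y ∈ A →
      ∀ s, DH.arc e x y s ∈ K A := by
    intro A hA e x y hl hx hy s
    change arcH e x y s ∈ K A
    rcases hcase hl with ⟨h2, h3, h4, h5, h6⟩ | ⟨i, rfl, ⟨rfl, rfl⟩ | ⟨rfl, rfl⟩⟩
    · rw [h5]
      by_cases hwA : w ∈ A
      · exact Kw hwA (regK A (hCreg _ (hSarc h2 A hx hy s)))
      · exact Kn hwA (hSarc h2 A hx hy s)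
    · rw [arc1]
      exact Kw hx (spK i hy s)
    · rw [arc2 _ _ _ _ (h.n_ne i)]
      exact Kw hy (spK i hx _)
  have hconv : ∀ {x y} (p : Walk H x y), w ∉ p.support →
      ∃ p' : Walk Gm x y, p'.support = p.support ∧ ∀ s, D.hol p' s = DH.hol p s := by
    intro x y p hp
    refine conv DH D w ?_ ?_ ?_ p hp
    · intro e x y hl hx hy
      rcases hcase hl with ⟨h2, -⟩ | ⟨i, rfl, ⟨h3, -⟩ | ⟨-, h3⟩⟩
      · exact h2
      · exact absurd h3 hx
      · exact absurd h3 hy
    · exact fun x hx => ptn hx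
    · intro e x y hl hx hy
      rcases hcase hl with ⟨-, -, -, h2, -⟩ | ⟨i, rfl, ⟨h3, -⟩ | ⟨-, h3⟩⟩
      · exact h2
      · exact absurd h3 hx
      · exact absurd h3 hy
  refine assemble DH K ?_ Kpt Karc ?_
  · intro A B hA hB hAB
    rw [Set.disjoint_left]
    rintro z ⟨hz1, hz2⟩ ⟨hz3, hz4⟩
    by_cases hwA : w ∈ A
    · have hwB : w ∉ B := fun h2 => Set.disjoint_left.1 hAB hwA h2
      exact hz1 hwA (Cc_mono _ (Set.disjoint_right.1 hAB) (hz4 hwB))
    · by_cases hwB : w ∈ B
      · exact hz3 hwB (Cc_mono _ (Set.disjoint_left.1 hAB) (hz2 hwA))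
      · exact far hAB (hCreg _ (hz2 hwA)) (hCreg _ (hz4 hwB))
  · intro x c hc hcV
    have hxV : x ∈ H.vertexSet := hcV c.start_mem_support
    by_cases hwc : w ∈ c.support
    · -- the cycle through the new vertex
      obtain ⟨A, hAdef⟩ : ∃ A : Set α, A = {u | u ∈ c.support} := ⟨_, rfl⟩
      rw [← hAdef] at hcV ⊢
      have hcA : ∀ u ∈ c.support, u ∈ A := fun u hu => hAdef ▸ hu
      have hwA : w ∈ A := hcA w hwc
      obtain ⟨b1, b2, rfl⟩ := c.exists_append_of_mem hwc
      have hs1 : ∀ u ∈ b1.support, u ∈ A := by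
        intro u hu
        exact hcA u (by rw [Walk.support_append]; simp [hu])
      have hs2 : ∀ u ∈ b2.support, u ∈ A := by
        intro u hu
        rw [Walk.support_eq_cons, List.mem_cons] at hu
        rcases hu with rfl | hu
        · exact hwA
        · exact hcA u (by rw [Walk.support_append]; simp [hu])
      have hcyc : (b2.append b1).IsCycle := by
        obtain ⟨h1, h2, h3⟩ := hc
        refine ⟨?_, ?_, ?_⟩
        · rw [Walk.edges_append] at h1 ⊢
          intro h4
          rw [List.append_eq_nil_iff] at h4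
          exact h1 (by rw [h4.1, h4.2]; rfl)
        · rw [Walk.edges_append] at h2 ⊢
          exact List.nodup_append_comm.1 h2
        · rw [Walk.support_append, Walk.support_eq_cons, List.cons_append, List.tail_cons] at h3 ⊢
          exact List.nodup_append_comm.1 h3
      have Kpt' : ∀ u ∈ A, u ∈ H.vertexSet → DH.pt u ∈ K A := fun u hu _ => Kpt A hcV u hu
      have Karc' : ∀ {e x y}, H.IsLink e x y → x ∈ A → y ∈ A → ∀ t, DH.arc e x y t ∈ K A :=
        fun hl hx hy t => Karc A hcV hl hx hy t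
      have hwV' : w ∈ H.vertexSet := hcV hwA
      refine (hol_append' DH Kpt' Karc' b1 b2 hxV hs1 hs2).trans ?_
      refine HomIn.rotate (hol_mem' DH Kpt' Karc' b2 hwV' hs2)
        (hol_mem' DH Kpt' Karc' b1 hxV hs1) ?_
      refine (hol_append' DH Kpt' Karc' b2 b1 hwV' hs2 hs1).symm.trans ?_
      have hrA : ∀ u ∈ (b2.append b1).support, u ∈ A := by
        intro u hu
        rw [Walk.support_append, List.mem_append] at hu
        rcases hu with hu | hu
        · exact hs2 u hu
        · exact hs1 u (List.mem_of_mem_tail hu)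
      clear hc hcA hAdef hwc hs1 hs2
      revert hcyc hrA
      generalize b2.append b1 = r
      intro hcyc hrA
      cases r with
      | nil _ => exact absurd rfl hcyc.1
      | @cons _ y _ e he p =>
        rw [Walk.isCycle_cons] at hcyc
        have hpA : ∀ u ∈ p.support, u ∈ A := fun u hu => hrA u (by simp [Walk.support, hu])
        rcases hcase he with ⟨-, h3, -⟩ | ⟨i, rfl, h3⟩
        · exact absurd rfl h3
        have hy : y = n i := by
          rcases h3 with h3 | h3
          · exact h3.2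
          · exact absurd h3.1.symm (h.n_ne i)
        subst hy
        obtain ⟨z, q, e', he', rfl, hwq⟩ := split_last p hcyc.2 (h.n_ne i)
        rcases hcase he' with ⟨-, -, h3, -⟩ | ⟨j, rfl, h4⟩
        · exact absurd rfl h3
        have hz : z = n j := by
          rcases h4 with h4 | h4
          · exact absurd h4.2.symm (h.n_ne j)
          · exact h4.1
        subst hz
        have hij : i ≠ j := by
          rintro rfl
          exact hcyc.1 (by rw [Walk.edges_append]; simp [Walk.edges])
        have hqA : ∀ u ∈ q.support, u ∈ A := fun u hu => hpA u (by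
          rw [Walk.support_append]
          simp [hu])
        have hniA : n i ∈ A := hqA _ q.start_mem_support
        have hnjA : n j ∈ A := hqA _ q.end_mem_support
        obtain ⟨q', hq's, hq'⟩ := hconv q hwq
        have hq'A : ∀ u ∈ q'.support, u ∈ A := fun u hu => hqA u (hq's ▸ hu)
        obtain ⟨e'', l, hl⟩ := hrel i j hij
        -- the walk `q'` is homotopic to the edge of the triangle
        have k1 : HomIn (reg f δ A) (D.hol q') (f.path l) := by
          obtain ⟨v, hvA, hv⟩ := push f (reg f δ) (big_sub_reg f hδ) (fun _ _ => reg_mono f _) D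
            id (fun x => Path.refl (f.pt x))
            (fun x hx t => big_sub_reg f hδ _ (pt_mem_big f (hGV ▸ hx) rfl)) (by
              intro e x y hl
              refine ⟨e, (hGl.1 hl).2, (hhom hl (hGl.1 hl).2).trans (homIn_conj_const
                (fun _ => rfl) (fun _ => rfl) (fun _ => rfl) ?_)⟩
              exact fun t => big_sub_reg f hδ _ (path_mem_big f (hGl.1 hl).2 (by simp)
                (by simp) t)) q' (hGV ▸ h.n_mem i) hq'A
          rw [Set.image_id] at hvA hv
          have mv : ∀ t, f.hol v t ∈ reg f δ A := fun t =>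
            big_sub_reg f hδ _ (walk_mem_big f v (h.n_mem i) hvA t)
          refine hv.trans ?_
          refine (homIn_conj_const (fun _ => rfl) (fun _ => rfl) (fun _ => rfl) mv).symm.trans ?_
          refine ((hol_unique f v (.cons e'' l (.nil _)) (h.n_mem i) hvA ?_).mono
            (big_sub_reg f hδ A)).trans (homIn_trans_refl ?_)
          · intro u hu
            simp only [Walk.support, List.mem_cons, List.not_mem_nil, or_false] at hu
            rcases hu with rfl | rfl
            · exact hniA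
            · exact hnjA
          · exact fun t => big_sub_reg f hδ _ (path_mem_big f l hniA hnjA t)
        have k2 : HomIn (Cc S Aᶜ)ᶜ ((sp i).trans (D.hol q')) (sp j) := by
          refine ((HomIn.refl (spK i hniA)).hcomp (k1.mono (regK A))).trans (hl.mono ?_)
          intro z hz hz'
          refine hz (Cc_mono _ ?_ hz')
          rintro u hu (rfl | rfl)
          · exact hu hniA
          · exact hu hnjA
        have mq : ∀ s, D.hol q' s ∈ (Cc S Aᶜ)ᶜ := fun s => regK A (k1.left_mem s)
        have msj : ∀ s, (sp j).symm s ∈ (Cc S Aᶜ)ᶜ := fun s => spK j hnjA _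
        have k3 : HomIn (Cc S Aᶜ)ᶜ ((sp i).trans ((D.hol q').trans (sp j).symm))
            (Path.refl w0) :=
          (homIn_assoc (spK i hniA) mq msj).symm.trans
            ((k2.hcomp (HomIn.refl msj)).trans (homIn_trans_symm (spK j hnjA)))
        have k4 : HomIn (K A) ((DH.path he).trans ((DH.hol q).trans (DH.path he')))
            (Path.refl (DH.pt w)) := by
          refine (k3.mono (Kw hwA)).congr (fun s => ?_) (fun s => ?_)
          · refine trans_congr (fun s => ?_) (fun s => trans_congr (fun s => (hq' s).symm)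
              (fun s => ?_) s) s
            · change arcH (t i) w (n i) s = _
              rw [arc1]
            · change arcH (t j) (n j) w s = _
              rw [arc2 _ _ _ _ (h.n_ne j)]
              rfl
          · change ptH w = w0
            exact ptw
        refine HomIn.trans ?_ k4
        have mi : ∀ s, DH.path he s ∈ K A := fun s => Karc A hcV he hwA hniA s
        have mj : ∀ s, DH.path he' s ∈ K A := fun s => Karc A hcV he' hnjA hwA s
        have hniV : n i ∈ H.vertexSet := he.right_mem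
        refine (HomIn.refl mi).hcomp ?_
        refine (hol_append' DH Kpt' Karc' q _ hniV hqA ?_).trans ?_
        · intro u hu
          simp only [Walk.support, List.mem_cons, List.not_mem_nil, or_false] at hu
          rcases hu with rfl | rfl
          · exact hnjA
          · exact hwA
        · exact (HomIn.refl (hol_mem' DH Kpt' Karc' q hniV hqA)).hcomp (homIn_trans_refl mj)
    · -- a cycle of the old graph
      obtain ⟨c', hc's, hc'⟩ := hconv c hwc
      have hxw : x ≠ w := by
        rintro rfl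
        exact hwc c.start_mem_support
      have hxG : x ∈ Gm.vertexSet := by
        rw [h.verts] at hxV
        rw [hGV]
        exact hxV.resolve_left hxw
      have h2 := hnull {u | u ∈ c.support} c' hxG (fun u hu => hc's ▸ hu)
      refine (h2.mono (Kn hwc)).congr (fun s => (hc' s).symm) (fun s => ?_)
      exact ptn hxw

end Core

end H95F
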