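import Pool.Agent.Lib.H95G.VK

/-!
# The lemma of van Kampen type

MP_7f673e_co.
-/

set_option linter.unusedSectionVars false

open scoped unitInterval Topology
open Set Metric

namespace H95F

section Convex

theorem homIn_convex {V : Type*} [NormedAddCommGroup V] [NormedSpace ℝ V] {C : Set V}
    (hC : Convex ℝ C) {x y : V} {p q : Path x y} (hp : ∀ t, p t ∈ C) (hq : ∀ t, q t ∈ C) :
    HomIn C p q :=
  homIn_line fun t _ hs => hC.add_smul_sub_mem (hp t) (hq t) hs

/-- the straight path -/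
noncomputable def segp {V : Type*} [NormedAddCommGroup V] [NormedSpace ℝ V] (x y : V) :
    Path x y :=
  ⟨⟨fun t : I => x + (t : ℝ) • (y - x), by fun_prop⟩, by simp, by simp⟩

theorem segp_mem {V : Type*} [NormedAddCommGroup V] [NormedSpace ℝ V] {C : Set V}
    (hC : Convex ℝ C) {x y : V} (hx : x ∈ C) (hy : y ∈ C) (t : I) : segp x y t ∈ C :=
  hC.add_smul_sub_mem hx hy t.2

theorem HomIn.map' {Y Z : Type*} [TopologicalSpace Y] [TopologicalSpace Z] {C : Set Y} {S : Set Z}
    {F : Y → Z} (hF : Continuous F) (hCS : ∀ z ∈ C, F z ∈ S) {x y : Y} {p q : Path x y}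
    (h : HomIn C p q) : HomIn S (p.map hF) (q.map hF) := by
  obtain ⟨H, hH⟩ := h
  refine ⟨{ toFun := fun st => F (H st)
            continuous_toFun := hF.comp H.continuous
            map_zero_left := fun t => by simp
            map_one_left := fun t => by simp
            prop' := ?_ }, fun st => hCS _ (hH st)⟩
  intro s t ht
  rcases ht with rfl | ht
  · simp
  · rw [Set.mem_singleton_iff] at ht
    subst ht
    simp

end Convex

section VK

variable {Z : Type*} [TopologicalSpace Z] {X1 X2 : Set Z}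

/-- pushing an edge -/
theorem edge_push
    (E1 : ∀ {x y : Z} (p : Path x y), (∀ t, p t ∈ X1) → x ∈ X1 ∩ X2 → y ∈ X1 ∩ X2 →
      ∃ q : Path x y, (∀ t, q t ∈ X1 ∩ X2) ∧ HomIn X1 p q)
    (E2 : ∀ {x y : Z} (p : Path x y), (∀ t, p t ∈ X2) → x ∈ X1 ∩ X2 → y ∈ X1 ∩ X2 →
      ∃ q : Path x y, (∀ t, q t ∈ X1 ∩ X2) ∧ HomIn X2 p q)
    {z z' P P' : Z} (e : Path z z') (s : Path z P) (s' : Path z' P')
    (hP : P ∈ X1 ∩ X2) (hP' : P' ∈ X1 ∩ X2)
    (hs : ∀ t, (z ∈ X1 → s t ∈ X1) ∧ (z ∈ X2 → s t ∈ X2))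
    (hs' : ∀ t, (z' ∈ X1 → s' t ∈ X1) ∧ (z' ∈ X2 → s' t ∈ X2))
    (he : (∀ t, e t ∈ X1) ∨ (∀ t, e t ∈ X2)) :
    ∃ h : Path P P', (∀ t, h t ∈ X1 ∩ X2) ∧
      ((∀ t, e t ∈ X1) → HomIn X1 h (s.symm.trans (e.trans s'))) ∧
      ((∀ t, e t ∈ X2) → HomIn X2 h (s.symm.trans (e.trans s'))) := by
  have m1 : (∀ t, e t ∈ X1) → ∀ t, (s.symm.trans (e.trans s')) t ∈ X1 := by
    intro h
    have hz : z ∈ X1 := by simpa using h 0
    have hz' : z' ∈ X1 := by simpa using h 1
    exact trans_mem (fun t => (hs _).1 hz) (trans_mem h (fun t => (hs' t).1 hz'))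
  have m2 : (∀ t, e t ∈ X2) → ∀ t, (s.symm.trans (e.trans s')) t ∈ X2 := by
    intro h
    have hz : z ∈ X2 := by simpa using h 0
    have hz' : z' ∈ X2 := by simpa using h 1
    exact trans_mem (fun t => (hs _).2 hz) (trans_mem h (fun t => (hs' t).2 hz'))
  by_cases a1 : ∀ t, e t ∈ X1
  · by_cases a2 : ∀ t, e t ∈ X2
    · exact ⟨s.symm.trans (e.trans s'), fun t => ⟨m1 a1 t, m2 a2 t⟩,
        fun _ => HomIn.refl (m1 a1), fun _ => HomIn.refl (m2 a2)⟩
    · obtain ⟨q, hq, hq1⟩ := E1 _ (m1 a1) hP hP'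
      exact ⟨q, hq, fun _ => hq1.symm, fun h => absurd h a2⟩
  · obtain ⟨q, hq, hq2⟩ := E2 _ (m2 (he.resolve_left a1)) hP hP'
    exact ⟨q, hq, fun h => absurd h a1, fun _ => hq2.symm⟩

theorem vk (h1 : IsOpen X1) (h2 : IsOpen X2)
    (N1 : ∀ z, z ∈ X1 ∪ X2 → ∃ P, P ∈ X1 ∩ X2 ∧ ∃ s : Path z P,
      ∀ t, (z ∈ X1 → s t ∈ X1) ∧ (z ∈ X2 → s t ∈ X2))
    (E1 : ∀ {x y : Z} (p : Path x y), (∀ t, p t ∈ X1) → x ∈ X1 ∩ X2 → y ∈ X1 ∩ X2 →
      ∃ q : Path x y, (∀ t, q t ∈ X1 ∩ X2) ∧ HomIn X1 p q)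
    (E2 : ∀ {x y : Z} (p : Path x y), (∀ t, p t ∈ X2) → x ∈ X1 ∩ X2 → y ∈ X1 ∩ X2 →
      ∃ q : Path x y, (∀ t, q t ∈ X1 ∩ X2) ∧ HomIn X2 p q)
    {w : Z} (hw : w ∈ X1 ∩ X2) (μ : Path w w) (hμ : ∀ t, μ t ∈ X1)
    (h : HomIn (X1 ∪ X2) μ (Path.refl w)) :
    ∃ l : Path w w, (∀ t, l t ∈ X1 ∩ X2) ∧ HomIn X2 l (Path.refl w) ∧ HomIn X1 μ l := by
  obtain ⟨H, hH⟩ := h
  let pr : ℝ → I := projIcc 0 1 zero_le_one
  have hpr : Continuous pr := continuous_projIcc
  let F : ℝ × ℝ → Z := fun st => H (pr st.1, pr st.2)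
  have hF : Continuous F :=
    H.continuous.comp ((hpr.comp continuous_fst).prodMk (hpr.comp continuous_snd))
  have hFX : ∀ q, F q ∈ X1 ∪ X2 := fun q => hH _
  have pr0 : pr 0 = 0 := by simp [pr]
  have pr1 : pr 1 = 1 := by simp [pr]
  -- the grid
  obtain ⟨δ, hδ, hleb⟩ := lebesgue_number_lemma_of_metric (s := (univ : Set (I × I)))
    (c := fun b : Bool => H ⁻¹' (cond b X2 X1)) isCompact_univ (by
      rintro (_ | _)
      · exact h1.preimage H.continuous
      · exact h2.preimage H.continuous) (by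
      intro x _
      rcases hH x with hx | hx
      · exact Set.mem_iUnion.2 ⟨false, hx⟩
      · exact Set.mem_iUnion.2 ⟨true, hx⟩)
  obtain ⟨N, hN⟩ := exists_nat_one_div_lt hδ
  let M : ℕ := N + 1
  have hM : (0 : ℝ) < M := by positivity
  have hMδ : 1 / (M : ℝ) < δ := by
    have : (M : ℝ) = (N : ℝ) + 1 := by simp [M]
    rw [this]
    exact hN
  let n : ℕ → ℕ → ℝ × ℝ := fun i k => ((i : ℝ) / M, (k : ℝ) / M)
  let cell : ℕ → ℕ → Set (ℝ × ℝ) := fun i k =>
    Icc ((i : ℝ) / M) (((i + 1 : ℕ) : ℝ) / M) ×ˢ Icc ((k : ℝ) / M) (((k + 1 : ℕ) : ℝ) / M)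
  have hconv : ∀ i k, Convex ℝ (cell i k) := fun i k => (convex_Icc _ _).prod (convex_Icc _ _)
  have hle : ∀ i : ℕ, (i : ℝ) / M ≤ ((i + 1 : ℕ) : ℝ) / M := by
    intro i
    push_cast
    gcongr
    linarith
  have c00 : ∀ i k, n i k ∈ cell i k := fun i k => ⟨⟨le_rfl, hle i⟩, ⟨le_rfl, hle k⟩⟩
  have c01 : ∀ i k, n i (k + 1) ∈ cell i k := fun i k => ⟨⟨le_rfl, hle i⟩, ⟨hle k, le_rfl⟩⟩
  have c10 : ∀ i k, n (i + 1) k ∈ cell i k := fun i k => ⟨⟨hle i, le_rfl⟩, ⟨le_rfl, hle k⟩⟩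
  have c11 : ∀ i k, n (i + 1) (k + 1) ∈ cell i k := fun i k =>
    ⟨⟨hle i, le_rfl⟩, ⟨hle k, le_rfl⟩⟩
  have hdist : ∀ (i : ℕ) (a : ℝ), a ∈ Icc ((i : ℝ) / M) (((i + 1 : ℕ) : ℝ) / M) →
      dist (pr a) (pr ((i : ℝ) / M)) < δ := by
    intro i a ha
    have h3 : dist (pr a) (pr ((i : ℝ) / M)) ≤ dist a ((i : ℝ) / M) := by
      have := (LipschitzWith.projIcc (zero_le_one' ℝ)).dist_le_mul a ((i : ℝ) / M)
      simpa using this
    have h4 : dist a ((i : ℝ) / M) ≤ 1 / M := by
      rw [Real.dist_eq, abs_of_nonneg (by linarith [ha.1])]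
      have : ((i + 1 : ℕ) : ℝ) / M = (i : ℝ) / M + 1 / M := by
        push_cast
        ring
      linarith [ha.2]
    linarith
  have hcell : ∀ i k, (∀ q ∈ cell i k, F q ∈ X1) ∨ (∀ q ∈ cell i k, F q ∈ X2) := by
    intro i k
    obtain ⟨b, hb⟩ := hleb (pr ((i : ℝ) / M), pr ((k : ℝ) / M)) trivial
    have key : ∀ q ∈ cell i k, F q ∈ (cond b X2 X1) := by
      rintro ⟨a, c⟩ ⟨ha, hc⟩
      have h5 : ((pr a, pr c) : I × I) ∈ ball (pr ((i : ℝ) / M), pr ((k : ℝ) / M)) δ := by
        rw [mem_ball, Prod.dist_eq]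
        exact max_lt (hdist i a ha) (hdist k c hc)
      exact hb h5
    cases b
    · exact Or.inl key
    · exact Or.inr key
  -- the nodes and edges
  choose P hP s hs using fun i k => N1 (F (n i k)) (hFX _)
  let eh : ∀ i k, Path (F (n i k)) (F (n i (k + 1))) := fun i k =>
    (segp (n i k) (n i (k + 1))).map hF
  let ev : ∀ i k, Path (F (n i k)) (F (n (i + 1) k)) := fun i k =>
    (segp (n i k) (n (i + 1) k)).map hF
  have heh : ∀ i k, (∀ t, eh i k t ∈ X1) ∨ (∀ t, eh i k t ∈ X2) := by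
    intro i k
    rcases hcell i k with hc | hc
    · exact Or.inl fun t => hc _ (segp_mem (hconv i k) (c00 i k) (c01 i k) t)
    · exact Or.inr fun t => hc _ (segp_mem (hconv i k) (c00 i k) (c01 i k) t)
  have hev : ∀ i k, (∀ t, ev i k t ∈ X1) ∨ (∀ t, ev i k t ∈ X2) := by
    intro i k
    rcases hcell i k with hc | hc
    · exact Or.inl fun t => hc _ (segp_mem (hconv i k) (c00 i k) (c10 i k) t)
    · exact Or.inr fun t => hc _ (segp_mem (hconv i k) (c00 i k) (c10 i k) t)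
  choose g hg hg1 hg2 using fun i k => edge_push E1 E2 (eh i k) (s i k) (s i (k + 1)) (hP i k)
    (hP i (k + 1)) (hs i k) (hs i (k + 1)) (heh i k)
  choose v hv hv1 hv2 using fun i k => edge_push E1 E2 (ev i k) (s i k) (s (i + 1) k) (hP i k)
    (hP (i + 1) k) (hs i k) (hs (i + 1) k) (hev i k)
  -- the squares
  have hsquare : ∀ (X : Set Z) (i k : ℕ), (∀ q ∈ cell i k, F q ∈ X) →
      (∀ i k t, F (n i k) ∈ X → s i k t ∈ X) →
      ((∀ t, eh i k t ∈ X) → HomIn X (g i k) ((s i k).symm.trans ((eh i k).trans (s i (k + 1))))) →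
      ((∀ t, ev i (k + 1) t ∈ X) → HomIn X (v i (k + 1))
        ((s i (k + 1)).symm.trans ((ev i (k + 1)).trans (s (i + 1) (k + 1))))) →
      ((∀ t, ev i k t ∈ X) → HomIn X (v i k) ((s i k).symm.trans ((ev i k).trans (s (i + 1) k)))) →
      ((∀ t, eh (i + 1) k t ∈ X) → HomIn X (g (i + 1) k)
        ((s (i + 1) k).symm.trans ((eh (i + 1) k).trans (s (i + 1) (k + 1))))) →
      HomIn X ((g i k).trans (v i (k + 1))) ((v i k).trans (g (i + 1) k)) := by
    intro X i k hX hsX a1 a2 a3 a4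
    have m1 : ∀ t, eh i k t ∈ X := fun t => hX _ (segp_mem (hconv i k) (c00 i k) (c01 i k) t)
    have m2 : ∀ t, ev i (k + 1) t ∈ X := fun t =>
      hX _ (segp_mem (hconv i k) (c01 i k) (c11 i k) t)
    have m3 : ∀ t, ev i k t ∈ X := fun t => hX _ (segp_mem (hconv i k) (c00 i k) (c10 i k) t)
    have m4 : ∀ t, eh (i + 1) k t ∈ X := fun t =>
      hX _ (segp_mem (hconv i k) (c10 i k) (c11 i k) t)
    have s1 := fun t => hsX i k t (hX _ (c00 i k))
    have s2 := fun t => hsX i (k + 1) t (hX _ (c01 i k))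
    have s3 := fun t => hsX (i + 1) k t (hX _ (c10 i k))
    have s4 := fun t => hsX (i + 1) (k + 1) t (hX _ (c11 i k))
    have b1 := ((a1 m1).hcomp (a2 m2)).trans (homIn_conj_trans s1 s2 s4 m1 m2)
    have b2 := ((a3 m3).hcomp (a4 m4)).trans (homIn_conj_trans s1 s3 s4 m3 m4)
    have b3 : HomIn X ((eh i k).trans (ev i (k + 1))) ((ev i k).trans (eh (i + 1) k)) := by
      have := HomIn.map' hF hX (homIn_convex (hconv i k)
        (p := (segp (n i k) (n i (k + 1))).trans (segp (n i (k + 1)) (n (i + 1) (k + 1))))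
        (q := (segp (n i k) (n (i + 1) k)).trans (segp (n (i + 1) k) (n (i + 1) (k + 1))))
        (trans_mem (segp_mem (hconv i k) (c00 i k) (c01 i k))
          (segp_mem (hconv i k) (c01 i k) (c11 i k)))
        (trans_mem (segp_mem (hconv i k) (c00 i k) (c10 i k))
          (segp_mem (hconv i k) (c10 i k) (c11 i k))))
      rw [Path.map_trans, Path.map_trans] at this
      exact this
    have s1' : ∀ t, (s i k).symm t ∈ X := fun t => s1 _
    exact b1.trans (((HomIn.refl s1').hcomp (b3.hcomp (HomIn.refl s4))).trans b2.symm)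
  have hsq : ∀ i k, Rel X1 X2 ((g i k).trans (v i (k + 1))) ((v i k).trans (g (i + 1) k)) := by
    intro i k
    rcases hcell i k with hc | hc
    · exact rel_one (hP i k) (hsquare X1 i k hc (fun i k t h => (hs i k t).1 h) (hg1 i k)
        (hv1 i (k + 1)) (hv1 i k) (hg1 (i + 1) k))
    · exact rel_two (trans_mem (hg i k) (hv i (k + 1))) (trans_mem (hv i k) (hg (i + 1) k))
        (hsquare X2 i k hc (fun i k t h => (hs i k t).2 h) (hg2 i k)
        (hv2 i (k + 1)) (hv2 i k) (hg2 (i + 1) k))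
  have G := grid g v hg hv hsq M M
  -- boundary values
  have hdiv : (M : ℝ) / M = 1 := div_self hM.ne'
  have F0 : ∀ a, F (0, a) = μ (pr a) := by
    intro a
    simp only [F, pr0]
    exact H.apply_zero _
  have F1 : ∀ a, F (1, a) = w := by
    intro a
    simp only [F, pr1]
    exact H.apply_one _
  have FL : ∀ a, F (a, 0) = w := by
    intro a
    simp only [F, pr0]
    exact Path.Homotopy.source H _
  have FR : ∀ a, F (a, 1) = w := by
    intro a
    simp only [F, pr1]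
    exact Path.Homotopy.target H _
  have er0 : ∀ k t, eh 0 k t ∈ X1 := by
    intro k t
    have h3 : eh 0 k t = F (0, (segp (n 0 k) (n 0 (k + 1)) t).2) := by
      change F (segp (n 0 k) (n 0 (k + 1)) t) = _
      congr 1
      ext
      · simp [segp, n]
      · rfl
    rw [h3, F0]
    exact hμ _
  have ec0 : ∀ i t, ev i 0 t = w := by
    intro i t
    have h3 : ev i 0 t = F ((segp (n i 0) (n (i + 1) 0) t).1, 0) := by
      change F (segp (n i 0) (n (i + 1) 0) t) = _
      congr 1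
      ext
      · rfl
      · simp [segp, n]
    rw [h3, FL]
  have ecM : ∀ i t, ev i M t = w := by
    intro i t
    have h3 : ev i M t = F ((segp (n i M) (n (i + 1) M) t).1, 1) := by
      change F (segp (n i M) (n (i + 1) M) t) = _
      congr 1
      ext
      · rfl
      · simp [segp, n, hdiv]
    rw [h3, FR]
  have erM : ∀ k t, eh M k t = w := by
    intro k t
    have h3 : eh M k t = F (1, (segp (n M k) (n M (k + 1)) t).2) := by
      change F (segp (n M k) (n M (k + 1)) t) = _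
      congr 1
      ext
      · simp [segp, n, hdiv]
      · rfl
    rw [h3, F1]
  have n00 : F (n 0 0) = w := by
    have : n 0 0 = (0, 0) := by simp [n]
    rw [this, FL]
  have n0M : F (n 0 M) = w := by
    have : n 0 M = (0, 1) := by simp [n, hdiv]
    rw [this, FR]
  have nMM : F (n M M) = w := by
    have : n M M = (1, 1) := by simp [n, hdiv]
    rw [this, FR]
  -- ladders in `X1`
  have hsX1 : ∀ i k, F (n i k) ∈ X1 → ∀ t, s i k t ∈ X1 := fun i k h t => (hs i k t).1 h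
  have r0X : ∀ k, F (n 0 k) ∈ X1 := fun k => by simpa using er0 k 0
  have c0X : ∀ i, F (n i 0) ∈ X1 := fun i => by
    have := ec0 i 0
    rw [Path.source] at this
    rw [this]; exact hw.1
  have cMX : ∀ i, F (n i M) ∈ X1 := fun i => by
    have := ecM i 0
    rw [Path.source] at this
    rw [this]; exact hw.1
  have rMX : ∀ k, F (n M k) ∈ X1 := fun k => by
    have := erM k 0
    rw [Path.source] at this
    rw [this]; exact hw.1
  have L1 := ladder (X := X1) (fun k => s 0 k) (fun k => eh 0 k) (fun k => g 0 k)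
    (fun k => hsX1 0 k (r0X k)) er0 (fun k => hg1 0 k (er0 k)) M
  have L2 := ladder (X := X1) (fun i => s i 0) (fun i => ev i 0) (fun i => v i 0)
    (fun i => hsX1 i 0 (c0X i)) (fun i t => by rw [ec0]; exact hw.1)
    (fun i => hv1 i 0 (fun t => by rw [ec0]; exact hw.1)) M
  have L3 := ladder (X := X1) (fun i => s i M) (fun i => ev i M) (fun i => v i M)
    (fun i => hsX1 i M (cMX i)) (fun i t => by rw [ecM]; exact hw.1)
    (fun i => hv1 i M (fun t => by rw [ecM]; exact hw.1)) M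
  have L4 := ladder (X := X1) (fun k => s M k) (fun k => eh M k) (fun k => g M k)
    (fun k => hsX1 M k (rMX k)) (fun k t => by rw [erM]; exact hw.1)
    (fun k => hg1 M k (fun t => by rw [erM]; exact hw.1)) M
  revert L1 L2 L3 L4 G
  -- names for the eight paths
  generalize hA : cat (P := fun k => F (n 0 k)) (fun k => eh 0 k) M = A
  generalize hB : cat (P := fun i => F (n i 0)) (fun i => ev i 0) M = B
  generalize hC : cat (P := fun i => F (n i M)) (fun i => ev i M) M = C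
  generalize hD : cat (P := fun k => F (n M k)) (fun k => eh M k) M = D
  intro G L1 L2 L3 L4
  have mg : ∀ i k t, g i k t ∈ X1 := fun i k t => (hg i k t).1
  have mv : ∀ i k t, v i k t ∈ X1 := fun i k t => (hv i k t).1
  have mA : ∀ t, A t ∈ X1 := by
    rw [← hA]; exact cat_mem (P := fun k => F (n 0 k)) er0 M
  have mB : ∀ t, B t = w := by
    rw [← hB]; exact cat_mem (P := fun i => F (n i 0)) (S := {w}) ec0 M
  have mC : ∀ t, C t = w := by
    rw [← hC]; exact cat_mem (P := fun i => F (n i M)) (S := {w}) ecM M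
  have mD : ∀ t, D t = w := by
    rw [← hD]; exact cat_mem (P := fun k => F (n M k)) (S := {w}) erM M
  have mB' : ∀ t, B t ∈ X1 := fun t => by rw [mB]; exact hw.1
  have mC' : ∀ t, C t ∈ X1 := fun t => by rw [mC]; exact hw.1
  have mD' : ∀ t, D t ∈ X1 := fun t => by rw [mD]; exact hw.1
  have gr0 := cat_mem (P := fun k => P 0 k) (h := fun k => g 0 k) (mg 0) M
  have grM := cat_mem (P := fun k => P M k) (h := fun k => g M k) (mg M) M
  have vc0 := cat_mem (P := fun i => P i 0) (h := fun i => v i 0) (fun i => mv i 0) M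
  have vcM := cat_mem (P := fun i => P i M) (h := fun i => v i M) (fun i => mv i M) M
  have s00 : ∀ t, s 0 0 t ∈ X1 ∩ X2 := fun t =>
    ⟨(hs 0 0 t).1 (by rw [n00]; exact hw.1), (hs 0 0 t).2 (by rw [n00]; exact hw.2)⟩
  have s00' : ∀ t, s 0 0 t ∈ X1 := fun t => (s00 t).1
  have s0M : ∀ t, s 0 M t ∈ X1 := hsX1 0 M (r0X M)
  have sM0 : ∀ t, s M 0 t ∈ X1 := hsX1 M 0 (c0X M)
  have sMM : ∀ t, s M M t ∈ X1 := hsX1 M M (cMX M)
  have sMM' : ∀ t, (s M M).symm t ∈ X1 := fun t => sMM _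
  have t1 : HomIn X1 ((s 0 0).trans ((cat (g 0) M).trans
      (cat (P := fun i => P i M) (fun i => v i M) M))) ((A.trans C).trans (s M M)) := by
    refine (homIn_assoc s00' gr0 vcM).symm.trans ((L1.symm.hcomp (HomIn.refl vcM)).trans ?_)
    refine (homIn_assoc mA s0M vcM).trans (((HomIn.refl mA).hcomp L3.symm).trans ?_)
    exact (homIn_assoc mA mC' sMM).symm
  have t2 : HomIn X1 ((s 0 0).trans ((cat (P := fun i => P i 0) (fun i => v i 0) M).trans
      (cat (g M) M))) ((B.trans D).trans (s M M)) := by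
    refine (homIn_assoc s00' vc0 grM).symm.trans ((L2.symm.hcomp (HomIn.refl grM)).trans ?_)
    refine (homIn_assoc mB' sM0 grM).trans (((HomIn.refl mB').hcomp L4.symm).trans ?_)
    exact (homIn_assoc mB' mD' sMM).symm
  have hw0 : F (n 0 0) ∈ X1 ∩ X2 := by rw [n00]; exact hw
  have G2 := G.left (r := s 0 0) (trans_mem vc0 grM) s00
  have G3 : Rel X1 X2 ((A.trans C).trans (s M M)) ((B.trans D).trans (s M M)) :=
    ((rel_one hw0 t1.symm).trans G2).trans (rel_one hw0 t2)
  have G4 := G3.right (s := (s M M).symm) (trans_mem (trans_mem mB' mD') sMM) sMM'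
  have canc : ∀ {x : Z} (p : Path x (F (n M M))), (∀ t, p t ∈ X1) →
      HomIn X1 ((p.trans (s M M)).trans (s M M).symm) p := by
    intro x p hp
    refine (homIn_assoc hp sMM sMM').trans (((HomIn.refl hp).hcomp (homIn_trans_symm sMM)).trans ?_)
    exact homIn_trans_refl hp
  have G5 : Rel X1 X2 (A.trans C) (B.trans D) :=
    ((rel_one hw0 (canc _ (trans_mem mA mC')).symm).trans G4).trans
      (rel_one hw0 (canc _ (trans_mem mB' mD')))
  obtain ⟨l, hl, hl2, hl1⟩ := G5
  -- the first row is `μ`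
  let μ' : Path (F (n 0 0)) (F (n 0 M)) := ⟨μ.toContinuousMap, by
    rw [n00]; exact μ.source, by rw [n0M]; exact μ.target⟩
  have hAμ : HomIn X1 A μ' := by
    have hc0 : Convex ℝ {q : ℝ × ℝ | q.1 = 0} := by
      have : {q : ℝ × ℝ | q.1 = 0} = (LinearMap.fst ℝ ℝ ℝ) ⁻¹' {0} := by
        ext q
        simp
      rw [this]
      exact (convex_singleton (0 : ℝ)).linear_preimage _
    have hX0 : ∀ q ∈ {q : ℝ × ℝ | q.1 = 0}, F q ∈ X1 := by
      rintro ⟨a, c⟩ ha
      have ha' : a = 0 := ha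
      subst ha'
      rw [F0]
      exact hμ _
    have hn0 : ∀ k, n 0 k ∈ {q : ℝ × ℝ | q.1 = 0} := fun k => by simp [n]
    have h3 := HomIn.map' hF hX0 (homIn_convex hc0
      (p := cat (P := fun k => n 0 k) (fun k => segp (n 0 k) (n 0 (k + 1))) M)
      (q := segp (n 0 0) (n 0 M))
      (cat_mem (P := fun k => n 0 k) (fun k => segp_mem hc0 (hn0 k) (hn0 (k + 1))) M)
      (segp_mem hc0 (hn0 0) (hn0 M)))
    rw [← cat_map] at h3
    rw [← hA]
    refine h3.congr (fun t => rfl) (fun t => ?_)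
    change μ t = F (segp (n 0 0) (n 0 M) t)
    have h4 : segp (n 0 0) (n 0 M) t = (0, (t : ℝ)) := by
      ext <;> simp [segp, n, hdiv]
    rw [h4, F0]
    simp [pr]
  let l' : Path w w := ⟨l.toContinuousMap, by rw [← n00]; exact l.source, by
    conv_rhs => rw [← n00]
    exact l.target⟩
  refine ⟨l', hl, hl2.congr (fun t => rfl) (fun t => ?_), ?_⟩
  · change w = F (n 0 0)
    exact n00.symm
  · have h3 : HomIn X1 (μ.trans (Path.refl w)) (l'.trans (Path.refl w)) := by
      refine (((hAμ.symm.hcomp (HomIn.refl mC')).trans hl1)).congr (fun t => ?_) (fun t => ?_)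
      · rw [Path.trans_apply, Path.trans_apply]
        split_ifs
        · rfl
        · rw [mC]; rfl
      · rw [Path.trans_apply, Path.trans_apply]
        split_ifs
        · rfl
        · change w = (B.trans D) _
          rw [Path.trans_apply]
          split_ifs
          · rw [mB]
          · rw [mD]
    exact (homIn_trans_refl hμ).symm.trans (h3.trans (homIn_trans_refl (fun t => (hl t).1)))

end VK

end H95F
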