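import Pool.Agent.Lib.H95G.Triple
import Pool.Agent.Lib.H95G.VK2

/-!
# The new vertex and its three arcs

MP_7f673e_co. The existence of the new vertex `w` of a Delta-Y transformation and of its three arcs.
-/

set_option linter.unusedSectionVars false

open scoped unitInterval Topology
open Set Metric Module

namespace H95F

section Cancel

variable {Z : Type*} [TopologicalSpace Z] {S : Set Z}

theorem homIn_cancel {x y z : Z} {p : Path x y} {q : Path z y} (hp : ∀ t, p t ∈ S)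
    (hq : ∀ t, q t ∈ S) : HomIn S ((p.trans q.symm).trans q) p := by
  have hqs : ∀ t, q.symm t ∈ S := fun t => hq _
  exact (homIn_assoc hp hqs hq).trans (((HomIn.refl hp).hcomp (homIn_symm_trans hq)).trans
    (homIn_trans_refl hp))

theorem homIn_cancel' {x y z u : Z} {p : Path x y} {a : Path y z} {q : Path u z}
    (hp : ∀ t, p t ∈ S) (ha : ∀ t, a t ∈ S) (hq : ∀ t, q t ∈ S) :
    HomIn S ((p.trans (a.trans q.symm)).trans q) (p.trans a) := by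
  have hqs : ∀ t, q.symm t ∈ S := fun t => hq _
  exact (homIn_assoc hp (trans_mem ha hqs) hq).trans
    ((HomIn.refl hp).hcomp (homIn_cancel ha hq))

/-- conjugates of null-homotopic loops are null-homotopic -/
theorem homIn_conj_null {w x y z : Z} {a : Path w x} {b : Path x y} {c : Path y z} {d : Path z x}
    (ha : ∀ t, a t ∈ S) (hb : ∀ t, b t ∈ S) (hc : ∀ t, c t ∈ S) (hd : ∀ t, d t ∈ S)
    (h : HomIn S (b.trans (c.trans d)) (Path.refl x)) :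
    HomIn S ((a.trans b).trans (c.trans (d.trans a.symm))) (Path.refl w) := by
  have has : ∀ t, a.symm t ∈ S := fun t => ha _
  have h1 := homIn_assoc ha hb (trans_mem hc (trans_mem hd has))
  have h2 : HomIn S (b.trans (c.trans (d.trans a.symm))) ((b.trans (c.trans d)).trans a.symm) :=
    ((HomIn.refl hb).hcomp (homIn_assoc hc hd has).symm).trans
      (homIn_assoc hb (trans_mem hc hd) has).symm
  have h3 : HomIn S (b.trans (c.trans (d.trans a.symm))) a.symm :=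
    h2.trans ((h.hcomp (HomIn.refl has)).trans (homIn_refl_trans has))
  exact h1.trans (((HomIn.refl ha).hcomp h3).trans (homIn_trans_symm ha))

end Cancel

variable {E : Type*} [NormedAddCommGroup E] [NormedSpace ℝ E] [FiniteDimensional ℝ E]

theorem exists_spokes (hd : 3 < finrank ℝ E) {S0 Sa Sb Sc S1 S2 S3 : Set E}
    (h0 : Small (ℝ × ℝ) S0) (ha : Small (ℝ × ℝ) Sa) (hb : Small (ℝ × ℝ) Sb)
    (hc : Small (ℝ × ℝ) Sc) (h1 : Small (ℝ × ℝ) S1) (h2 : Small (ℝ × ℝ) S2)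
    (h3 : Small (ℝ × ℝ) S3)
    (ha0 : Sa ⊆ S0) (hc0 : Sc ⊆ S0)
    (h1a : S1 ⊆ Sa) (h1c : S1 ⊆ Sc) (h2b : S2 ⊆ Sb) (h2c : S2 ⊆ Sc)
    (h3b : S3 ⊆ Sb) {pa pb pc : E} (hpa : pa ∉ Sa) (hpb : pb ∉ Sb) (hpc : pc ∉ Sc)
    (τab : Path pa pb) (τbc : Path pb pc) (τca : Path pc pa) (hab : ∀ t, τab t ∉ S3)
    (hbc : ∀ t, τbc t ∉ S2) (hca : ∀ t, τca t ∉ S1)
    (htri : HomIn (S1 ∩ S2)ᶜ (τab.trans (τbc.trans τca)) (Path.refl pa)) :
    ∃ w, w ∉ S0 ∧ ∃ (αa : Path w pa) (αb : Path w pb) (αc : Path w pc),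
      (∀ t, αa t ∉ Sa) ∧ (∀ t, αb t ∉ Sb) ∧ (∀ t, αc t ∉ Sc) ∧
      HomIn S3ᶜ (αa.trans τab) αb ∧ HomIn S2ᶜ (αb.trans τbc) αc ∧
      HomIn S1ᶜ (αc.trans τca) αa := by
  have o1 : IsOpen S1ᶜ := h1.1.isClosed.isOpen_compl
  have o2 : IsOpen S2ᶜ := h2.1.isClosed.isOpen_compl
  have o3 : IsOpen S3ᶜ := h3.1.isClosed.isOpen_compl
  have hd2 : 2 < finrank ℝ E := by omega
  have hW : 1 + finrank ℝ (ℝ × ℝ) < finrank ℝ E := by
    rw [finrank_prod, finrank_self]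
    omega
  have hX : (S1 ∩ S2)ᶜ = S1ᶜ ∪ S2ᶜ := Set.compl_inter _ _
  have x1 : S1ᶜ ⊆ (S1 ∩ S2)ᶜ := fun z hz h => hz h.1
  have x2 : S2ᶜ ⊆ (S1 ∩ S2)ᶜ := fun z hz h => hz h.2
  have hr : range (τab.trans (τbc.trans τca)) ⊆ (S1 ∩ S2)ᶜ := by
    rintro _ ⟨t, rfl⟩
    exact htri.left_mem t
  rw [Path.trans_range, Path.trans_range] at hr
  have mab : ∀ t, τab t ∈ (S1 ∩ S2)ᶜ := fun t => hr (Or.inl ⟨t, rfl⟩)
  have mbc : ∀ t, τbc t ∈ (S1 ∩ S2)ᶜ := fun t => x2 (hbc t)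
  have mca : ∀ t, τca t ∈ (S1 ∩ S2)ᶜ := fun t => x1 (hca t)
  obtain ⟨w, ρ, hρ, hw⟩ := exists_near_small hd2 hb.1.isClosed.isOpen_compl
    (show pb ∈ Sbᶜ from hpb) h0
  obtain ⟨αb, hαb⟩ : ∃ αb : Path w pb, ∀ t, αb t ∉ Sb := ⟨ρ.symm, fun t => hρ _⟩
  have hwa : w ∉ Sa := fun h => hw (ha0 h)
  have hwc : w ∉ Sc := fun h => hw (hc0 h)
  have hw1 : w ∉ S1 := fun h => hwa (h1a h)
  have hw2 : w ∉ S2 := fun h => hwc (h2c h)
  have b2 : ∀ t, αb t ∈ S2ᶜ := fun t h => hαb t (h2b h)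
  have b3 : ∀ t, αb t ∈ S3ᶜ := fun t h => hαb t (h3b h)
  -- the arc to `a`
  obtain ⟨αa, hαa, ra⟩ := pushPath hW (o3.inter (o1.union o2)) (αb.trans τab.symm)
    (trans_mem (S := S3ᶜ ∩ (S1ᶜ ∪ S2ᶜ)) (fun t => ⟨b3 t, Or.inr (b2 t)⟩)
      (fun t => ⟨hab _, hX ▸ mab _⟩)) ha hwa hpa
  -- a first arc to `c`
  obtain ⟨α0, hα0, r0⟩ := pushPath hW o2 (αb.trans τbc) (trans_mem b2 hbc) hc hwc hpc
  have a1 : ∀ t, αa t ∈ S1ᶜ := fun t h => (hαa t).2 (h1a h)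
  have c1 : ∀ t, α0 t ∈ S1ᶜ := fun t h => (hα0 t).2 (h1c h)
  have c2 : ∀ t, α0 t ∈ S2ᶜ := fun t h => (hα0 t).2 (h2c h)
  have c1s : ∀ t, α0.symm t ∈ S1ᶜ := fun t => c1 _
  have ca1s : ∀ t, τca.symm t ∈ S1ᶜ := fun t => hca _
  have hμ : ∀ t, (αa.trans (τca.symm.trans α0.symm)) t ∈ S1ᶜ :=
    trans_mem a1 (trans_mem ca1s c1s)
  have hμ0 : HomIn (S1ᶜ ∪ S2ᶜ) (αa.trans (τca.symm.trans α0.symm)) (Path.refl w) := by
    rw [← hX]
    have e1 : HomIn (S1 ∩ S2)ᶜ αa (αb.trans τab.symm) :=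
      ra.symm.mono (fun z hz => hX ▸ hz.2)
    have e2 : HomIn (S1 ∩ S2)ᶜ α0.symm (τbc.symm.trans αb.symm) := by
      have := (r0.symm.mono x2).symm₂
      rwa [Path.trans_symm] at this
    refine (e1.hcomp ((HomIn.refl (fun t => x1 (ca1s t))).hcomp e2)).trans ?_
    refine homIn_conj_null (fun t => x2 (b2 t)) (fun t => mab _) (fun t => mca _)
      (fun t => mbc _) ?_
    have e3 := htri.symm₂
    rw [Path.trans_symm, Path.trans_symm, Path.refl_symm] at e3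
    exact HomIn.rotate (trans_mem (fun t => mca _) (fun t => mbc _)) (fun t => mab _) e3
  -- van Kampen
  obtain ⟨l, hl, hl2, hl1⟩ := vk o1 o2 (by
      intro z hz
      by_cases z1 : z ∈ S1
      · have z2 : z ∈ S2ᶜ := hz.resolve_left (fun h => h z1)
        obtain ⟨y, s, hs, hy⟩ := exists_near_small hd2 o2 z2 (h1.union h2)
        exact ⟨y, ⟨fun h => hy (Or.inl h), fun h => hy (Or.inr h)⟩, s,
          fun t => ⟨fun h => absurd z1 h, fun _ => hs t⟩⟩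
      · by_cases z2 : z ∈ S2
        · obtain ⟨y, s, hs, hy⟩ := exists_near_small hd2 o1 (show z ∈ S1ᶜ from z1) (h1.union h2)
          exact ⟨y, ⟨fun h => hy (Or.inl h), fun h => hy (Or.inr h)⟩, s,
            fun t => ⟨fun _ => hs t, fun h => absurd z2 h⟩⟩
        · obtain ⟨y, s, hs, hy⟩ := exists_near_small hd2 (o1.inter o2)
            (show z ∈ S1ᶜ ∩ S2ᶜ from ⟨z1, z2⟩) (h1.union h2)
          exact ⟨y, ⟨fun h => hy (Or.inl h), fun h => hy (Or.inr h)⟩, s,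
            fun t => ⟨fun _ => (hs t).1, fun _ => (hs t).2⟩⟩)
    (by
      intro x y p hp hx hy
      obtain ⟨q, hq, hpq⟩ := pushPath hW o1 p hp h2 hx.2 hy.2
      exact ⟨q, fun t => ⟨(hq t).1, (hq t).2⟩, hpq⟩)
    (by
      intro x y p hp hx hy
      obtain ⟨q, hq, hpq⟩ := pushPath hW o2 p hp h1 hx.1 hy.1
      exact ⟨q, fun t => ⟨(hq t).2, (hq t).1⟩, hpq⟩)
    (w := w) ⟨hw1, hw2⟩ _ hμ hμ0
  obtain ⟨αc, hαc, rc⟩ := pushPath hW (o1.inter o2) (l.trans α0)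
    (trans_mem (S := S1ᶜ ∩ S2ᶜ) hl (fun t => ⟨c1 t, c2 t⟩)) hc hwc hpc
  refine ⟨w, hw, αa, αb, αc, fun t => (hαa t).2, hαb, fun t => (hαc t).2, ?_, ?_, ?_⟩
  · exact ((ra.symm.mono fun z hz => hz.1).hcomp (HomIn.refl hab)).trans (homIn_cancel b3 hab)
  · exact r0.trans ((homIn_refl_trans c2).symm.trans ((hl2.symm.hcomp (HomIn.refl c2)).trans
      (rc.mono fun z hz => hz.2)))
  · have e1 : HomIn S1ᶜ αc ((αa.trans (τca.symm.trans α0.symm)).trans α0) :=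
      (rc.symm.mono fun z hz => hz.1).trans (hl1.symm.hcomp (HomIn.refl c1))
    have e2 : HomIn S1ᶜ αc (αa.trans τca.symm) := e1.trans (homIn_cancel' a1 ca1s c1)
    exact (e2.hcomp (HomIn.refl hca)).trans (homIn_cancel a1 hca)

end H95F
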