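import Pool.Agent.Lib.H95G.DeltaY
import Pool.Agent.Lib.H95G.Spokes
import Pool.Agent.Lib.H95G.Closure

/-!
# Delta-Y transformations preserve almost embeddability

MP_7f673e_co.
-/

set_option linter.unusedSectionVars false

open scoped unitInterval Topology
open Set Metric Module

namespace H95F

variable {α β : Type*} {G H : Graph α β}
variable {E : Type*} [NormedAddCommGroup E] [NormedSpace ℝ E] [FiniteDimensional ℝ E]
variable {n : Fin 3 → α} {t : Fin 3 → β} {w : α}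

/-- the graph without the edges of the triangle -/
def minusEdges (G : Graph α β) (t : Fin 3 → β) : Graph α β where
  vertexSet := G.vertexSet
  IsLink e x y := (∀ i, e ≠ t i) ∧ G.IsLink e x y
  isLink_symm := fun _ _ => ⟨fun _ _ h => ⟨h.1, h.2.symm⟩⟩
  eq_or_eq_of_isLink_of_isLink := fun _ _ _ _ _ h h' => h.2.left_eq_or_eq h'.2
  left_mem_of_isLink := fun _ _ _ h => h.2.left_mem

theorem almostEmbeds_of_deltaY (hV : G.vertexSet.Finite) (hE : G.edgeSet.Finite)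
    (hloop : ∀ e x, ¬ G.IsLink e x x) (hd : 3 < finrank ℝ E) (h : IsDeltaY G H n t w)
    (hG : AlmostEmbeds G E) : AlmostEmbeds H E := by
  obtain ⟨f, hf⟩ := hG
  obtain ⟨δ, hδ, hdis⟩ := exists_delta hV hE f hf
  have hfin1 : Finite (Cell G) := finite_cell hV hE
  have hfin2 : Finite (Cell (minusEdges G t)) := by
    refine finite_cell hV (hE.subset ?_)
    rintro e ⟨x, y, h2⟩
    exact h2.2.edge_mem
  have lab : G.IsLink (t 2) (n 0) (n 1) := h.link 2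
  have lbc : G.IsLink (t 0) (n 1) (n 2) := h.link 0
  have lca : G.IsLink (t 1) (n 2) (n 0) := h.link 1
  obtain ⟨arc, h0, h1, hs, S, τab, τbc, τca, hSs, hSreg, hSpt, hSarc, hhom, hnull, hab, hbc, hca,
    htri⟩ := tame (Gm := minusEdges G t) hd hloop f hδ hdis (fun h => h.2) rfl lab lbc lca
  have hsm : ∀ A, Small (ℝ × ℝ) (Cc S A) := Cc_small hSs
  have regK : ∀ A, reg f δ A ⊆ (Cc S Aᶜ)ᶜ := fun A z hz hz' =>
    Set.disjoint_left.1 (hdis _ _ (disjoint_compl_right (a := A))) hz (Cc_sub hSreg _ hz')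
  have hpt : ∀ i, f.pt (n i) ∉ Cc S {n i}ᶜ := fun i =>
    regK {n i} (Cc_sub hSreg _ (hSpt _ (h.n_mem i) _ rfl))
  have sub1 : ∀ {x y : α}, ({x, y}ᶜ : Set α) ⊆ {x}ᶜ := by
    intro x y u hu h2
    rw [Set.mem_singleton_iff] at h2
    exact hu (Or.inl h2)
  have sub2 : ∀ {x y : α}, ({x, y}ᶜ : Set α) ⊆ {y}ᶜ := by
    intro x y u hu h2
    rw [Set.mem_singleton_iff] at h2
    exact hu (Or.inr h2)
  obtain ⟨w0, hw0, αa, αb, αc, ha, hb, hc, rab, rbc, rca⟩ := exists_spokes hd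
    (S0 := Cc S univ) (Sa := Cc S {n 0}ᶜ) (Sb := Cc S {n 1}ᶜ) (Sc := Cc S {n 2}ᶜ)
    (S1 := Cc S {n 2, n 0}ᶜ) (S2 := Cc S {n 1, n 2}ᶜ) (S3 := Cc S {n 0, n 1}ᶜ)
    (hsm _) (hsm _) (hsm _) (hsm _) (hsm _) (hsm _) (hsm _)
    (Cc_mono _ (subset_univ _)) (Cc_mono _ (subset_univ _))
    (Cc_mono _ sub2) (Cc_mono _ sub1) (Cc_mono _ sub1) (Cc_mono _ sub2)
    (Cc_mono _ sub2) (hpt 0) (hpt 1) (hpt 2) τab τbc τca
    (fun s => regK _ (hab.left_mem s)) (fun s => regK _ (hbc.left_mem s))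
    (fun s => regK _ (hca.left_mem s)) (by
      refine htri.mono ?_
      rw [Set.pair_comm (n 2) (n 0), Set.inter_comm])
  obtain ⟨sp, sp0, sp1, sp2⟩ : ∃ sp : ∀ i : Fin 3, Path w0 (f.pt (n i)),
      sp 0 = αa ∧ sp 1 = αb ∧ sp 2 = αc :=
    ⟨fun i => match i with
      | 0 => αa
      | 1 => αb
      | 2 => αc, rfl, rfl, rfl⟩
  rw [← sp0, ← sp1] at rab
  rw [← sp1, ← sp2] at rbc
  rw [← sp2, ← sp0] at rca
  have hsp : ∀ i s, sp i s ∉ Cc S {n i}ᶜ := by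
    intro i
    match i with
    | 0 => rw [sp0]; exact ha
    | 1 => rw [sp1]; exact hb
    | 2 => rw [sp2]; exact hc
  have base : ∀ {i j : Fin 3} {e : β} (l : G.IsLink e (n i) (n j))
      {τ : Path (f.pt (n i)) (f.pt (n j))}, HomIn (reg f δ {n i, n j}) τ (f.path l) →
      HomIn (Cc S {n i, n j}ᶜ)ᶜ ((sp i).trans τ) (sp j) →
      HomIn (Cc S {n i, n j}ᶜ)ᶜ ((sp i).trans (f.path l)) (sp j) ∧
      HomIn (Cc S {n j, n i}ᶜ)ᶜ ((sp j).trans (f.path l.symm)) (sp i) := by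
    intro i j e l τ hτ hr
    have m1 : ∀ s, sp i s ∈ (Cc S {n i, n j}ᶜ)ᶜ := fun s hz => hsp i s (Cc_mono _ sub1 hz)
    have m2 : ∀ s, f.path l s ∈ (Cc S {n i, n j}ᶜ)ᶜ := fun s => regK _ (hτ.symm.left_mem s)
    have k1 : HomIn (Cc S {n i, n j}ᶜ)ᶜ ((sp i).trans (f.path l)) (sp j) :=
      ((HomIn.refl m1).hcomp (hτ.symm.mono (regK _))).trans hr
    refine ⟨k1, ?_⟩
    rw [path_symm f l, Set.pair_comm]
    exact rel_symm m1 m2 k1
  have b1 := base lab hab rab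
  have b2 := base lbc hbc rbc
  have b3 := base lca hca rca
  refine deltaY_core (Gm := minusEdges G t) h Iff.rfl rfl f hδ hdis arc h0 h1 hs S hSreg hSpt
    hSarc hhom hnull hw0 sp hsp ?_
  intro i j
  match i, j with
  | 0, 0 => exact fun h => absurd rfl h
  | 1, 1 => exact fun h => absurd rfl h
  | 2, 2 => exact fun h => absurd rfl h
  | 0, 1 => exact fun _ => ⟨_, lab, b1.1⟩
  | 1, 0 => exact fun _ => ⟨_, lab.symm, b1.2⟩
  | 1, 2 => exact fun _ => ⟨_, lbc, b2.1⟩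
  | 2, 1 => exact fun _ => ⟨_, lbc.symm, b2.2⟩
  | 2, 0 => exact fun _ => ⟨_, lca, b3.1⟩
  | 0, 2 => exact fun _ => ⟨_, lca.symm, b3.2⟩

end H95F
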