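import Pool.Agent.Lib.H95G.Small

/-!
# Discs with small image

MP_7f673e_co. A null-homotopy of a piecewise `C^1` loop can be replaced by one with small image,
which away from the loop is a translate of one fixed smooth surface.
-/

set_option linter.unusedSectionVars false

open scoped unitInterval Topology
open Set Metric Module

namespace H95F

section PW

variable {E : Type*} [NormedAddCommGroup E] [NormedSpace ℝ E]

/-- every value of the path is the value of one of countably many `C^1` curves -/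
def PW {x y : E} (p : Path x y) : Prop :=
  ∃ (ι : Type) (_ : Countable ι) (h : ι → ℝ → E), (∀ k, ContDiff ℝ 1 (h k)) ∧
    ∀ t : I, ∃ k, p t = h k t

theorem pw_refl (x : E) : PW (Path.refl x) :=
  ⟨Unit, inferInstance, fun _ _ => x, fun _ => contDiff_const, fun _ => ⟨(), rfl⟩⟩

theorem pw_curve {x y : E} {p : Path x y} {γ : ℝ → E} (hγ : ContDiff ℝ 1 γ)
    (hp : ∀ t : I, p t = γ t) : PW p :=
  ⟨Unit, inferInstance, fun _ => γ, fun _ => hγ, fun t => ⟨(), hp t⟩⟩

theorem PW.symm {x y : E} {p : Path x y} (hp : PW p) : PW p.symm := by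
  obtain ⟨ι, hι, h, hh, hph⟩ := hp
  refine ⟨ι, hι, fun k t => h k (1 - t), fun k => (hh k).comp (contDiff_const.sub contDiff_id),
    fun t => ?_⟩
  obtain ⟨k, hk⟩ := hph (σ t)
  exact ⟨k, hk⟩

theorem PW.trans {x y z : E} {p : Path x y} {q : Path y z} (hp : PW p) (hq : PW q) :
    PW (p.trans q) := by
  obtain ⟨ι, _, h, hh, hph⟩ := hp
  obtain ⟨κ, _, g, hg, hqg⟩ := hq
  refine ⟨ι ⊕ κ, inferInstance, Sum.elim (fun k t => h k (2 * t)) (fun k t => g k (2 * t - 1)),
    ?_, fun t => ?_⟩
  · rintro (k | k)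
    · exact (hh k).comp (contDiff_const.mul contDiff_id)
    · exact (hg k).comp ((contDiff_const.mul contDiff_id).sub contDiff_const)
  · rw [Path.trans_apply]
    split_ifs with h1
    · obtain ⟨k, hk⟩ := hph ⟨2 * t, (unitInterval.mul_pos_mem_iff zero_lt_two).2 ⟨t.2.1, h1⟩⟩
      exact ⟨Sum.inl k, hk⟩
    · obtain ⟨k, hk⟩ := hqg ⟨2 * t - 1, unitInterval.two_mul_sub_one_mem_iff.2
        ⟨(not_le.1 h1).le, t.2.2⟩⟩
      exact ⟨Sum.inr k, hk⟩

theorem PW.small {x y : E} {p : Path x y} (hp : PW p) : Small ℝ (range p) := by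
  obtain ⟨ι, hι, h, hh, hph⟩ := hp
  refine ⟨isCompact_range p.continuous, ι, hι, h, hh, ?_⟩
  rintro z ⟨t, rfl⟩
  obtain ⟨k, hk⟩ := hph t
  exact Set.mem_iUnion.2 ⟨k, ⟨t, hk.symm⟩⟩

theorem PW.of_walk {α β : Type*} {H : Graph α β} {D : Drawing H E}
    (hD : ∀ {e x y} (h : H.IsLink e x y), PW (D.path h)) {x y : α} (p : Walk H x y) :
    PW (D.hol p) := by
  induction p with
  | nil x => exact pw_refl _
  | cons e h p ih => exact (hD h).trans ih

end PW

section Disc

variable {E : Type*} [NormedAddCommGroup E] [NormedSpace ℝ E] [FiniteDimensional ℝ E]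

/-- Discs: `P` is a smooth surface near the given null-homotopy; for every small `w` there is a
null-homotopy with small image `C`, every point of which is near the given disc, and is a point of
the surface `P + w` or near the boundary. -/
theorem disc_small {x : E} {p : Path x x} (hp : PW p) (F : Path.Homotopy p (Path.refl x))
    {ε : ℝ} (hε : 0 < ε) :
    ∃ P : ℝ × ℝ → E, ContDiff ℝ 1 P ∧ ∀ w : E, ‖w‖ < ε → ∃ C : Set E, Small (ℝ × ℝ) C ∧
      range p ⊆ C ∧ HomIn C p (Path.refl x) ∧ (∀ z ∈ C, ∃ q, dist z (F q) < 2 * ε) ∧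
      ∀ z ∈ C, (∃ q, z = P q + w) ∨ ∃ t, dist z (p t) < 2 * ε := by
  let pr : ℝ → I := projIcc 0 1 zero_le_one
  have hpr : Continuous pr := continuous_projIcc
  let Ft : ℝ × ℝ → E := fun st => F (pr st.1, pr st.2)
  have hFt : Continuous Ft :=
    F.continuous.comp ((hpr.comp continuous_fst).prodMk (hpr.comp continuous_snd))
  obtain ⟨P, hP, hPF, -⟩ := hFt.exists_contDiff_approx (n := 1) (ε := fun _ => ε)
    continuous_const (fun _ => hε)
  have hP1 : ContDiff ℝ 1 P := by exact_mod_cast hP
  refine ⟨P, hP1, fun w hw => ?_⟩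
  -- the retraction and the cutoff
  let a : ℝ → ℝ := fun s => 3 * s - 1
  let ra : ℝ → ℝ := fun s => |a s - pr (a s)|
  have hra : Continuous ra := by
    have : Continuous fun s => ((pr (a s) : I) : ℝ) :=
      continuous_subtype_val.comp (hpr.comp (by fun_prop))
    fun_prop
  let r : ℝ × ℝ → ℝ := fun q => max 0 (1 - ra q.1 - ra q.2)
  have hr : Continuous r := by fun_prop
  have hr0 : ∀ q, 0 ≤ r q := fun q => le_max_left _ _
  have hra0 : ∀ s, 0 ≤ ra s := fun s => abs_nonneg _
  have hr1 : ∀ q, r q ≤ 1 := fun q => max_le zero_le_one (by linarith [hra0 q.1, hra0 q.2])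
  let ρ : ℝ × ℝ → ℝ × ℝ := fun q => ((pr (a q.1) : ℝ), (pr (a q.2) : ℝ))
  have hρ : Continuous ρ := by
    have h1 : Continuous fun s => ((pr (a s) : I) : ℝ) :=
      continuous_subtype_val.comp (hpr.comp (by fun_prop))
    exact (h1.comp continuous_fst).prodMk (h1.comp continuous_snd)
  let G : ℝ × ℝ → E := fun q => Ft (ρ q) + r q • (P (ρ q) + w - Ft (ρ q))
  have hG : Continuous G := by
    have h1 := hFt.comp hρ
    have h2 := hP1.continuous.comp hρ
    exact h1.add (hr.smul ((h2.add continuous_const).sub h1))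
  have hprI : ∀ s : I, pr s = s := fun s => projIcc_val _ s
  have hFρ : ∀ q, Ft (ρ q) = F (pr (a q.1), pr (a q.2)) := by
    intro q
    simp only [Ft, ρ]
    rw [hprI, hprI]
  have hsmall : ∀ q, ‖P (ρ q) + w - Ft (ρ q)‖ < 2 * ε := by
    intro q
    have h1 : ‖P (ρ q) - Ft (ρ q)‖ < ε := by rw [← dist_eq_norm]; exact hPF _
    calc ‖P (ρ q) + w - Ft (ρ q)‖ = ‖(P (ρ q) - Ft (ρ q)) + w‖ := by congr 1; abel
      _ ≤ ‖P (ρ q) - Ft (ρ q)‖ + ‖w‖ := norm_add_le _ _
      _ < 2 * ε := by linarith
  have hGF : ∀ q, dist (G q) (F (pr (a q.1), pr (a q.2))) < 2 * ε := by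
    intro q
    rw [← hFρ, dist_eq_norm]
    simp only [G]
    rw [add_sub_cancel_left, norm_smul, Real.norm_of_nonneg (hr0 q)]
    calc r q * ‖P (ρ q) + w - Ft (ρ q)‖ ≤ 1 * ‖P (ρ q) + w - Ft (ρ q)‖ := by
          gcongr
          exact hr1 q
      _ < 2 * ε := by rw [one_mul]; exact hsmall q
  -- cases of the retraction
  have hcase : ∀ s : ℝ, ra s = 0 ∨ (pr (a s) = 0 ∨ pr (a s) = 1) := by
    intro s
    rcases lt_or_ge (a s) 0 with h | h
    · exact Or.inr (Or.inl (projIcc_of_le_left _ h.le))
    · rcases lt_or_ge 1 (a s) with h' | h'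
      · exact Or.inr (Or.inr (projIcc_of_right_le _ h'.le))
      · left
        have : ((pr (a s) : I) : ℝ) = a s := by
          simp only [pr]
          rw [projIcc_of_mem _ ⟨h, h'⟩]
        simp only [ra]
        rw [this]
        simp
  -- the boundary values of `F`
  have FB : ∀ q : ℝ × ℝ, (pr (a q.1) = 0 ∧ F (pr (a q.1), pr (a q.2)) = p (pr (a q.2))) ∨
      (F (pr (a q.1), pr (a q.2)) = x) ∨ r q = 1 := by
    intro q
    rcases hcase q.1 with h1 | h1 | h1
    · rcases hcase q.2 with h2 | h2 | h2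
      · right; right
        simp only [r, h1, h2]
        norm_num
      · right; left
        rw [h2]
        exact Path.Homotopy.source F _
      · right; left
        rw [h2]
        exact Path.Homotopy.target F _
    · left
      refine ⟨h1, ?_⟩
      rw [h1]
      exact F.apply_zero _
    · right; left
      rw [h1]
      exact F.apply_one _
  let C : Set E := G '' (Icc 0 1 ×ˢ Icc 0 1) ∪ range p
  have hGC : ∀ s t : I, G (s, t) ∈ C := fun s t => Or.inl ⟨(s, t), ⟨s.2, t.2⟩, rfl⟩
  refine ⟨C, ?_, subset_union_right, ?_, ?_, ?_⟩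
  · -- small
    refine Small.union ⟨(isCompact_Icc.prod isCompact_Icc).image hG, ?_⟩ hp.small.two
    obtain ⟨ι, hι, h, hh, hph⟩ := hp
    refine ⟨Option ι ⊕ (Bool × Bool), inferInstance, Sum.elim (fun o => match o with
      | none => fun q => P q + w
      | some k => fun q => h k q.1 + q.2 • (P (0, q.1) + w - h k q.1))
      (fun b q => x + q.2 • (P (cond b.1 (cond b.2 1 0, q.1) (q.1, cond b.2 1 0)) + w - x)),
      ?_, ?_⟩
    · rintro ((_ | k) | ⟨_ | _, _ | _⟩)
      · exact hP1.add contDiff_const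
      · have h1 := hh k
        have h2 : ContDiff ℝ 1 fun q : ℝ × ℝ => h k q.1 := h1.comp contDiff_fst
        have h3 : ContDiff ℝ 1 fun q : ℝ × ℝ => P (0, q.1) :=
          hP1.comp (contDiff_const.prodMk contDiff_fst)
        exact h2.add (contDiff_snd.smul ((h3.add contDiff_const).sub h2))
      all_goals
        simp only [Sum.elim_inr, cond_true, cond_false]
        first
          | exact contDiff_const.add (contDiff_snd.smul (((hP1.comp
              (contDiff_fst.prodMk contDiff_const)).add contDiff_const).sub contDiff_const))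
          | exact contDiff_const.add (contDiff_snd.smul (((hP1.comp
              (contDiff_const.prodMk contDiff_fst)).add contDiff_const).sub contDiff_const))
    · rintro z ⟨q, -, rfl⟩
      -- by cases
      have hρ1 : ρ q = (((pr (a q.1) : I) : ℝ), ((pr (a q.2) : I) : ℝ)) := rfl
      have cx : ∀ u v : I, ρ q = ((u : ℝ), (v : ℝ)) → F (pr (a q.1), pr (a q.2)) = x →
          G q = x + r q • (P ((u : ℝ), (v : ℝ)) + w - x) := by
        intro u v h1 h2
        simp only [G]
        rw [hFρ, h2, h1]
      rcases hcase q.1 with h1 | h1 | h1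
      · rcases hcase q.2 with h2 | h2 | h2
        · refine Set.mem_iUnion.2 ⟨Sum.inl none, ρ q, ?_⟩
          have h3 : r q = 1 := by
            simp only [r, h1, h2]
            norm_num
          simp only [G, h3, one_smul, Sum.elim_inl]
          abel
        · refine Set.mem_iUnion.2 ⟨Sum.inr (false, false), (((pr (a q.1) : I) : ℝ), r q), ?_⟩
          have h4 : F (pr (a q.1), pr (a q.2)) = x := by rw [h2]; exact Path.Homotopy.source F _
          rw [cx (pr (a q.1)) 0 (by rw [hρ1, h2]) h4]
          simp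
        · refine Set.mem_iUnion.2 ⟨Sum.inr (false, true), (((pr (a q.1) : I) : ℝ), r q), ?_⟩
          have h4 : F (pr (a q.1), pr (a q.2)) = x := by rw [h2]; exact Path.Homotopy.target F _
          rw [cx (pr (a q.1)) 1 (by rw [hρ1, h2]) h4]
          simp
      · obtain ⟨k, hk⟩ := hph (pr (a q.2))
        refine Set.mem_iUnion.2 ⟨Sum.inl (some k), (((pr (a q.2) : I) : ℝ), r q), ?_⟩
        have h4 : F (pr (a q.1), pr (a q.2)) = h k (pr (a q.2)) := by
          rw [h1, ← hk]
          exact F.apply_zero _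
        have h5 : ρ q = (0, ((pr (a q.2) : I) : ℝ)) := by rw [hρ1, h1]; rfl
        simp only [G, Sum.elim_inl]
        rw [hFρ, h4, h5]
      · refine Set.mem_iUnion.2 ⟨Sum.inr (true, true), (((pr (a q.2) : I) : ℝ), r q), ?_⟩
        have h4 : F (pr (a q.1), pr (a q.2)) = x := by rw [h1]; exact F.apply_one _
        rw [cx 1 (pr (a q.2)) (by rw [hρ1, h1]) h4]
        simp
  · -- null-homotopic
    have a0 : a 0 = -1 := by simp [a]
    have a1 : a 1 = 2 := by simp only [a]; norm_num
    have pa0 : pr (a 0) = 0 := by rw [a0]; exact projIcc_of_le_left _ (by norm_num)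
    have pa1 : pr (a 1) = 1 := by rw [a1]; exact projIcc_of_right_le _ (by norm_num)
    have ra0' : ra 0 = 1 := by simp only [ra]; rw [pa0, a0]; norm_num
    have ra1' : ra 1 = 1 := by simp only [ra]; rw [pa1, a1]; norm_num
    have rb : ∀ q : ℝ × ℝ, (q.1 = 0 ∨ q.1 = 1 ∨ q.2 = 0 ∨ q.2 = 1) → r q = 0 := by
      intro q hq
      simp only [r]
      apply max_eq_left
      rcases hq with h | h | h | h <;> rw [h]
      · rw [ra0']; linarith [hra0 q.2]
      · rw [ra1']; linarith [hra0 q.2]
      · rw [ra0']; linarith [hra0 q.1]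
      · rw [ra1']; linarith [hra0 q.1]
    have GB : ∀ q : ℝ × ℝ, (q.1 = 0 ∨ q.1 = 1 ∨ q.2 = 0 ∨ q.2 = 1) →
        G q = F (pr (a q.1), pr (a q.2)) := by
      intro q hq
      simp only [G]
      rw [rb q hq, zero_smul, add_zero, hFρ]
    let κ : I → I := fun t => pr (a t)
    have hκ : Continuous κ := hpr.comp (by fun_prop)
    have κ0 : κ 0 = 0 := pa0
    have κ1 : κ 1 = 1 := pa1
    have h1 : HomIn C p (p.reparam κ hκ κ0 κ1) := by
      refine ⟨Path.Homotopy.reparam p κ hκ κ0 κ1, fun t => Or.inr ⟨_, rfl⟩⟩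
    refine h1.trans ⟨{ toFun := fun st => G (st.1, st.2)
                       continuous_toFun := by fun_prop
                       map_zero_left := fun t => ?_
                       map_one_left := fun t => ?_
                       prop' := ?_ }, fun st => hGC _ _⟩
    · have := GB (0, t) (Or.inl rfl)
      simp only at this
      rw [show (((0 : I) : ℝ), (t : ℝ)) = (0, (t : ℝ)) from rfl, this, pa0]
      exact F.apply_zero _
    · have := GB (1, t) (Or.inr (Or.inl rfl))
      simp only at this
      rw [show (((1 : I) : ℝ), (t : ℝ)) = (1, (t : ℝ)) from rfl, this, pa1]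
      exact F.apply_one _
    · intro s t ht
      rcases ht with rfl | ht
      · have := GB (s, 0) (Or.inr (Or.inr (Or.inl rfl)))
        simp only at this
        change G (s, ((0 : I) : ℝ)) = p (κ 0)
        rw [show ((s : ℝ), ((0 : I) : ℝ)) = ((s : ℝ), 0) from rfl, this, pa0, κ0, p.source]
        exact Path.Homotopy.source F _
      · rw [Set.mem_singleton_iff] at ht
        subst ht
        have := GB (s, 1) (Or.inr (Or.inr (Or.inr rfl)))
        simp only at this
        change G (s, ((1 : I) : ℝ)) = p (κ 1)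
        rw [show ((s : ℝ), ((1 : I) : ℝ)) = ((s : ℝ), 1) from rfl, this, pa1, κ1, p.target]
        exact Path.Homotopy.target F _
  · rintro z (⟨q, -, rfl⟩ | ⟨t, rfl⟩)
    · exact ⟨_, hGF q⟩
    · refine ⟨(0, t), ?_⟩
      rw [show F (0, t) = p t from F.apply_zero t, dist_self]
      linarith
  · rintro z (⟨q, -, rfl⟩ | ⟨t, rfl⟩)
    · rcases FB q with ⟨-, h1⟩ | h1 | h1
      · right
        have := hGF q
        rw [h1] at this
        exact ⟨_, this⟩
      · right
        have := hGF q
        rw [h1] at this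
        exact ⟨0, by rwa [p.source]⟩
      · left
        refine ⟨ρ q, ?_⟩
        simp only [G, h1, one_smul]
        abel
    · right
      exact ⟨t, by rw [dist_self]; linarith⟩

end Disc

end H95F
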