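import Pool.Agent.Lib.H95G.ClosureAll

/-!
# Y-Delta transformations preserve and reflect almost embeddability

MP_7f673e_co. A Y-Delta transformation is undone by a Delta-Y transformation.
-/

open Set Module

namespace H95F

variable {α β : Type*} {G H : Graph α β}

theorem IsYDelta.isDeltaY {v a b c : α} {ea eb ec : β} (h : IsYDelta G H v a b c ea eb ec) :
    IsDeltaY H G ![a, b, c] ![ea, eb, ec] v := by
  have hv : v ∈ G.vertexSet := h.linkA.left_mem
  have hlink : ∀ i : Fin 3, G.IsLink ((![ea, eb, ec] : Fin 3 → β) i) v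
      ((![a, b, c] : Fin 3 → α) i) := by
    intro i
    match i with
    | 0 => exact h.linkA
    | 1 => exact h.linkB
    | 2 => exact h.linkC
  have hne : ∀ {e : β}, (∀ i : Fin 3, e ≠ (![ea, eb, ec] : Fin 3 → β) i) ↔
      (e ≠ ea ∧ e ≠ eb ∧ e ≠ ec) := by
    intro e
    constructor
    · exact fun h1 => ⟨h1 0, h1 1, h1 2⟩
    · rintro ⟨h1, h2, h3⟩ i
      match i with
      | 0 => exact h1
      | 1 => exact h2
      | 2 => exact h3
  refine ⟨?_, ?_, ?_, ?_, ?_⟩
  · intro i j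
    match i, j with
    | 0, 0 => exact fun _ => rfl
    | 1, 1 => exact fun _ => rfl
    | 2, 2 => exact fun _ => rfl
    | 0, 1 => exact fun h1 => absurd h1 h.ab
    | 1, 0 => exact fun h1 => absurd h1.symm h.ab
    | 1, 2 => exact fun h1 => absurd h1 h.bc
    | 2, 1 => exact fun h1 => absurd h1.symm h.bc
    | 2, 0 => exact fun h1 => absurd h1 h.ca
    | 0, 2 => exact fun h1 => absurd h1.symm h.ca
  · intro i
    match i with
    | 0 => exact (h.link ea b c).2 (Or.inr (Or.inl ⟨rfl, rfl⟩))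
    | 1 => exact (h.link eb c a).2 (Or.inr (Or.inr (Or.inl ⟨rfl, rfl⟩)))
    | 2 => exact (h.link ec a b).2 (Or.inr (Or.inr (Or.inr ⟨rfl, rfl⟩)))
  · rw [h.verts]
    exact fun h1 => h1.2 rfl
  · rw [h.verts, Set.insert_sdiff_singleton, Set.insert_eq_of_mem hv]
  · intro e x y
    constructor
    · intro hl
      by_cases he : ∃ i, e = (![ea, eb, ec] : Fin 3 → β) i
      · obtain ⟨i, rfl⟩ := he
        refine Or.inr ⟨i, rfl, ?_⟩
        rcases hl.eq_and_eq_or_eq_and_eq (hlink i) with ⟨h1, h2⟩ | ⟨h1, h2⟩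
        · rw [h1, h2]
        · rw [h1, h2, Sym2.eq_swap]
      · have he' : ∀ i, e ≠ (![ea, eb, ec] : Fin 3 → β) i := fun i h1 => he ⟨i, h1⟩
        have h2 := hne.1 he'
        exact Or.inl ⟨he', (h.link e x y).2 (Or.inl ⟨h2.1, h2.2.1, h2.2.2, hl⟩)⟩
    · rintro (⟨h1, h2⟩ | ⟨i, rfl, h1⟩)
      · have h3 := hne.1 h1
        rcases (h.link e x y).1 h2 with h4 | h4 | h4 | h4
        · exact h4.2.2.2
        · exact absurd h4.1 h3.1
        · exact absurd h4.1 h3.2.1
        · exact absurd h4.1 h3.2.2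
      · rw [Sym2.eq_iff] at h1
        rcases h1 with ⟨h2, h3⟩ | ⟨h2, h3⟩
        · rw [h2, h3]
          exact hlink i
        · rw [h2, h3]
          exact (hlink i).symm

theorem almostEmbeds_yDelta_iff {E : Type*} [NormedAddCommGroup E] [NormedSpace ℝ E]
    [FiniteDimensional ℝ E] (hd : 3 < finrank ℝ E) (hV : G.vertexSet.Finite)
    (hE : G.edgeSet.Finite) (hloop : ∀ e x, ¬ G.IsLink e x x) {v a b c : α} {ea eb ec : β}
    (h : IsYDelta G H v a b c ea eb ec) : AlmostEmbeds G E ↔ AlmostEmbeds H E := by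
  refine ⟨almostEmbeds_of_yDelta h, ?_⟩
  have h1 := finite_yDelta h hV hE
  exact almostEmbeds_of_deltaY h1.1 h1.2
    (loopless_stepAll (.twin (.step (.yDelta h))) hloop) hd h.isDeltaY

end H95F
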