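import Pool.Agent.Lib.H95F.FullComplex

/-!
# General position against a smooth arc

MP_7f673e_co. A continuous map of a compact set of dimension `k` to an open set of a space of
dimension at least `k + 2` can be moved off a `C^1` arc, keeping it fixed where it already avoids
the arc. Consequences for paths (`k = 1`) and homotopies of paths (`k = 2`).
-/

open scoped unitInterval
open Set Metric Module

namespace H95F

section GP

variable {V E : Type*} [NormedAddCommGroup V] [NormedSpace ℝ V] [FiniteDimensional ℝ V]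
  [NormedAddCommGroup E] [NormedSpace ℝ E] [FiniteDimensional ℝ E]

theorem gp (hd : finrank ℝ V + 1 < finrank ℝ E) (F : V → E) (hF : Continuous F) {K L : Set V}
    (hK : IsCompact K) (hL : IsCompact L) {U : Set E} (hU : IsOpen U) (hFU : ∀ x ∈ K, F x ∈ U)
    (γ : ℝ → E) (hγ : ContDiff ℝ 1 γ) (hLγ : ∀ x ∈ L, ∀ t ∈ Icc (0 : ℝ) 1, F x ≠ γ t) :
    ∃ G : V → E, Continuous G ∧ (∀ x ∈ L, G x = F x) ∧
      (∀ x ∈ K, ∀ t ∈ Icc (0 : ℝ) 1, G x ≠ γ t) ∧
      ∀ x ∈ K, ∀ s ∈ Icc (0 : ℝ) 1, F x + s • (G x - F x) ∈ U := by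
  set Γ : Set E := γ '' Icc 0 1 with hΓ
  have hΓc : IsCompact Γ := isCompact_Icc.image hγ.continuous
  have hΓn : Γ.Nonempty := ⟨γ 0, 0, by simp, rfl⟩
  obtain ⟨δ₁, hδ₁, hdis⟩ : ∃ δ : ℝ, 0 < δ ∧ ∀ x ∈ L, δ ≤ infDist (F x) Γ := by
    have h1 : Disjoint (F '' L) Γ := by
      rw [Set.disjoint_left]
      rintro _ ⟨x, hx, rfl⟩ ⟨t, ht, h⟩
      exact hLγ x hx t ht h.symm
    obtain ⟨δ, hδ, h2⟩ := h1.exists_thickenings (hL.image hF) hΓc.isClosed
    refine ⟨δ, hδ, fun x hx => ?_⟩
    by_contra h3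
    push Not at h3
    obtain ⟨y, hy, h4⟩ := (infDist_lt_iff hΓn).1 h3
    refine Set.disjoint_left.1 h2 (self_subset_thickening hδ _ (mem_image_of_mem F hx)) ?_
    exact mem_thickening_iff.2 ⟨y, hy, h4⟩
  obtain ⟨δ₂, hδ₂, hthick⟩ : ∃ δ : ℝ, 0 < δ ∧ thickening δ (F '' K) ⊆ U :=
    (hK.image hF).exists_thickening_subset_open hU (by rintro _ ⟨x, hx, rfl⟩; exact hFU x hx)
  obtain ⟨ε, hε, hε1, hε2⟩ : ∃ ε : ℝ, 0 < ε ∧ 2 * ε ≤ δ₁ / 2 ∧ 2 * ε ≤ δ₂ :=
    ⟨min (δ₁ / 4) (δ₂ / 2), by positivity, by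
      linarith [min_le_left (δ₁ / 4) (δ₂ / 2)], by linarith [min_le_right (δ₁ / 4) (δ₂ / 2)]⟩
  obtain ⟨P, hP, hPF, -⟩ := hF.exists_contDiff_approx (n := 1) (ε := fun _ => ε)
    continuous_const (fun _ => hε)
  have hP1 : ContDiff ℝ 1 P := by exact_mod_cast hP
  obtain ⟨w, hw, hwn⟩ : ∃ w : E, w ∉ range (fun q : V × ℝ => γ q.2 - P q.1) ∧ ‖w‖ < ε := by
    have h1 : ContDiff ℝ 1 (fun q : V × ℝ => γ q.2 - P q.1) :=
      (hγ.comp contDiff_snd).sub (hP1.comp contDiff_fst)
    have h2 : finrank ℝ (V × ℝ) < finrank ℝ E := by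
      rw [finrank_prod, finrank_self]
      exact hd
    have h3 := h1.dense_compl_range_of_finrank_lt_finrank h2
    obtain ⟨w, hw1, hw2⟩ := h3.exists_mem_open isOpen_ball ⟨(0 : E), mem_ball_self hε⟩
    exact ⟨w, hw1, by simpa using hw2⟩
  let φ : V → ℝ := fun x => min 1 (max 0 (2 - 2 * infDist (F x) Γ / δ₁))
  have hφc : Continuous φ := by
    have : Continuous fun x => infDist (F x) Γ := (continuous_infDist_pt Γ).comp hF
    fun_prop
  have hφ0 : ∀ x, 0 ≤ φ x := fun x => le_min zero_le_one (le_max_left _ _)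
  have hφ1 : ∀ x, φ x ≤ 1 := fun x => min_le_left _ _
  have hsm : ∀ x, ‖P x + w - F x‖ < 2 * ε := by
    intro x
    have h1 : ‖P x - F x‖ < ε := by rw [← dist_eq_norm]; exact hPF x
    calc ‖P x + w - F x‖ = ‖(P x - F x) + w‖ := by congr 1; abel
      _ ≤ ‖P x - F x‖ + ‖w‖ := norm_add_le _ _
      _ < 2 * ε := by linarith
  have hsm2 : ∀ x, ∀ s : ℝ, 0 ≤ s → s ≤ 1 → ‖s • (P x + w - F x)‖ < 2 * ε := by
    intro x s h0 h1
    rw [norm_smul, Real.norm_of_nonneg h0]
    calc s * ‖P x + w - F x‖ ≤ 1 * ‖P x + w - F x‖ := by gcongr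
      _ < 2 * ε := by rw [one_mul]; exact hsm x
  refine ⟨fun x => F x + φ x • (P x + w - F x), ?_, ?_, ?_, ?_⟩
  · have := hP1.continuous
    fun_prop
  · intro x hx
    have h1 : φ x = 0 := by
      have h2 := hdis x hx
      have h3 : (2 : ℝ) ≤ 2 * infDist (F x) Γ / δ₁ := by
        rw [le_div_iff₀ hδ₁]; linarith
      simp only [φ]
      rw [max_eq_left (by linarith)]
      simp
    simp [h1]
  · intro x hx t ht h
    rcases lt_or_ge (δ₁ / 2) (infDist (F x) Γ) with h1 | h1
    · have h2 : infDist (F x) Γ ≤ dist (F x) (γ t) := infDist_le_dist_of_mem ⟨t, ht, rfl⟩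
      have h3 : dist (F x) (γ t) < 2 * ε := by
        rw [← h, dist_eq_norm]
        have h4 : F x - (F x + φ x • (P x + w - F x)) = - (φ x • (P x + w - F x)) := by abel
        rw [h4, norm_neg]
        exact hsm2 x _ (hφ0 x) (hφ1 x)
      linarith
    · have h2 : φ x = 1 := by
        have h3 : 2 * infDist (F x) Γ / δ₁ ≤ 1 := by
          rw [div_le_iff₀ hδ₁]; linarith
        simp only [φ]
        exact min_eq_left (le_trans (by linarith) (le_max_right _ _))
      apply hw
      refine ⟨(x, t), ?_⟩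
      simp only [h2, one_smul] at h
      simp only
      rw [← h]
      abel
  · intro x hx s hs
    apply hthick
    rw [mem_thickening_iff]
    refine ⟨F x, mem_image_of_mem F hx, ?_⟩
    rw [dist_eq_norm]
    have h1 : F x + s • (F x + φ x • (P x + w - F x) - F x) - F x =
        (s * φ x) • (P x + w - F x) := by
      rw [add_sub_cancel_left, add_sub_cancel_left, smul_smul]
    rw [h1]
    exact (hsm2 x _ (mul_nonneg hs.1 (hφ0 x)) (mul_le_one₀ hs.2 (hφ0 x) (hφ1 x))).trans_le hε2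

end GP

section Paths

variable {E : Type*} [NormedAddCommGroup E] [NormedSpace ℝ E] {x y z : E} {U : Set E}

theorem homIn_line {p q : Path x y}
    (h : ∀ t : I, ∀ s ∈ Icc (0 : ℝ) 1, p t + s • (q t - p t) ∈ U) : HomIn U p q := by
  refine ⟨{ toFun := fun ts => p ts.2 + (ts.1 : ℝ) • (q ts.2 - p ts.2)
            continuous_toFun := by fun_prop
            map_zero_left := fun t => by simp
            map_one_left := fun t => by simp
            prop' := ?_ }, fun ts => h ts.2 ts.1 ts.1.2⟩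
  intro s t ht
  rcases ht with rfl | ht
  · simp
  · rw [Set.mem_singleton_iff] at ht
    subst ht
    simp

/-- a path in an open set is homotopic to a `C^1` path -/
theorem smooth_path (hU : IsOpen U) (p : Path x y) (hp : ∀ t, p t ∈ U) :
    ∃ γ : ℝ → E, ContDiff ℝ 1 γ ∧ ∃ q : Path x y, (∀ t : I, q t = γ t) ∧ (∀ t, q t ∈ U) ∧
      HomIn U p q := by
  have hK : IsCompact (range p) := isCompact_range p.continuous
  obtain ⟨δ, hδ, hthick⟩ : ∃ δ : ℝ, 0 < δ ∧ thickening δ (range p) ⊆ U :=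
    hK.exists_thickening_subset_open hU (by rintro _ ⟨t, rfl⟩; exact hp t)
  have hε : 0 < δ / 4 := by positivity
  obtain ⟨P, hP, hPF, -⟩ := p.continuous_extend.exists_contDiff_approx (n := 1)
    (ε := fun _ => δ / 4) continuous_const (fun _ => hε)
  have hP1 : ContDiff ℝ 1 P := by exact_mod_cast hP
  let γ : ℝ → E := fun t => P t + ((1 - t) • (x - P 0) + t • (y - P 1))
  have hγ : ContDiff ℝ 1 γ := by fun_prop
  have h0 : γ 0 = x := by simp [γ]
  have h1 : γ 1 = y := by simp [γ]
  let q : Path x y := ⟨⟨fun t : I => γ t, by have := hγ.continuous; fun_prop⟩, by simpa using h0,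
    by simpa using h1⟩
  have hPx : ‖x - P 0‖ < δ / 4 := by
    have := hPF 0
    rwa [p.extend_zero, dist_comm, dist_eq_norm] at this
  have hPy : ‖y - P 1‖ < δ / 4 := by
    have := hPF 1
    rwa [p.extend_one, dist_comm, dist_eq_norm] at this
  have key : ∀ t : I, ‖q t - p t‖ < δ := by
    intro t
    have h2 : ‖P t - p t‖ < δ / 4 := by
      have := hPF t
      rwa [p.extend_apply t.2, dist_eq_norm] at this
    have h3 : q t - p t = (P t - p t) + ((1 - (t : ℝ)) • (x - P 0) + (t : ℝ) • (y - P 1)) := by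
      change γ t - p t = _
      simp only [γ]
      abel
    have h4 : ‖(1 - (t : ℝ)) • (x - P 0)‖ ≤ δ / 4 := by
      rw [norm_smul, Real.norm_of_nonneg (by linarith [t.2.2])]
      calc (1 - (t : ℝ)) * ‖x - P 0‖ ≤ 1 * ‖x - P 0‖ := by
            gcongr
            linarith [t.2.1]
        _ ≤ δ / 4 := by linarith
    have h5 : ‖(t : ℝ) • (y - P 1)‖ ≤ δ / 4 := by
      rw [norm_smul, Real.norm_of_nonneg t.2.1]
      calc (t : ℝ) * ‖y - P 1‖ ≤ 1 * ‖y - P 1‖ := by
            gcongr
            exact t.2.2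
        _ ≤ δ / 4 := by linarith
    rw [h3]
    calc _ ≤ ‖P t - p t‖ + ‖(1 - (t : ℝ)) • (x - P 0) + (t : ℝ) • (y - P 1)‖ := norm_add_le _ _
      _ ≤ ‖P t - p t‖ + (‖(1 - (t : ℝ)) • (x - P 0)‖ + ‖(t : ℝ) • (y - P 1)‖) := by
        gcongr
        exact norm_add_le _ _
      _ < δ := by linarith
  have hline : ∀ t : I, ∀ s ∈ Icc (0 : ℝ) 1, p t + s • (q t - p t) ∈ U := by
    intro t s hs
    apply hthick
    rw [mem_thickening_iff]
    refine ⟨p t, mem_range_self t, ?_⟩
    rw [dist_eq_norm, add_sub_cancel_left, norm_smul, Real.norm_of_nonneg hs.1]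
    calc s * ‖q t - p t‖ ≤ 1 * ‖q t - p t‖ := by
          gcongr
          exact hs.2
      _ < δ := by rw [one_mul]; exact key t
  refine ⟨γ, hγ, q, fun t => rfl, ?_, homIn_line hline⟩
  intro t
  have := hline t 1 (by simp)
  simpa using this

variable [FiniteDimensional ℝ E]

/-- a path can be moved off a `C^1` arc (dimension at least three) -/
theorem move_path (hd : 2 < finrank ℝ E) (hU : IsOpen U) (p : Path x y) (hp : ∀ t, p t ∈ U)
    (γ : ℝ → E) (hγ : ContDiff ℝ 1 γ) (hx : x ∉ γ '' Icc 0 1) (hy : y ∉ γ '' Icc 0 1) :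
    ∃ q : Path x y, (∀ t, q t ∈ U \ γ '' Icc 0 1) ∧ HomIn U p q := by
  obtain ⟨G, hG, hGL, hGK, hGU⟩ := gp (V := ℝ) (by rw [finrank_self]; omega) p.extend
    p.continuous_extend (K := Icc 0 1) (L := {0, 1}) isCompact_Icc (by
      exact (Set.toFinite _).isCompact) hU (by
      intro t ht
      rw [p.extend_apply ht]
      exact hp _) γ hγ (by
      rintro t (rfl | rfl) s hs h
      · rw [p.extend_zero] at h
        exact hx ⟨s, hs, h.symm⟩
      · rw [p.extend_one] at h
        exact hy ⟨s, hs, h.symm⟩)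
  have h0 : G 0 = x := by rw [hGL 0 (by simp), p.extend_zero]
  have h1 : G 1 = y := by rw [hGL 1 (by simp), p.extend_one]
  let q : Path x y := ⟨⟨fun t : I => G t, by fun_prop⟩, by simpa using h0, by simpa using h1⟩
  have hline : ∀ t : I, ∀ s ∈ Icc (0 : ℝ) 1, p t + s • (q t - p t) ∈ U := by
    intro t s hs
    have := hGU t t.2 s hs
    rwa [p.extend_apply t.2] at this
  refine ⟨q, fun t => ⟨?_, ?_⟩, homIn_line hline⟩
  · have := hline t 1 (by simp)
    simpa using this
  · rintro ⟨s, hs, h⟩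
    exact hGK t t.2 s hs h.symm

/-- a homotopy of paths can be moved off a `C^1` arc (dimension at least four) -/
theorem move_hom (hd : 3 < finrank ℝ E) (hU : IsOpen U) {p q : Path x y} (h : HomIn U p q)
    (γ : ℝ → E) (hγ : ContDiff ℝ 1 γ) (hp : ∀ t, p t ∉ γ '' Icc 0 1)
    (hq : ∀ t, q t ∉ γ '' Icc 0 1) : HomIn (U \ γ '' Icc 0 1) p q := by
  obtain ⟨H, hH⟩ := h
  let F : ℝ × ℝ → E := fun st => H (projIcc 0 1 zero_le_one st.1, projIcc 0 1 zero_le_one st.2)
  have hF : Continuous F := by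
    have h1 : Continuous (projIcc (0 : ℝ) 1 zero_le_one) := continuous_projIcc
    exact H.continuous.comp ((h1.comp continuous_fst).prodMk (h1.comp continuous_snd))
  have hFI : ∀ s t : I, F (s, t) = H (s, t) := by
    intro s t
    simp [F]
  let L : Set (ℝ × ℝ) := ((Icc 0 1) ×ˢ {0, 1}) ∪ ({0, 1} ×ˢ (Icc 0 1))
  have h01 : IsCompact ({0, 1} : Set ℝ) := (Set.toFinite _).isCompact
  have hL : IsCompact L := (isCompact_Icc.prod h01).union (h01.prod isCompact_Icc)
  have hx : x ∉ γ '' Icc 0 1 := by simpa using hp 0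
  have hy : y ∉ γ '' Icc 0 1 := by simpa using hp 1
  obtain ⟨G, hG, hGL, hGK, hGU⟩ := gp (V := ℝ × ℝ) (by
      rw [finrank_prod, finrank_self]; omega) F
    hF (K := Icc 0 1 ×ˢ Icc 0 1) (L := L) (isCompact_Icc.prod isCompact_Icc) hL hU (by
      rintro ⟨s, t⟩ -
      exact hH _) γ hγ (by
      rintro ⟨s, t⟩ hst r hr h2
      rcases hst with ⟨hs, ht⟩ | ⟨hs, ht⟩
      · rcases ht with ht | ht
        · obtain rfl : t = 0 := ht
          apply hx
          refine ⟨r, hr, ?_⟩
          rw [← h2]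
          have := hFI ⟨s, hs⟩ 0
          simp only [Icc.coe_zero] at this
          rw [this]
          exact Path.Homotopy.source H _
        · obtain rfl : t = 1 := ht
          apply hy
          refine ⟨r, hr, ?_⟩
          rw [← h2]
          have := hFI ⟨s, hs⟩ 1
          simp only [Icc.coe_one] at this
          rw [this]
          exact Path.Homotopy.target H _
      · rcases hs with hs | hs
        · obtain rfl : s = 0 := hs
          apply hp ⟨t, ht⟩
          refine ⟨r, hr, ?_⟩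
          rw [← h2]
          have := hFI 0 ⟨t, ht⟩
          simp only [Icc.coe_zero] at this
          rw [this]
          exact H.apply_zero _
        · obtain rfl : s = 1 := hs
          apply hq ⟨t, ht⟩
          refine ⟨r, hr, ?_⟩
          rw [← h2]
          have := hFI 1 ⟨t, ht⟩
          simp only [Icc.coe_one] at this
          rw [this]
          exact H.apply_one _)
  have hGI : ∀ s t : I, (s, t) ∈ (univ : Set (I × I)) → ((s : ℝ), (t : ℝ)) ∈ L →
      G (s, t) = H (s, t) := by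
    intro s t _ hst
    rw [hGL _ hst, hFI]
  refine ⟨{ toFun := fun st => G (st.1, st.2)
            continuous_toFun := by fun_prop
            map_zero_left := fun t => ?_
            map_one_left := fun t => ?_
            prop' := ?_ }, fun st => ⟨?_, ?_⟩⟩
  · have := hGI 0 t trivial (Or.inr ⟨by simp, t.2⟩)
    simpa using this
  · have := hGI 1 t trivial (Or.inr ⟨by simp, t.2⟩)
    simpa using this
  · intro s t ht
    rcases ht with rfl | ht
    · have := hGI s 0 trivial (Or.inl ⟨s.2, by simp⟩)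
      simpa using this
    · rw [Set.mem_singleton_iff] at ht
      subst ht
      have := hGI s 1 trivial (Or.inl ⟨s.2, by simp⟩)
      simpa using this
  · have h3 : G (st.1, st.2) ∈ U := by
      have := hGU (st.1, st.2) ⟨st.1.2, st.2.2⟩ 1 (by simp)
      simpa using this
    exact h3
  · rintro ⟨r, hr, h2⟩
    exact hGK (st.1, st.2) ⟨st.1.2, st.2.2⟩ r hr h2.symm

end Paths

end H95F
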