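import Pool.Agent.Lib.H95G.Core

/-!
# Open regions around the closed cells, and transfer of walks

MP_7f673e_co.
-/

set_option linter.unusedSectionVars false

open scoped unitInterval Topology
open Set Metric Module

namespace H95F

variable {α β : Type*} {G : Graph α β}

section Metric

variable {Z : Type*} [MetricSpace Z]

/-- the union of the open `δ`-neighbourhoods of the closed cells with vertices in `A` -/
def reg (f : FullMap G Z) (δ : ℝ) (A : Set α) : Set Z :=
  {z | ∃ s : Cell G, s.verts ⊆ A ∧ z ∈ thickening δ (f.image s)}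

theorem isOpen_reg (f : FullMap G Z) (δ : ℝ) (A : Set α) : IsOpen (reg f δ A) := by
  have h : reg f δ A = ⋃ (s : Cell G) (_ : s.verts ⊆ A), thickening δ (f.image s) := by
    ext z
    simp [reg]
  rw [h]
  exact isOpen_iUnion fun s => isOpen_iUnion fun _ => isOpen_thickening

theorem reg_mono (f : FullMap G Z) (δ : ℝ) {A B : Set α} (h : A ⊆ B) :
    reg f δ A ⊆ reg f δ B := by
  rintro z ⟨s, hs, hz⟩
  exact ⟨s, hs.trans h, hz⟩

theorem big_sub_reg (f : FullMap G Z) {δ : ℝ} (hδ : 0 < δ) (A : Set α) :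
    f.big A ⊆ reg f δ A := by
  rintro z ⟨s, hs, hz⟩
  exact ⟨s, hs, self_subset_thickening hδ _ hz⟩

theorem image_compact (f : FullMap G Z) (s : Cell G) : IsCompact (f.image s) := by
  cases s with
  | vertex x h => exact isCompact_singleton
  | edge e h =>
    obtain ⟨x, y, hl⟩ := Graph.exists_isLink_of_mem_edgeSet h
    have h1 : f.image (.edge e h) = range (f.arc e x y) := by
      ext z
      constructor
      · rintro ⟨x', y', hl', t, rfl⟩
        rcases hl'.eq_and_eq_or_eq_and_eq hl with ⟨rfl, rfl⟩ | ⟨rfl, rfl⟩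
        · exact ⟨t, rfl⟩
        · exact ⟨σ t, (f.arc_symm hl t).symm⟩
      · rintro ⟨t, rfl⟩
        exact ⟨x, y, hl, t, rfl⟩
    rw [h1]
    exact isCompact_range (f.arc e x y).continuous
  | disc C h => exact isCompact_range (f.disc C h).continuous

theorem finite_cell (hV : G.vertexSet.Finite) (hE : G.edgeSet.Finite) : Finite (Cell G) := by
  have h1 : Finite G.vertexSet := hV
  have h2 : Finite G.edgeSet := hE
  have h3 : Finite {C : Set β // IsCycleSet G C} := by
    refine (hE.finite_subsets.subset ?_ : {C : Set β | IsCycleSet G C}.Finite)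
    rintro C ⟨x, w, hw, rfl⟩ e he
    have key : ∀ {x y : α} (p : Walk G x y), e ∈ p.edges → e ∈ G.edgeSet := by
      intro x y p
      induction p with
      | nil x => intro h; simp [Walk.edges] at h
      | cons e' h' p ih =>
        intro h
        rw [Walk.edges, List.mem_cons] at h
        rcases h with rfl | h
        · exact h'.edge_mem
        · exact ih h
    exact key w he
  let F : G.vertexSet ⊕ G.edgeSet ⊕ {C : Set β // IsCycleSet G C} → Cell G := fun o =>
    match o with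
    | .inl x => .vertex x.1 x.2
    | .inr (.inl e) => .edge e.1 e.2
    | .inr (.inr C) => .disc C.1 C.2
  refine Finite.of_surjective F ?_
  intro s
  cases s with
  | vertex x h => exact ⟨.inl ⟨x, h⟩, rfl⟩
  | edge e h => exact ⟨.inr (.inl ⟨e, h⟩), rfl⟩
  | disc C h => exact ⟨.inr (.inr ⟨C, h⟩), rfl⟩

theorem exists_delta (hV : G.vertexSet.Finite) (hE : G.edgeSet.Finite) (f : FullMap G Z)
    (hf : f.IsAlmostEmbedding) : ∃ δ : ℝ, 0 < δ ∧
      ∀ A B, Disjoint A B → Disjoint (reg f δ A) (reg f δ B) := by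
  have hfin := finite_cell hV hE
  have h1 : ∀ᶠ δ in 𝓝[>] (0 : ℝ), ∀ p : Cell G × Cell G, Disjoint p.1.verts p.2.verts →
      Disjoint (thickening δ (f.image p.1)) (thickening δ (f.image p.2)) := by
    rw [Filter.eventually_all]
    intro p
    by_cases hd : Disjoint p.1.verts p.2.verts
    · obtain ⟨δ, hδ, h⟩ := (hf _ _ hd).exists_thickenings (image_compact f p.1)
        (image_compact f p.2).isClosed
      filter_upwards [Ioo_mem_nhdsGT hδ] with ε hε _
      exact h.mono (thickening_mono hε.2.le _) (thickening_mono hε.2.le _)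
    · exact Filter.Eventually.of_forall (fun _ h => absurd h hd)
  obtain ⟨δ, h2, hδ⟩ := (h1.and self_mem_nhdsWithin).exists
  refine ⟨δ, hδ, fun A B hAB => ?_⟩
  rw [Set.disjoint_left]
  rintro z ⟨s, hs, hz⟩ ⟨t, ht, hz'⟩
  exact Set.disjoint_left.1 (h2 (s, t) (hAB.mono hs ht)) hz hz'

end Metric

section Push

variable {Z : Type*} [TopologicalSpace Z] {S : Set Z}

theorem HomIn.congr {x y x' y' : Z} {p q : Path x y} {p' q' : Path x' y'} (h : HomIn S p q)
    (hp : ∀ t, p' t = p t) (hq : ∀ t, q' t = q t) : HomIn S p' q' := by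
  obtain rfl : x = x' := by
    have := hp 0
    simpa using this.symm
  obtain rfl : y = y' := by
    have := hp 1
    simpa using this.symm
  obtain rfl : p' = p := by
    ext t
    exact hp t
  obtain rfl : q' = q := by
    ext t
    exact hq t
  exact h

theorem HomIn.left_mem {x y : Z} {p q : Path x y} (h : HomIn S p q) (t : I) : p t ∈ S := by
  obtain ⟨F, hF⟩ := h
  have := hF (0, t)
  rwa [show F (0, t) = p t from F.apply_zero t] at this

/-- conjugation by constant paths -/
theorem homIn_conj_const {a b x' y' : Z} {c : Path a x'} {d : Path b y'} {p : Path a b}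
    {p' : Path x' y'} (hc : ∀ t, c t = a) (hd : ∀ t, d t = b) (hp' : ∀ t, p' t = p t)
    (hp : ∀ t, p t ∈ S) : HomIn S p' (c.symm.trans (p.trans d)) := by
  obtain rfl : x' = a := by
    have := hc 1
    simpa using this
  obtain rfl : y' = b := by
    have := hd 1
    simpa using this
  obtain rfl : c = Path.refl x' := by
    ext t
    exact hc t
  obtain rfl : d = Path.refl y' := by
    ext t
    exact hd t
  obtain rfl : p' = p := by
    ext t
    exact hp' t
  rw [Path.refl_symm]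
  have h1 : ∀ t, (p'.trans (Path.refl y')) t ∈ S :=
    trans_mem hp (fun t => by simpa using hp 1)
  exact (homIn_trans_refl hp).symm.trans (homIn_refl_trans h1).symm

/-- composition of two conjugates -/
theorem homIn_conj_trans {a b c x y z : Z} {r : Path a x} {s : Path b y} {t : Path c z}
    {e : Path a b} {w : Path b c} (hr : ∀ u, r u ∈ S) (hs : ∀ u, s u ∈ S) (ht : ∀ u, t u ∈ S)
    (he : ∀ u, e u ∈ S) (hw : ∀ u, w u ∈ S) :
    HomIn S ((r.symm.trans (e.trans s)).trans (s.symm.trans (w.trans t)))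
      (r.symm.trans ((e.trans w).trans t)) := by
  have hr' : ∀ u, r.symm u ∈ S := fun u => hr _
  have hs' : ∀ u, s.symm u ∈ S := fun u => hs _
  have hwt := trans_mem hw ht
  have h1 := homIn_assoc hr' (trans_mem he hs) (trans_mem hs' hwt)
  have h2 := homIn_assoc he hs (trans_mem hs' hwt)
  have h3 : HomIn S (s.trans (s.symm.trans (w.trans t))) (w.trans t) :=
    (homIn_assoc hs hs' hwt).symm.trans
      (((homIn_trans_symm hs).hcomp (HomIn.refl hwt)).trans (homIn_refl_trans hwt))
  have h4 : HomIn S (e.trans (s.trans (s.symm.trans (w.trans t)))) ((e.trans w).trans t) :=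
    ((HomIn.refl he).hcomp h3).trans (homIn_assoc he hw ht).symm
  exact h1.trans ((HomIn.refl hr').hcomp (h2.trans h4))

/-- the reverse of a conjugate -/
theorem homIn_conj_symm {a b x y : Z} {r : Path a x} {s : Path b y} {e : Path a b} {p : Path x y}
    (hr : ∀ u, r u ∈ S) (hs : ∀ u, s u ∈ S) (he : ∀ u, e u ∈ S)
    (h : HomIn S p (r.symm.trans (e.trans s))) :
    HomIn S p.symm (s.symm.trans (e.symm.trans r)) := by
  have h1 := h.symm₂
  rw [Path.trans_symm, Path.trans_symm, Path.symm_symm] at h1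
  exact h1.trans (homIn_assoc (fun u => hs _) (fun u => he _) hr)

/-- Walks of `H` are homotopic to conjugates of walks of `G`. -/
theorem push (f : FullMap G Z) (U : Set α → Set Z) (hU : ∀ A, f.big A ⊆ U A)
    (hmono : ∀ A B, A ⊆ B → U A ⊆ U B) {H : Graph α β} (D : Drawing H Z) (φ : α → α)
    (ρ : ∀ x, Path (f.pt (φ x)) (D.pt x))
    (hρ : ∀ x ∈ H.vertexSet, ∀ t, ρ x t ∈ U {φ x})
    (hl : ∀ {e x y} (h : H.IsLink e x y), ∃ (e' : β) (h' : G.IsLink e' (φ x) (φ y)),
      HomIn (U {φ x, φ y}) (D.path h) ((ρ x).symm.trans ((f.path h').trans (ρ y))))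
    {A : Set α} {x y : α} (p : Walk H x y) (hx : x ∈ H.vertexSet)
    (hA : ∀ u ∈ p.support, u ∈ A) :
    ∃ w : Walk G (φ x) (φ y), (∀ u ∈ w.support, u ∈ φ '' A) ∧
      HomIn (U (φ '' A)) (D.hol p) ((ρ x).symm.trans ((f.hol w).trans (ρ y))) := by
  induction p with
  | nil x =>
    have h1 : x ∈ A := hA x (by simp [Walk.support])
    have hsub : U {φ x} ⊆ U (φ '' A) := hmono _ _ (by simpa using ⟨x, h1, rfl⟩)
    have hr : ∀ t, ρ x t ∈ U (φ '' A) := fun t => hsub (hρ x hx t)
    refine ⟨.nil _, ?_, ?_⟩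
    · intro u hu
      simp only [Walk.support, List.mem_singleton] at hu
      exact hu ▸ ⟨x, h1, rfl⟩
    · refine (homIn_symm_trans hr).symm.trans ?_
      have hrs : ∀ t, (ρ x).symm t ∈ U (φ '' A) := fun t => hr _
      exact (HomIn.refl hrs).hcomp (homIn_refl_trans hr).symm
  | @cons x y z e h p ih =>
    have hA' : ∀ u ∈ p.support, u ∈ A := fun u hu => hA u (by simp [Walk.support, hu])
    have hxA : x ∈ A := hA x (by simp [Walk.support])
    have hyA : y ∈ A := hA' y p.start_mem_support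
    have hzA : z ∈ A := hA' z p.end_mem_support
    have hz : z ∈ H.vertexSet := p.mem_vertexSet h.right_mem p.end_mem_support
    obtain ⟨w, hwA, hpw⟩ := ih h.right_mem hA'
    obtain ⟨e', h', hew⟩ := hl h
    have hsub : ({φ x, φ y} : Set α) ⊆ φ '' A := by
      rintro u (rfl | rfl)
      · exact ⟨x, hxA, rfl⟩
      · exact ⟨y, hyA, rfl⟩
    have hpt : ∀ {u}, u ∈ A → u ∈ H.vertexSet → ∀ t, ρ u t ∈ U (φ '' A) := fun {u} hu hu' t =>
      hmono _ _ (by simpa using ⟨u, hu, rfl⟩) (hρ u hu' t)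
    refine ⟨.cons e' h' w, ?_, ?_⟩
    · intro u hu
      simp only [Walk.support, List.mem_cons] at hu
      rcases hu with rfl | hu
      · exact ⟨x, hxA, rfl⟩
      · exact hwA u hu
    · refine ((hew.mono (hmono _ _ hsub)).hcomp hpw).trans ?_
      exact homIn_conj_trans (hpt hxA hx) (hpt hyA h.right_mem) (hpt hzA hz)
        (fun t => hU (φ '' A) (path_mem_big f h' (Set.mem_image_of_mem φ hxA)
          (Set.mem_image_of_mem φ hyA) t))
        (fun t => hU _ (walk_mem_big f w h'.right_mem hwA t))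

/-- closed walks of `H` are null-homotopic -/
theorem push_null (f : FullMap G Z) (U : Set α → Set Z) (hU : ∀ A, f.big A ⊆ U A)
    (hmono : ∀ A B, A ⊆ B → U A ⊆ U B) {H : Graph α β} (D : Drawing H Z) (φ : α → α)
    (hφ : ∀ x ∈ H.vertexSet, φ x ∈ G.vertexSet) (ρ : ∀ x, Path (f.pt (φ x)) (D.pt x))
    (hρ : ∀ x ∈ H.vertexSet, ∀ t, ρ x t ∈ U {φ x})
    (hl : ∀ {e x y} (h : H.IsLink e x y), ∃ (e' : β) (h' : G.IsLink e' (φ x) (φ y)),
      HomIn (U {φ x, φ y}) (D.path h) ((ρ x).symm.trans ((f.path h').trans (ρ y))))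
    {A : Set α} {x : α} (p : Walk H x x) (hx : x ∈ H.vertexSet)
    (hA : ∀ u ∈ p.support, u ∈ A) : HomIn (U (φ '' A)) (D.hol p) (Path.refl (D.pt x)) := by
  obtain ⟨w, hwA, h⟩ := push f U hU hmono D φ ρ hρ hl p hx hA
  have h1 := (closed_null f w (hφ x hx) hwA).mono (hU _)
  have hr : ∀ t, ρ x t ∈ U (φ '' A) := fun t =>
    hmono _ _ (by simpa using ⟨x, hA x p.start_mem_support, rfl⟩) (hρ x hx t)
  have hrs : ∀ t, (ρ x).symm t ∈ U (φ '' A) := fun t => hr _
  refine h.trans (((HomIn.refl hrs).hcomp (h1.hcomp (HomIn.refl hr))).trans ?_)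
  exact ((HomIn.refl hrs).hcomp (homIn_refl_trans hr)).trans (homIn_symm_trans hr)

end Push

section Arcs

variable {E : Type*} [NormedAddCommGroup E] [NormedSpace ℝ E] [FiniteDimensional ℝ E]

/-- moving a path off finitely many `C^1` arcs, by a homotopy, to a `C^1` path -/
theorem exists_arc {ι : Type*} (hd : 2 < finrank ℝ E) {x y : E} {U : Set E} (hU : IsOpen U)
    (p : Path x y) (hp : ∀ t, p t ∈ U) (γ : ι → ℝ → E) (hγ : ∀ i, ContDiff ℝ 1 (γ i))
    (s : Finset ι) (hx : ∀ i ∈ s, x ∉ γ i '' Icc 0 1) (hy : ∀ i ∈ s, y ∉ γ i '' Icc 0 1) :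
    ∃ c : ℝ → E, ContDiff ℝ 1 c ∧ ∃ q : Path x y, (∀ t : I, q t = c t) ∧
      (∀ t, q t ∈ U ∧ ∀ i ∈ s, q t ∉ γ i '' Icc 0 1) ∧ HomIn U p q := by
  classical
  have hopen : ∀ s : Finset ι, IsOpen {z | z ∈ U ∧ ∀ i ∈ s, z ∉ γ i '' Icc 0 1} := by
    intro s
    have h2 : {z | z ∈ U ∧ ∀ i ∈ s, z ∉ γ i '' Icc 0 1} =
        U ∩ ⋂ i ∈ s, (γ i '' Icc 0 1)ᶜ := by
      ext z
      simp
    rw [h2]
    exact hU.inter (isOpen_biInter_finset fun j _ =>
      (isCompact_Icc.image (hγ j).continuous).isClosed.isOpen_compl)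
  have h1 : ∃ q : Path x y, (∀ t, q t ∈ U ∧ ∀ i ∈ s, q t ∉ γ i '' Icc 0 1) ∧ HomIn U p q := by
    induction s using Finset.induction_on with
    | empty => exact ⟨p, fun t => ⟨hp t, by simp⟩, HomIn.refl hp⟩
    | insert i s his ih =>
      obtain ⟨q, hq, hpq⟩ := ih (fun j hj => hx j (Finset.mem_insert_of_mem hj))
        (fun j hj => hy j (Finset.mem_insert_of_mem hj))
      obtain ⟨q', hq', hqq'⟩ := move_path hd (hopen s) q hq (γ i) (hγ i)
        (hx i (Finset.mem_insert_self _ _)) (hy i (Finset.mem_insert_self _ _))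
      refine ⟨q', fun t => ⟨(hq' t).1.1, fun j hj => ?_⟩,
        hpq.trans (hqq'.mono fun z hz => hz.1)⟩
      rcases Finset.mem_insert.1 hj with rfl | hj
      · exact (hq' t).2
      · exact (hq' t).1.2 j hj
  obtain ⟨q, hq, hpq⟩ := h1
  obtain ⟨c, hc, q', hq'c, hq', hqq'⟩ := smooth_path (hopen s) q hq
  exact ⟨c, hc, q', hq'c, hq', hpq.trans (hqq'.mono fun z hz => hz.1)⟩

/-- a point near `x` off finitely many `C^1` arcs, with a path in `U` -/
theorem exists_near {ι : Type*} [Finite ι] (hd : 1 < finrank ℝ E) {x : E} {U : Set E}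
    (hU : IsOpen U) (hx : x ∈ U) (γ : ι → ℝ → E) (hγ : ∀ i, ContDiff ℝ 1 (γ i)) :
    ∃ (y : E) (ρ : Path x y), (∀ t, ρ t ∈ U) ∧ ∀ i, y ∉ γ i '' Icc 0 1 := by
  have := FiniteDimensional.complete ℝ E
  obtain ⟨r, hr, hball⟩ := Metric.isOpen_iff.1 hU x hx
  have hdense : Dense (⋂ i, (γ i '' Icc 0 1)ᶜ) := by
    refine dense_iInter_of_isOpen
      (fun i => (isCompact_Icc.image (hγ i).continuous).isClosed.isOpen_compl) (fun i => ?_)
    refine ((hγ i).dense_compl_range_of_finrank_lt_finrank ?_).mono ?_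
    · rw [finrank_self]
      exact hd
    · exact Set.compl_subset_compl.2 (image_subset_range _ _)
  obtain ⟨y, hy, hyb⟩ := hdense.exists_mem_open isOpen_ball ⟨x, mem_ball_self hr⟩
  refine ⟨y, ⟨⟨fun t : I => x + (t : ℝ) • (y - x), by fun_prop⟩, by simp, by simp⟩, ?_, ?_⟩
  · intro t
    apply hball
    have h1 : x + (t : ℝ) • (y - x) ∈ ball x r := by
      rw [mem_ball, dist_eq_norm, add_sub_cancel_left, norm_smul, Real.norm_of_nonneg t.2.1]
      calc (t : ℝ) * ‖y - x‖ ≤ 1 * ‖y - x‖ := by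
            gcongr
            exact t.2.2
        _ < r := by rw [one_mul, ← dist_eq_norm]; exact hyb
    exact h1
  · intro i
    have := Set.mem_iInter.1 hy i
    exact this

end Arcs

end H95F
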