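import Pool.Agent.Lib.H95G.Regions

/-!
# Small sets and discs with small image

MP_7f673e_co.
-/

set_option linter.unusedSectionVars false

open scoped unitInterval Topology
open Set Metric Module

namespace H95F

section Small

variable {E : Type*} [NormedAddCommGroup E] [NormedSpace ℝ E]

/-- compact, and covered by countably many `C^1` images of `V` -/
def Small (V : Type) [NormedAddCommGroup V] [NormedSpace ℝ V] (S : Set E) : Prop :=
  IsCompact S ∧ ∃ (ι : Type) (_ : Countable ι) (g : ι → V → E), (∀ k, ContDiff ℝ 1 (g k)) ∧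
    S ⊆ ⋃ k, range (g k)

variable {V : Type} [NormedAddCommGroup V] [NormedSpace ℝ V]

theorem small_empty : Small V (∅ : Set E) :=
  ⟨isCompact_empty, Empty, inferInstance, fun k => k.elim, fun k => k.elim, empty_subset _⟩

theorem Small.union {S T : Set E} (hS : Small V S) (hT : Small V T) : Small V (S ∪ T) := by
  obtain ⟨h1, ι, _, g, hg, hgS⟩ := hS
  obtain ⟨h2, κ, _, g', hg', hgT⟩ := hT
  refine ⟨h1.union h2, ι ⊕ κ, inferInstance, Sum.elim g g', ?_, ?_⟩
  · rintro (k | k)
    · exact hg k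
    · exact hg' k
  · rintro z (hz | hz)
    · obtain ⟨k, hk⟩ := Set.mem_iUnion.1 (hgS hz)
      exact Set.mem_iUnion.2 ⟨Sum.inl k, hk⟩
    · obtain ⟨k, hk⟩ := Set.mem_iUnion.1 (hgT hz)
      exact Set.mem_iUnion.2 ⟨Sum.inr k, hk⟩

theorem Small.iUnion {κ : Type*} [Finite κ] {S : κ → Set E} (hS : ∀ k, Small V (S k)) :
    Small V (⋃ k, S k) := by
  have key : ∀ s : Set κ, s.Finite → Small V (⋃ k ∈ s, S k) := by
    intro s hs
    induction s, hs using Set.Finite.induction_on with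
    | empty => simpa using small_empty
    | @insert a s _ _ ih =>
      rw [Set.biUnion_insert]
      exact (hS a).union ih
  simpa using key univ Set.finite_univ

theorem Small.inter {S T : Set E} (hS : Small V S) (hT : IsClosed T) : Small V (S ∩ T) := by
  obtain ⟨h1, ι, hι, g, hg, hgS⟩ := hS
  exact ⟨h1.inter_right hT, ι, hι, g, hg, Set.inter_subset_left.trans hgS⟩

theorem small_singleton (x : E) : Small V ({x} : Set E) :=
  ⟨isCompact_singleton, Unit, inferInstance, fun _ _ => x, fun _ => contDiff_const, by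
    rintro z rfl
    exact Set.mem_iUnion.2 ⟨(), ⟨0, rfl⟩⟩⟩

/-- a curve is one-dimensional -/
theorem small_curve {γ : ℝ → E} (hγ : ContDiff ℝ 1 γ) : Small ℝ (γ '' Icc 0 1) :=
  ⟨isCompact_Icc.image hγ.continuous, Unit, inferInstance, fun _ => γ, fun _ => hγ, by
    rintro z ⟨t, -, rfl⟩
    exact Set.mem_iUnion.2 ⟨(), ⟨t, rfl⟩⟩⟩

theorem Small.two {S : Set E} (hS : Small ℝ S) : Small (ℝ × ℝ) S := by
  obtain ⟨h1, ι, hι, g, hg, hgS⟩ := hS
  refine ⟨h1, ι, hι, fun k q => g k q.1, fun k => (hg k).comp contDiff_fst, ?_⟩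
  intro z hz
  obtain ⟨k, t, rfl⟩ := Set.mem_iUnion.1 (hgS hz)
  exact Set.mem_iUnion.2 ⟨k, (t, 0), rfl⟩

variable [FiniteDimensional ℝ E] {W : Type} [NormedAddCommGroup W] [NormedSpace ℝ W]
  [FiniteDimensional ℝ V] [FiniteDimensional ℝ W]

theorem dense_avoid (hd : finrank ℝ V + finrank ℝ W < finrank ℝ E) {P : V → E}
    (hP : ContDiff ℝ 1 P) {ι : Type} [Countable ι] {g : ι → W → E}
    (hg : ∀ k, ContDiff ℝ 1 (g k)) :
    Dense (⋃ k, range (fun q : V × W => g k q.2 - P q.1))ᶜ := by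
  apply dense_compl_of_dimH_lt_finrank
  rw [dimH_iUnion]
  refine lt_of_le_of_lt (iSup_le fun k => ?_) (b := (finrank ℝ (V × W) : ENNReal)) ?_
  · exact (((hg k).comp contDiff_snd).sub (hP.comp contDiff_fst)).dimH_range_le
  · rw [finrank_prod]
    exact_mod_cast hd

/-- general position against small sets -/
theorem gpS (hd : finrank ℝ V + finrank ℝ W < finrank ℝ E) (F : V → E) (hF : Continuous F)
    {K L : Set V} (hK : IsCompact K) (hL : IsCompact L) {U : Set E} (hU : IsOpen U)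
    (hFU : ∀ x ∈ K, F x ∈ U) {Γ : Set E} (hΓ : Small W Γ) (hLΓ : ∀ x ∈ L, F x ∉ Γ) :
    ∃ G : V → E, Continuous G ∧ (∀ x ∈ L, G x = F x) ∧ (∀ x ∈ K, G x ∉ Γ) ∧
      ∀ x ∈ K, ∀ s ∈ Icc (0 : ℝ) 1, F x + s • (G x - F x) ∈ U := by
  rcases Γ.eq_empty_or_nonempty with rfl | hΓn
  · refine ⟨F, hF, fun _ _ => rfl, fun _ _ => by simp, fun x hx s _ => ?_⟩
    simpa using hFU x hx
  obtain ⟨hΓc, ι, _, g, hg, hgΓ⟩ := hΓ
  obtain ⟨δ₁, hδ₁, hdis⟩ : ∃ δ : ℝ, 0 < δ ∧ ∀ x ∈ L, δ ≤ infDist (F x) Γ := by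
    have h1 : Disjoint (F '' L) Γ := by
      rw [Set.disjoint_left]
      rintro _ ⟨x, hx, rfl⟩ h
      exact hLΓ x hx h
    obtain ⟨δ, hδ, h2⟩ := h1.exists_thickenings (hL.image hF) hΓc.isClosed
    refine ⟨δ, hδ, fun x hx => ?_⟩
    by_contra h3
    push Not at h3
    obtain ⟨y, hy, h4⟩ := (infDist_lt_iff hΓn).1 h3
    refine Set.disjoint_left.1 h2 (self_subset_thickening hδ _ (mem_image_of_mem F hx)) ?_
    exact mem_thickening_iff.2 ⟨y, hy, h4⟩
  obtain ⟨δ₂, hδ₂, hthick⟩ : ∃ δ : ℝ, 0 < δ ∧ thickening δ (F '' K) ⊆ U :=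
    (hK.image hF).exists_thickening_subset_open hU (by rintro _ ⟨x, hx, rfl⟩; exact hFU x hx)
  obtain ⟨ε, hε, hε1, hε2⟩ : ∃ ε : ℝ, 0 < ε ∧ 2 * ε ≤ δ₁ / 2 ∧ 2 * ε ≤ δ₂ :=
    ⟨min (δ₁ / 4) (δ₂ / 2), by positivity, by
      linarith [min_le_left (δ₁ / 4) (δ₂ / 2)], by linarith [min_le_right (δ₁ / 4) (δ₂ / 2)]⟩
  obtain ⟨P, hP, hPF, -⟩ := hF.exists_contDiff_approx (n := 1) (ε := fun _ => ε)
    continuous_const (fun _ => hε)
  have hP1 : ContDiff ℝ 1 P := by exact_mod_cast hP
  obtain ⟨w, hw, hwn⟩ : ∃ w : E, w ∉ (⋃ k, range (fun q : V × W => g k q.2 - P q.1)) ∧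
      ‖w‖ < ε := by
    obtain ⟨w, hw1, hw2⟩ := (dense_avoid hd hP1 hg).exists_mem_open isOpen_ball
      ⟨(0 : E), mem_ball_self hε⟩
    exact ⟨w, hw1, by simpa using hw2⟩
  let φ : V → ℝ := fun x => min 1 (max 0 (2 - 2 * infDist (F x) Γ / δ₁))
  have hφc : Continuous φ := by
    have : Continuous fun x => infDist (F x) Γ := (continuous_infDist_pt Γ).comp hF
    fun_prop
  have hφ0 : ∀ x, 0 ≤ φ x := fun x => le_min zero_le_one (le_max_left _ _)
  have hφ1 : ∀ x, φ x ≤ 1 := fun x => min_le_left _ _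
  have hsm : ∀ x, ‖P x + w - F x‖ < 2 * ε := by
    intro x
    have h1 : ‖P x - F x‖ < ε := by rw [← dist_eq_norm]; exact hPF x
    calc ‖P x + w - F x‖ = ‖(P x - F x) + w‖ := by congr 1; abel
      _ ≤ ‖P x - F x‖ + ‖w‖ := norm_add_le _ _
      _ < 2 * ε := by linarith
  have hsm2 : ∀ x, ∀ s : ℝ, 0 ≤ s → s ≤ 1 → ‖s • (P x + w - F x)‖ < 2 * ε := by
    intro x s h0 h1
    rw [norm_smul, Real.norm_of_nonneg h0]
    calc s * ‖P x + w - F x‖ ≤ 1 * ‖P x + w - F x‖ := by gcongr
      _ < 2 * ε := by rw [one_mul]; exact hsm x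
  refine ⟨fun x => F x + φ x • (P x + w - F x), ?_, ?_, ?_, ?_⟩
  · have := hP1.continuous
    fun_prop
  · intro x hx
    have h1 : φ x = 0 := by
      have h2 := hdis x hx
      have h3 : (2 : ℝ) ≤ 2 * infDist (F x) Γ / δ₁ := by
        rw [le_div_iff₀ hδ₁]; linarith
      simp only [φ]
      rw [max_eq_left (by linarith)]
      simp
    simp [h1]
  · intro x hx h
    rcases lt_or_ge (δ₁ / 2) (infDist (F x) Γ) with h1 | h1
    · have h2 : infDist (F x) Γ ≤ dist (F x) (F x + φ x • (P x + w - F x)) :=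
        infDist_le_dist_of_mem h
      have h3 : dist (F x) (F x + φ x • (P x + w - F x)) < 2 * ε := by
        rw [dist_eq_norm]
        have h4 : F x - (F x + φ x • (P x + w - F x)) = - (φ x • (P x + w - F x)) := by abel
        rw [h4, norm_neg]
        exact hsm2 x _ (hφ0 x) (hφ1 x)
      linarith
    · have h2 : φ x = 1 := by
        have h3 : 2 * infDist (F x) Γ / δ₁ ≤ 1 := by
          rw [div_le_iff₀ hδ₁]; linarith
        simp only [φ]
        exact min_eq_left (le_trans (by linarith) (le_max_right _ _))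
      apply hw
      obtain ⟨k, u, hu⟩ := Set.mem_iUnion.1 (hgΓ h)
      refine Set.mem_iUnion.2 ⟨k, (x, u), ?_⟩
      simp only [h2, one_smul] at hu
      simp only
      rw [hu]
      abel
  · intro x hx s hs
    apply hthick
    rw [mem_thickening_iff]
    refine ⟨F x, mem_image_of_mem F hx, ?_⟩
    rw [dist_eq_norm]
    have h1 : F x + s • (F x + φ x • (P x + w - F x) - F x) - F x =
        (s * φ x) • (P x + w - F x) := by
      rw [add_sub_cancel_left, add_sub_cancel_left, smul_smul]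
    rw [h1]
    exact (hsm2 x _ (mul_nonneg hs.1 (hφ0 x)) (mul_le_one₀ hs.2 (hφ0 x) (hφ1 x))).trans_le hε2

/-- a path can be moved off a small set -/
theorem pushPath (hd : 1 + finrank ℝ W < finrank ℝ E) {x y : E} {U : Set E} (hU : IsOpen U)
    (p : Path x y) (hp : ∀ t, p t ∈ U) {Γ : Set E} (hΓ : Small W Γ) (hx : x ∉ Γ) (hy : y ∉ Γ) :
    ∃ q : Path x y, (∀ t, q t ∈ U \ Γ) ∧ HomIn U p q := by
  obtain ⟨G, hG, hGL, hGK, hGU⟩ := gpS (V := ℝ) (by rw [finrank_self]; exact hd) p.extend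
    p.continuous_extend (K := Icc 0 1) (L := {0, 1}) isCompact_Icc (by
      exact (Set.toFinite _).isCompact) hU (by
      intro t ht
      rw [p.extend_apply ht]
      exact hp _) hΓ (by
      rintro t (rfl | rfl)
      · rw [p.extend_zero]; exact hx
      · rw [p.extend_one]; exact hy)
  have h0 : G 0 = x := by rw [hGL 0 (by simp), p.extend_zero]
  have h1 : G 1 = y := by rw [hGL 1 (by simp), p.extend_one]
  let q : Path x y := ⟨⟨fun t : I => G t, by fun_prop⟩, by simpa using h0, by simpa using h1⟩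
  have hline : ∀ t : I, ∀ s ∈ Icc (0 : ℝ) 1, p t + s • (q t - p t) ∈ U := by
    intro t s hs
    have := hGU t t.2 s hs
    rwa [p.extend_apply t.2] at this
  refine ⟨q, fun t => ⟨?_, hGK t t.2⟩, homIn_line hline⟩
  have := hline t 1 (by simp)
  simpa using this

/-- a homotopy of paths can be moved off a small set -/
theorem pushHom (hd : 2 + finrank ℝ W < finrank ℝ E) {x y : E} {U : Set E} (hU : IsOpen U)
    {p q : Path x y} (h : HomIn U p q) {Γ : Set E} (hΓ : Small W Γ) (hp : ∀ t, p t ∉ Γ)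
    (hq : ∀ t, q t ∉ Γ) : HomIn (U \ Γ) p q := by
  obtain ⟨H, hH⟩ := h
  let F : ℝ × ℝ → E := fun st => H (projIcc 0 1 zero_le_one st.1, projIcc 0 1 zero_le_one st.2)
  have hF : Continuous F := by
    have h1 : Continuous (projIcc (0 : ℝ) 1 zero_le_one) := continuous_projIcc
    exact H.continuous.comp ((h1.comp continuous_fst).prodMk (h1.comp continuous_snd))
  have hFI : ∀ s t : I, F (s, t) = H (s, t) := by
    intro s t
    simp [F]
  let L : Set (ℝ × ℝ) := ((Icc 0 1) ×ˢ {0, 1}) ∪ ({0, 1} ×ˢ (Icc 0 1))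
  have h01 : IsCompact ({0, 1} : Set ℝ) := (Set.toFinite _).isCompact
  have hL : IsCompact L := (isCompact_Icc.prod h01).union (h01.prod isCompact_Icc)
  have hx : x ∉ Γ := by simpa using hp 0
  have hy : y ∉ Γ := by simpa using hp 1
  obtain ⟨G, hG, hGL, hGK, hGU⟩ := gpS (V := ℝ × ℝ) (by
      rw [finrank_prod, finrank_self]; exact hd) F
    hF (K := Icc 0 1 ×ˢ Icc 0 1) (L := L) (isCompact_Icc.prod isCompact_Icc) hL hU (by
      rintro ⟨s, t⟩ -
      exact hH _) hΓ (by
      rintro ⟨s, t⟩ hst h2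
      rcases hst with ⟨hs, ht⟩ | ⟨hs, ht⟩
      · rcases ht with ht | ht
        · obtain rfl : t = 0 := ht
          apply hx
          have := hFI ⟨s, hs⟩ 0
          simp only [Icc.coe_zero] at this
          rw [this] at h2
          rwa [Path.Homotopy.source H] at h2
        · obtain rfl : t = 1 := ht
          apply hy
          have := hFI ⟨s, hs⟩ 1
          simp only [Icc.coe_one] at this
          rw [this] at h2
          rwa [Path.Homotopy.target H] at h2
      · rcases hs with hs | hs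
        · obtain rfl : s = 0 := hs
          apply hp ⟨t, ht⟩
          have := hFI 0 ⟨t, ht⟩
          simp only [Icc.coe_zero] at this
          rw [this] at h2
          rwa [H.apply_zero] at h2
        · obtain rfl : s = 1 := hs
          apply hq ⟨t, ht⟩
          have := hFI 1 ⟨t, ht⟩
          simp only [Icc.coe_one] at this
          rw [this] at h2
          rwa [H.apply_one] at h2)
  have hGI : ∀ s t : I, ((s : ℝ), (t : ℝ)) ∈ L → G (s, t) = H (s, t) := by
    intro s t hst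
    rw [hGL _ hst, hFI]
  refine ⟨{ toFun := fun st => G (st.1, st.2)
            continuous_toFun := by fun_prop
            map_zero_left := fun t => ?_
            map_one_left := fun t => ?_
            prop' := ?_ }, fun st => ⟨?_, ?_⟩⟩
  · have := hGI 0 t (Or.inr ⟨by simp, t.2⟩)
    simpa using this
  · have := hGI 1 t (Or.inr ⟨by simp, t.2⟩)
    simpa using this
  · intro s t ht
    rcases ht with rfl | ht
    · have := hGI s 0 (Or.inl ⟨s.2, by simp⟩)
      simpa using this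
    · rw [Set.mem_singleton_iff] at ht
      subst ht
      have := hGI s 1 (Or.inl ⟨s.2, by simp⟩)
      simpa using this
  · have h3 : G (st.1, st.2) ∈ U := by
      have := hGU (st.1, st.2) ⟨st.1.2, st.2.2⟩ 1 (by simp)
      simpa using this
    exact h3
  · exact hGK (st.1, st.2) ⟨st.1.2, st.2.2⟩

end Small

end H95F
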