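import Pool.Agent.Lib.H95G.Triple

/-!
# Tame almost embeddings

MP_7f673e_co. An almost embedding of the full complex of `G` is replaced, on a subgraph `Gm` and on
the disc of a triangle `a, b, c` of `G`, by one with small cells in general position.
-/

set_option linter.unusedSectionVars false

open scoped unitInterval Topology
open Set Metric Module

namespace H95F

variable {α β : Type*} {G Gm : Graph α β}
variable {E : Type*} [NormedAddCommGroup E] [NormedSpace ℝ E]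

theorem closure_reg [Finite (Cell G)] (f : FullMap G E) {δ' δ : ℝ} (h0 : 0 < δ) (h : δ' < δ)
    (A : Set α) : closure (reg f δ' A) ⊆ reg f δ A := by
  have h1 : reg f δ' A = ⋃ s : {s : Cell G // s.verts ⊆ A}, thickening δ' (f.image s.1) := by
    ext z
    simp [reg]
  rw [h1, closure_iUnion_of_finite]
  intro z hz
  obtain ⟨s, hs⟩ := Set.mem_iUnion.1 hz
  exact ⟨s.1, s.2, cthickening_subset_thickening' h0 h _
    (closure_thickening_subset_cthickening _ _ hs)⟩

theorem PW.congr {x y x' y' : E} {p : Path x y} {q : Path x' y'} (hp : PW p)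
    (h : ∀ t, q t = p t) : PW q := by
  obtain ⟨ι, hι, g, hg, hpg⟩ := hp
  refine ⟨ι, hι, g, hg, fun t => ?_⟩
  obtain ⟨k, hk⟩ := hpg t
  exact ⟨k, (h t).trans hk⟩

/-- the union of the sets of the closed cells with vertices in `A` -/
def Cc (S : Cell Gm → Set E) (A : Set α) : Set E := {z | ∃ s : Cell Gm, s.verts ⊆ A ∧ z ∈ S s}

theorem Cc_mono (S : Cell Gm → Set E) {A B : Set α} (h : A ⊆ B) : Cc S A ⊆ Cc S B := by
  rintro z ⟨s, hs, hz⟩
  exact ⟨s, hs.trans h, hz⟩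

theorem Cc_sub {f : FullMap G E} {δ : ℝ} {S : Cell Gm → Set E}
    (hS : ∀ s, S s ⊆ reg f δ s.verts) (A : Set α) : Cc S A ⊆ reg f δ A := by
  rintro z ⟨s, hs, hz⟩
  exact reg_mono f δ hs (hS s hz)

variable [FiniteDimensional ℝ E]

theorem Cc_small [Finite (Cell Gm)] {S : Cell Gm → Set E} (hS : ∀ s, Small (ℝ × ℝ) (S s))
    (A : Set α) : Small (ℝ × ℝ) (Cc S A) := by
  have h1 : Cc S A = ⋃ s : {s : Cell Gm // s.verts ⊆ A}, S s.1 := by
    ext z
    simp [Cc]
  rw [h1]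
  exact Small.iUnion fun s => hS s.1

/-- the arcs: smooth arcs for all edges -/
theorem exists_arcs (hloop : ∀ e x, ¬ G.IsLink e x x) (f : FullMap G E) {δ : ℝ} (hδ : 0 < δ) :
    ∃ (arc : β → α → α → C(I, E)) (h0 : ∀ {e x y}, G.IsLink e x y → arc e x y 0 = f.pt x)
      (h1 : ∀ {e x y}, G.IsLink e x y → arc e x y 1 = f.pt y)
      (_ : ∀ {e x y}, G.IsLink e x y → ∀ t, arc e y x t = arc e x y (σ t))
      (c : β → ℝ → E), (∀ e, ContDiff ℝ 1 (c e)) ∧
      (∀ {e x y}, G.IsLink e x y → ∀ t, arc e x y t ∈ c e '' Icc 0 1) ∧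
      (∀ {e x y}, G.IsLink e x y → c e '' Icc 0 1 ⊆ reg f δ {x, y}) ∧
      (∀ {e x y} (h : G.IsLink e x y), PW (⟨arc e x y, h0 h, h1 h⟩ : Path (f.pt x) (f.pt y))) ∧
      (∀ {e x y} (h : G.IsLink e x y), HomIn (reg f δ {x, y})
        (⟨arc e x y, h0 h, h1 h⟩ : Path (f.pt x) (f.pt y)) (f.path h)) := by
  classical
  have hex : ∀ e : G.edgeSet, ∃ x y, ∃ h : G.IsLink e.1 x y, ∃ cc : ℝ → E, ContDiff ℝ 1 cc ∧
      ∃ q : Path (f.pt x) (f.pt y), (∀ t : I, q t = cc t) ∧ (∀ t, q t ∈ reg f δ {x, y}) ∧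
        HomIn (reg f δ {x, y}) (f.path h) q := by
    rintro ⟨e, he⟩
    obtain ⟨x, y, h⟩ := Graph.exists_isLink_of_mem_edgeSet he
    obtain ⟨cc, hcc, q, hq1, hq2, hq3⟩ := smooth_path (isOpen_reg f δ {x, y}) (f.path h)
      (fun t => big_sub_reg f hδ _ (path_mem_big f h (by simp) (by simp) t))
    exact ⟨x, y, h, cc, hcc, q, hq1, hq2, hq3⟩
  choose X Y hXY c hc q hq1 hq2 hq3 using hex
  have hne : ∀ e, X e ≠ Y e := fun e h => hloop e.1 (X e) (by
    have := hXY e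
    rwa [← h] at this)
  let arc : β → α → α → C(I, E) := fun e x y =>
    if he : e ∈ G.edgeSet then
      (if x = X ⟨e, he⟩ then (q ⟨e, he⟩).toContinuousMap else (q ⟨e, he⟩).symm.toContinuousMap)
    else ContinuousMap.const _ 0
  let c' : β → ℝ → E := fun e => if he : e ∈ G.edgeSet then c ⟨e, he⟩ else fun _ => 0
  have hc' : ∀ e (he : e ∈ G.edgeSet), c' e = c ⟨e, he⟩ := fun e he => dif_pos he
  have hcase : ∀ (e : G.edgeSet) {x y} (_ : G.IsLink e.1 x y),
      (x = X e ∧ y = Y e ∧ ∀ t, arc e.1 x y t = q e t) ∨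
      (x = Y e ∧ y = X e ∧ ∀ t, arc e.1 x y t = q e (σ t)) := by
    rintro ⟨e, he⟩ x y h
    rcases h.eq_and_eq_or_eq_and_eq (hXY ⟨e, he⟩) with ⟨hx, hy⟩ | ⟨hx, hy⟩
    · refine Or.inl ⟨hx, hy, fun t => ?_⟩
      simp only [arc]
      rw [dif_pos he, if_pos hx]
      rfl
    · refine Or.inr ⟨hx, hy, fun t => ?_⟩
      simp only [arc]
      rw [dif_pos he, if_neg (by rw [hx]; exact (hne _).symm)]
      rfl
  have h0' : ∀ (e : G.edgeSet) {x y}, G.IsLink e.1 x y → arc e.1 x y 0 = f.pt x := by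
    intro e x y h
    rcases hcase e h with ⟨hx, hy, ht⟩ | ⟨hx, hy, ht⟩
    · rw [ht, Path.source, hx]
    · rw [ht, unitInterval.symm_zero, Path.target, hx]
  have h1' : ∀ (e : G.edgeSet) {x y}, G.IsLink e.1 x y → arc e.1 x y 1 = f.pt y := by
    intro e x y h
    rcases hcase e h with ⟨hx, hy, ht⟩ | ⟨hx, hy, ht⟩
    · rw [ht, Path.target, hy]
    · rw [ht, unitInterval.symm_one, Path.source, hy]
  have hset : ∀ (e : G.edgeSet) {x y} (_ : G.IsLink e.1 x y),
      ({x, y} : Set α) = {X e, Y e} := by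
    intro e x y h
    rcases hcase e h with ⟨hx, hy, -⟩ | ⟨hx, hy, -⟩
    · rw [← hx, ← hy]
    · rw [← hx, ← hy, Set.pair_comm]
  have hcurve : ∀ e : G.edgeSet, c' e.1 = c e := fun e => hc' e.1 e.2
  refine ⟨arc, fun h => h0' ⟨_, h.edge_mem⟩ h, fun h => h1' ⟨_, h.edge_mem⟩ h, ?_, c', ?_, ?_,
    ?_, ?_, ?_⟩
  · have key : ∀ (e : G.edgeSet) {x y}, G.IsLink e.1 x y →
        ∀ t, arc e.1 y x t = arc e.1 x y (σ t) := by
      intro e x y h t
      rcases hcase e h with ⟨hx, hy, ht⟩ | ⟨hx, hy, ht⟩ <;>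
      rcases hcase e h.symm with ⟨hx', hy', ht'⟩ | ⟨hx', hy', ht'⟩
      · exact absurd (hx.symm.trans hy') (hne _)
      · rw [ht, ht']
      · rw [ht, ht', unitInterval.symm_symm]
      · exact absurd (hy.symm.trans hx') (hne _)
    intro e x y h t
    exact key ⟨_, h.edge_mem⟩ h t
  · intro e
    by_cases he : e ∈ G.edgeSet
    · rw [hc' e he]; exact hc _
    · have : c' e = fun _ => 0 := dif_neg he
      rw [this]; exact contDiff_const
  · have key : ∀ (e : G.edgeSet) {x y}, G.IsLink e.1 x y →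
        ∀ t, arc e.1 x y t ∈ c' e.1 '' Icc 0 1 := by
      intro e x y h t
      rw [hcurve e]
      rcases hcase e h with ⟨hx, hy, ht⟩ | ⟨hx, hy, ht⟩
      · exact ⟨t, t.2, by rw [ht, hq1]⟩
      · exact ⟨(σ t : I), (σ t).2, by rw [ht, hq1]⟩
    intro e x y h t
    exact key ⟨_, h.edge_mem⟩ h t
  · have key : ∀ (e : G.edgeSet) {x y}, G.IsLink e.1 x y →
        c' e.1 '' Icc 0 1 ⊆ reg f δ {x, y} := by
      intro e x y h
      rw [hcurve e, hset e h]
      rintro _ ⟨t, ht, rfl⟩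
      have := hq2 e ⟨t, ht⟩
      rwa [hq1] at this
    intro e x y h
    exact key ⟨_, h.edge_mem⟩ h
  · have key : ∀ (e : G.edgeSet) {x y} (h : G.IsLink e.1 x y),
        PW (⟨arc e.1 x y, h0' e h, h1' e h⟩ : Path (f.pt x) (f.pt y)) := by
      intro e x y h
      have hpw : PW (q e) := pw_curve (hc _) (hq1 _)
      rcases hcase e h with ⟨hx, hy, ht⟩ | ⟨hx, hy, ht⟩
      · exact hpw.congr ht
      · exact hpw.symm.congr ht
    intro e x y h
    exact key ⟨_, h.edge_mem⟩ h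
  · have key : ∀ (e : G.edgeSet) {x y} (h : G.IsLink e.1 x y), HomIn (reg f δ {x, y})
        (⟨arc e.1 x y, h0' e h, h1' e h⟩ : Path (f.pt x) (f.pt y)) (f.path h) := by
      intro e x y h
      rw [hset e h]
      have hh := hq3 e
      rcases hcase e h with ⟨hx, hy, ht⟩ | ⟨hx, hy, ht⟩
      · refine hh.symm.congr ht (fun t => ?_)
        change f.arc e.1 x y t = f.arc e.1 _ _ t
        rw [← hx, ← hy]
      · refine hh.symm₂.symm.congr ht (fun t => ?_)
        change f.arc e.1 x y t = f.arc e.1 _ _ (σ t)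
        rw [← f.arc_symm (hXY e), ← hx, ← hy]
    intro e x y h
    exact key ⟨_, h.edge_mem⟩ h

end H95F
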