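import Pool.Agent.Lib.H95G.Cell

/-!
# Tame almost embeddings: the main statement

MP_7f673e_co.
-/

set_option linter.unusedSectionVars false

open scoped unitInterval Topology
open Set Metric Module

namespace H95F

variable {α β : Type*} {G Gm : Graph α β}
variable {E : Type*} [NormedAddCommGroup E] [NormedSpace ℝ E] [FiniteDimensional ℝ E]

theorem reg_le (f : FullMap G E) {δ' δ : ℝ} (h : δ' ≤ δ) (A : Set α) :
    reg f δ' A ⊆ reg f δ A := by
  rintro z ⟨s, hs, hz⟩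
  exact ⟨s, hs, thickening_mono h _ hz⟩

theorem tame [Finite (Cell G)] [Finite (Cell Gm)] (hd : 3 < finrank ℝ E)
    (hloop : ∀ e x, ¬ G.IsLink e x x) (f : FullMap G E) {δ : ℝ} (hδ : 0 < δ)
    (hdis : ∀ A B, Disjoint A B → Disjoint (reg f δ A) (reg f δ B))
    (hle : ∀ {e x y}, Gm.IsLink e x y → G.IsLink e x y) (hverts : Gm.vertexSet = G.vertexSet)
    {a b c : α} {eab ebc eca : β} (lab : G.IsLink eab a b) (lbc : G.IsLink ebc b c)
    (lca : G.IsLink eca c a) :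
    ∃ (arc : β → α → α → C(I, E)) (h0 : ∀ {e x y}, Gm.IsLink e x y → arc e x y 0 = f.pt x)
      (h1 : ∀ {e x y}, Gm.IsLink e x y → arc e x y 1 = f.pt y)
      (hs : ∀ {e x y}, Gm.IsLink e x y → ∀ t, arc e y x t = arc e x y (σ t))
      (S : Cell Gm → Set E) (τab : Path (f.pt a) (f.pt b)) (τbc : Path (f.pt b) (f.pt c))
      (τca : Path (f.pt c) (f.pt a)),
      (∀ s, Small (ℝ × ℝ) (S s)) ∧ (∀ s, S s ⊆ reg f δ s.verts) ∧
      (∀ x ∈ Gm.vertexSet, ∀ A, x ∈ A → f.pt x ∈ Cc S A) ∧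
      (∀ {e x y}, Gm.IsLink e x y → ∀ A, x ∈ A → y ∈ A → ∀ t, arc e x y t ∈ Cc S A) ∧
      (∀ {e x y} (h : Gm.IsLink e x y) (h' : G.IsLink e x y), HomIn (reg f δ {x, y})
        (⟨arc e x y, h0 h, h1 h⟩ : Path (f.pt x) (f.pt y)) (f.path h')) ∧
      (∀ A {x} (p : Walk Gm x x), x ∈ Gm.vertexSet → (∀ u ∈ p.support, u ∈ A) →
        HomIn (Cc S A) ((⟨f.pt, arc, h0, h1, hs⟩ : Drawing Gm E).hol p)
          (Path.refl (f.pt x))) ∧
      HomIn (reg f δ {a, b}) τab (f.path lab) ∧ HomIn (reg f δ {b, c}) τbc (f.path lbc) ∧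
      HomIn (reg f δ {c, a}) τca (f.path lca) ∧
      HomIn (Cc S {b, c}ᶜ ∩ Cc S {a, c}ᶜ)ᶜ (τab.trans (τbc.trans τca))
        (Path.refl (f.pt a)) := by
  classical
  have hδ2 : 0 < δ / 2 := half_pos hδ
  have hlt : δ / 2 < δ := half_lt_self hδ
  obtain ⟨arc, h0, h1, hs, cv, hcv, hmem, hreg, hpw, hhom⟩ := exists_arcs hloop f hδ2
  have far : ∀ {A B : Set α} {z : E}, Disjoint A B → z ∈ reg f δ A → z ∈ reg f δ B → False :=
    fun hAB h2 h3 => Set.disjoint_left.1 (hdis _ _ hAB) h2 h3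
  obtain ⟨A', hA'⟩ : ∃ A' : Set α, A' = {b, c}ᶜ := ⟨_, rfl⟩
  obtain ⟨B', hB'⟩ : ∃ B' : Set α, B' = {a, c}ᶜ := ⟨_, rfl⟩
  rw [← hA', ← hB']
  have dA : Disjoint ({b, c} : Set α) A' := hA' ▸ disjoint_compl_right
  have dB : Disjoint ({a, c} : Set α) B' := hB' ▸ disjoint_compl_right
  let L : Set α → Set E := Cc (core (Gm := Gm) f.pt cv)
  have hptreg : ∀ x ∈ Gm.vertexSet, f.pt x ∈ reg f (δ / 2) {x} := fun x hx =>
    big_sub_reg f hδ2 _ (pt_mem_big f (hverts ▸ hx) rfl)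
  have hL : ∀ A, L A ⊆ reg f (δ / 2) A := by
    rintro A z ⟨s, hsA, hz⟩
    refine reg_mono f _ hsA ?_
    cases s with
    | vertex x h =>
      obtain rfl : z = f.pt x := hz
      exact hptreg x h
    | edge e h =>
      obtain ⟨x, y, hl⟩ := Graph.exists_isLink_of_mem_edgeSet h
      refine reg_mono f _ ?_ (hreg (hle hl) hz)
      rintro u (rfl | rfl)
      · exact ⟨_, hl⟩
      · exact ⟨_, hl.symm⟩
    | disc C h => exact hz.elim
  have hNa : closure (reg f (δ / 2) A') ⊆ reg f δ A' := closure_reg f hδ hlt _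
  have hNb : closure (reg f (δ / 2) B') ⊆ reg f δ B' := closure_reg f hδ hlt _
  obtain ⟨Γ, hΓdef⟩ : ∃ Γ : Set E, Γ = (L A' ∩ closure (reg f (δ / 2) B')) ∪
    (L B' ∩ closure (reg f (δ / 2) A')) := ⟨_, rfl⟩
  have hΓ : Small ℝ Γ := hΓdef ▸ ((Cc_core_small hcv _).inter isClosed_closure).union
    ((Cc_core_small hcv _).inter isClosed_closure)
  have hΓA : ∀ z ∈ Γ, z ∈ reg f δ A' := by
    rw [hΓdef]
    rintro z (⟨hz, -⟩ | ⟨-, hz⟩)
    · exact reg_le f hlt.le _ (hL _ hz)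
    · exact hNa hz
  have hΓB : ∀ z ∈ Γ, z ∈ reg f δ B' := by
    rw [hΓdef]
    rintro z (⟨-, hz⟩ | ⟨hz, -⟩)
    · exact hNb hz
    · exact reg_le f hlt.le _ (hL _ hz)
  have hΓ1 : ∀ z ∈ reg f δ {b, c}, z ∉ Γ := fun z hz hzΓ => far dA hz (hΓA z hzΓ)
  have hΓ2 : ∀ z ∈ reg f δ {a, c}, z ∉ Γ := fun z hz hzΓ => far dB hz (hΓB z hzΓ)
  have hpta : f.pt a ∉ Γ := hΓ2 _ (reg_le f hlt.le _ (reg_mono f _ (by simp)
    (hptreg a (hverts ▸ lab.left_mem))))
  have hptb : f.pt b ∉ Γ := hΓ1 _ (reg_le f hlt.le _ (reg_mono f _ (by simp)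
    (hptreg b (hverts ▸ lab.right_mem))))
  -- the path `τab`
  obtain ⟨q, hq, hpq⟩ := pushPath (W := ℝ) (by rw [finrank_self]; omega)
    (isOpen_reg f (δ / 2) {a, b}) (f.path lab)
    (fun t => big_sub_reg f hδ2 _ (path_mem_big f lab (by simp) (by simp) t)) hΓ hpta hptb
  obtain ⟨γ, hγ, τab, hτγ, hτ, hqτ⟩ := smooth_path
    ((isOpen_reg f (δ / 2) {a, b}).sdiff hΓ.1.isClosed) q hq
  have hτab : HomIn (reg f (δ / 2) {a, b}) τab (f.path lab) :=
    (hpq.trans (hqτ.mono Set.sdiff_subset)).symm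
  obtain ⟨τbc, hτbcdef⟩ : ∃ τ : Path (f.pt b) (f.pt c),
    τ = ⟨arc ebc b c, h0 lbc, h1 lbc⟩ := ⟨_, rfl⟩
  obtain ⟨τca, hτcadef⟩ : ∃ τ : Path (f.pt c) (f.pt a),
    τ = ⟨arc eca c a, h0 lca, h1 lca⟩ := ⟨_, rfl⟩
  have hτbc : HomIn (reg f (δ / 2) {b, c}) τbc (f.path lbc) := hτbcdef ▸ hhom lbc
  have hτca : HomIn (reg f (δ / 2) {c, a}) τca (f.path lca) := hτcadef ▸ hhom lca
  have pwab : PW τab := pw_curve hγ hτγ
  have pwbc : PW τbc := hτbcdef ▸ hpw lbc
  have pwca : PW τca := hτcadef ▸ hpw lca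
  have pwT : PW (τab.trans (τbc.trans τca)) := pwab.trans (pwbc.trans pwca)
  obtain ⟨Θ, hΘdef⟩ : ∃ Θ : Set E, Θ = range τab ∩ closure (reg f (δ / 2) B') := ⟨_, rfl⟩
  have hΘ : Small ℝ Θ := hΘdef ▸ pwab.small.inter isClosed_closure
  have hLΘ : ∀ z ∈ L A', z ∉ Θ := by
    rw [hΘdef]
    rintro _ hz ⟨⟨t, rfl⟩, hz'⟩
    exact (hτ t).2 (hΓdef ▸ Or.inl ⟨hz, hz'⟩)
  -- the drawing
  let D : Drawing Gm E := ⟨f.pt, arc, fun h => h0 (hle h), fun h => h1 (hle h),
    fun h => hs (hle h)⟩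
  have hDnull : ∀ A, ∀ {x} (p : Walk Gm x x), x ∈ Gm.vertexSet → (∀ u ∈ p.support, u ∈ A) →
      HomIn (reg f (δ / 2) A) (D.hol p) (Path.refl (D.pt x)) := by
    intro A x p hx hA
    have := push_null f (reg f (δ / 2)) (big_sub_reg f hδ2) (fun _ _ => reg_mono f _) D id
      (fun x hx => hverts ▸ hx) (fun x => Path.refl (f.pt x)) (fun x hx t => hptreg x hx) (by
        intro e x y h
        refine ⟨e, hle h, (hhom (hle h)).trans (homIn_conj_const (fun _ => rfl) (fun _ => rfl)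
          (fun _ => rfl) ?_)⟩
        exact fun t => big_sub_reg f hδ2 _ (path_mem_big f (hle h) (by simp) (by simp) t))
      p hx hA
    rwa [Set.image_id] at this
  choose base bdry hb using fun (C : Set β) (hC : IsCycleSet Gm C) => hC
  have cell := cell_lemma hd D cv hcv (fun h t => hmem (hle h) t) (fun h => hpw (hle h)) base
    bdry hb (reg f (δ / 2)) (isOpen_reg f _) (fun _ _ => reg_mono f _) hptreg
    (fun h => hreg (hle h)) hDnull hΘ hLΘ
  choose Q Q' hQ hQ' hQU hQ'L hQΘ hQε using cell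
  -- the disc of the triangle
  have hTnull : HomIn (reg f (δ / 2) {a, b, c}) (τab.trans (τbc.trans τca))
      (Path.refl (f.pt a)) := by
    have sab : ({a, b} : Set α) ⊆ {a, b, c} := by
      rintro u (rfl | rfl) <;> simp
    have sbc : ({b, c} : Set α) ⊆ {a, b, c} := by
      rintro u (rfl | rfl) <;> simp
    have sca : ({c, a} : Set α) ⊆ {a, b, c} := by
      rintro u (rfl | rfl) <;> simp
    have e1 := (hτab.mono (reg_mono f _ sab)).hcomp ((hτbc.mono (reg_mono f _ sbc)).hcomp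
      (hτca.mono (reg_mono f _ sca)))
    refine e1.trans ?_
    have e2 := (closed_null f (.cons eab lab (.cons ebc lbc (.cons eca lca (.nil a))))
      lab.left_mem (S := {a, b, c}) (by
        intro u hu
        simp only [Walk.support, List.mem_cons, List.not_mem_nil, or_false] at hu
        rcases hu with rfl | rfl | rfl | rfl <;> simp)).mono (big_sub_reg f hδ2 _)
    refine HomIn.trans ?_ e2
    have m1 : ∀ t, f.path lab t ∈ reg f (δ / 2) {a, b, c} := fun t =>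
      big_sub_reg f hδ2 _ (path_mem_big f lab (by simp) (by simp) t)
    have m2 : ∀ t, f.path lbc t ∈ reg f (δ / 2) {a, b, c} := fun t =>
      big_sub_reg f hδ2 _ (path_mem_big f lbc (by simp) (by simp) t)
    have m3 : ∀ t, f.path lca t ∈ reg f (δ / 2) {a, b, c} := fun t =>
      big_sub_reg f hδ2 _ (path_mem_big f lca (by simp) (by simp) t)
    exact (HomIn.refl m1).hcomp ((HomIn.refl m2).hcomp (homIn_trans_refl m3).symm)
  have hτbc' : ∀ t, τbc t ∈ reg f δ {b, c} := fun t => reg_le f hlt.le _ (hτbc.left_mem t)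
  have hτca' : ∀ t, τca t ∈ reg f δ {a, c} := fun t => by
    rw [Set.pair_comm]
    exact reg_le f hlt.le _ (hτca.left_mem t)
  have hTΓ : ∀ t, (τab.trans (τbc.trans τca)) t ∉ Γ := by
    have m1 : ∀ t, τab t ∈ Γᶜ := fun t => (hτ t).2
    have m2 : ∀ t, τbc t ∈ Γᶜ := fun t => hΓ1 _ (hτbc' t)
    have m3 : ∀ t, τca t ∈ Γᶜ := fun t => hΓ2 _ (hτca' t)
    exact fun t => trans_mem m1 (trans_mem m2 m3) t
  obtain ⟨FT, hFT⟩ := pushHom (W := ℝ) (by rw [finrank_self]; omega) (isOpen_reg f _ _) hTnull hΓ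
    hTΓ (fun t => by simpa using hTΓ 0)
  -- empty triple intersections
  have t1 : ∀ s s' : Cell Gm, s.verts ⊆ A' → s'.verts ⊆ B' → ∀ z, z ∈ Q' s → z ∈ Q s' →
      z ∈ range FT → False := by
    rintro s s' hsA hsB _ hz hz' ⟨t, rfl⟩
    refine (hFT t).2 ?_
    rw [hΓdef]
    exact Or.inl ⟨Cc_mono _ hsA (hQ'L s hz), subset_closure (reg_mono f _ hsB (hQU s' hz'))⟩
  have t2 : ∀ s s' : Cell Gm, s.verts ⊆ A' → s'.verts ⊆ B' → ∀ z, z ∈ Q s → z ∈ Q' s' →
      z ∈ range FT → False := by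
    rintro s s' hsA hsB _ hz hz' ⟨t, rfl⟩
    refine (hFT t).2 ?_
    rw [hΓdef]
    exact Or.inr ⟨Cc_mono _ hsB (hQ'L s' hz'), subset_closure (reg_mono f _ hsA (hQU s hz))⟩
  have t3 : ∀ s s' : Cell Gm, s.verts ⊆ A' → s'.verts ⊆ B' → ∀ z, z ∈ Q s → z ∈ Q s' →
      z ∈ range (τab.trans (τbc.trans τca)) → False := by
    intro s s' hsA hsB z hz hz' hzT
    have zA : z ∈ reg f (δ / 2) A' := reg_mono f _ hsA (hQU s hz)
    have zB : z ∈ reg f (δ / 2) B' := reg_mono f _ hsB (hQU s' hz')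
    rw [Path.trans_range, Path.trans_range] at hzT
    rcases hzT with h2 | ⟨t, rfl⟩ | ⟨t, rfl⟩
    · exact hQΘ s hsA z hz (hΘdef ▸ ⟨h2, subset_closure zB⟩)
    · exact far dA (hτbc' t) (reg_le f hlt.le _ zA)
    · exact far dB (hτca' t) (reg_le f hlt.le _ zB)
  -- the choice of `ε`
  have ev1 : ∀ᶠ ε in 𝓝[>] (0 : ℝ), ∀ s s' : Cell Gm, s.verts ⊆ A' → s'.verts ⊆ B' → ∀ z,
      (∃ x ∈ Q' s, dist z x < 2 * ε) → (∃ y ∈ Q s', dist z y < 2 * ε) →
      (∃ u ∈ range FT, dist z u < 2 * ε) → False := by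
    rw [Filter.eventually_all]
    intro s
    rw [Filter.eventually_all]
    intro s'
    by_cases h : s.verts ⊆ A' ∧ s'.verts ⊆ B'
    · filter_upwards [near3 (hQ' s) (hQ s') (isCompact_range FT.continuous)
        (t1 s s' h.1 h.2)] with ε hε _ _
      exact hε
    · exact Filter.Eventually.of_forall fun ε h2 h3 => absurd ⟨h2, h3⟩ h
  have ev2 : ∀ᶠ ε in 𝓝[>] (0 : ℝ), ∀ s s' : Cell Gm, s.verts ⊆ A' → s'.verts ⊆ B' → ∀ z,
      (∃ x ∈ Q s, dist z x < 2 * ε) → (∃ y ∈ Q' s', dist z y < 2 * ε) →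
      (∃ u ∈ range FT, dist z u < 2 * ε) → False := by
    rw [Filter.eventually_all]
    intro s
    rw [Filter.eventually_all]
    intro s'
    by_cases h : s.verts ⊆ A' ∧ s'.verts ⊆ B'
    · filter_upwards [near3 (hQ s) (hQ' s') (isCompact_range FT.continuous)
        (t2 s s' h.1 h.2)] with ε hε _ _
      exact hε
    · exact Filter.Eventually.of_forall fun ε h2 h3 => absurd ⟨h2, h3⟩ h
  have ev3 : ∀ᶠ ε in 𝓝[>] (0 : ℝ), ∀ s s' : Cell Gm, s.verts ⊆ A' → s'.verts ⊆ B' → ∀ z,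
      (∃ x ∈ Q s, dist z x < 2 * ε) → (∃ y ∈ Q s', dist z y < 2 * ε) →
      (∃ u ∈ range (τab.trans (τbc.trans τca)), dist z u < 2 * ε) → False := by
    rw [Filter.eventually_all]
    intro s
    rw [Filter.eventually_all]
    intro s'
    by_cases h : s.verts ⊆ A' ∧ s'.verts ⊆ B'
    · filter_upwards [near3 (hQ s) (hQ s')
        (isCompact_range (τab.trans (τbc.trans τca)).continuous)
        (t3 s s' h.1 h.2)] with ε hε _ _
      exact hε
    · exact Filter.Eventually.of_forall fun ε h2 h3 => absurd ⟨h2, h3⟩ h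
  have ev4 : ∀ᶠ ε in 𝓝[>] (0 : ℝ), ∀ s : Cell Gm, ∀ z,
      (∃ x ∈ Q s, dist z x < 2 * ε) → z ∈ reg f δ s.verts := by
    rw [Filter.eventually_all]
    intro s
    exact near_open (hQ s) (isOpen_reg f δ _) ((hQU s).trans (reg_le f hlt.le _))
  have ev5 : ∀ᶠ ε in 𝓝[>] (0 : ℝ), ∀ z,
      (∃ x ∈ range FT, dist z x < 2 * ε) → z ∈ reg f δ {a, b, c} := by
    refine near_open (isCompact_range FT.continuous) (isOpen_reg f δ _) ?_
    rintro _ ⟨t, rfl⟩
    exact reg_le f hlt.le _ (hFT t).1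
  obtain ⟨ε, ⟨e1, e2, e3, e4, e5⟩, hε⟩ :=
    ((ev1.and (ev2.and (ev3.and (ev4.and ev5)))).and self_mem_nhdsWithin).exists
  have hε : 0 < ε := hε
  choose P hP hPC using fun s => hQε s ε hε
  obtain ⟨PT, hPT, hT⟩ := disc_small pwT FT hε
  obtain ⟨wa, wb, hwa, hwb, hgen⟩ := generic_pair (ι := Cell Gm × Cell Gm) hd hPT
    (P := fun i => P i.1) (Q := fun i => P i.2) (fun i => hP i.1) (fun i => hP i.2) hε
  obtain ⟨KT, -, -, hKTn, hKT1, hKT2⟩ := hT 0 (by simpa using hε)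
  let w : Cell Gm → E := fun s => if s.verts ⊆ A' then wa else if s.verts ⊆ B' then wb else 0
  have hw : ∀ s, ‖w s‖ < ε := by
    intro s
    simp only [w]
    split_ifs
    · exact hwa
    · exact hwb
    · simpa using hε
  choose S hSs hS1 hS2 hSok using fun s => hPC s (w s) (hw s)
  have hSreg : ∀ s, S s ⊆ reg f δ s.verts := fun s z hz => e4 s z (hS1 s z hz)
  have hpt' : ∀ x ∈ Gm.vertexSet, ∀ A, x ∈ A → f.pt x ∈ Cc S A := fun x hx A hA =>
    ⟨.vertex x hx, by simpa [Cell.verts] using hA, hSok (.vertex x hx)⟩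
  have harc' : ∀ {e x y}, Gm.IsLink e x y → ∀ A, x ∈ A → y ∈ A → ∀ t, arc e x y t ∈ Cc S A := by
    intro e x y h A hx hy t
    refine ⟨.edge e h.edge_mem, ?_, hSok (.edge e h.edge_mem) (hmem (hle h) t)⟩
    rintro u ⟨v, hv⟩
    rcases hv.left_eq_or_eq h with rfl | rfl
    · exact hx
    · exact hy
  choose disc0 hdisc0 using fun (C : Set β) (hC : IsCycleSet Gm C) => hSok (.disc C hC)
  let g : FullMap Gm E :=
    { toDrawing := D
      base := base
      bdry := bdry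
      bdry_isCycle := fun C hC => (hb C hC).1
      bdry_edges := fun C hC => (hb C hC).2
      disc := disc0 }
  have hgbig : ∀ A, g.big A ⊆ Cc S A := by
    rintro A z ⟨s, hsA, hz⟩
    refine ⟨s, hsA, ?_⟩
    cases s with
    | vertex x h =>
      obtain rfl : z = f.pt x := hz
      exact hSok (.vertex x h)
    | edge e h =>
      obtain ⟨x, y, hl, t, rfl⟩ := hz
      exact hSok (.edge e h) (hmem (hle hl) t)
    | disc C h =>
      obtain ⟨t, rfl⟩ := hz
      exact hdisc0 C h t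
  refine ⟨arc, fun h => h0 (hle h), fun h => h1 (hle h), fun h => hs (hle h), S, τab, τbc, τca,
    hSs, hSreg, hpt', harc', fun h h' => (hhom h').mono (reg_le f hlt.le _), ?_,
    hτab.mono (reg_le f hlt.le _), hτbc.mono (reg_le f hlt.le _), hτca.mono (reg_le f hlt.le _),
    ?_⟩
  · intro A x p hx hA
    exact (closed_null g p hx hA).mono (hgbig A)
  · refine hKTn.mono ?_
    rintro z hz ⟨⟨s, hsA, hzs⟩, ⟨s', hsB, hzs'⟩⟩
    have zT : ∃ u ∈ range FT, dist z u < 2 * ε := by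
      obtain ⟨q, hq⟩ := hKT1 z hz
      exact ⟨_, ⟨q, rfl⟩, hq⟩
    have hsB' : ¬ s'.verts ⊆ A' := by
      intro h
      refine far (A := s'.verts) (B := {a, b, c}) ?_ (hSreg s' hzs') (e5 z zT)
      rw [Set.disjoint_right]
      rintro u (rfl | rfl | rfl) hu
      · exact Set.disjoint_right.1 dB (hsB hu) (by simp)
      · exact Set.disjoint_right.1 dA (h hu) (by simp)
      · exact Set.disjoint_right.1 dA (h hu) (by simp)
    have hws : w s = wa := if_pos hsA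
    have hws' : w s' = wb := by
      simp only [w]
      rw [if_neg hsB', if_pos hsB]
    rcases hKT2 z hz with ⟨q0, hq0⟩ | ⟨t, ht⟩
    · rcases hS2 s z hzs with ⟨q, hq⟩ | hn
      · rcases hS2 s' z hzs' with ⟨q', hq'⟩ | hn
        · refine hgen (s, s') q0 q q' ?_ ?_
          · rw [add_zero] at hq0
            rw [← hq0, ← hws]
            exact hq
          · rw [add_zero] at hq0
            rw [← hq0, ← hws']
            exact hq'
        · exact e2 s s' hsA hsB z (hS1 s z hzs) hn zT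
      · exact e1 s s' hsA hsB z hn (hS1 s' z hzs') zT
    · exact e3 s s' hsA hsB z (hS1 s z hzs) (hS1 s' z hzs') ⟨_, ⟨t, rfl⟩, ht⟩

end H95F
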