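import Pool.Agent.Lib.H95G.Disc

/-!
# Triple intersections

MP_7f673e_co.
-/

set_option linter.unusedSectionVars false

open scoped unitInterval Topology
open Set Metric Module

namespace H95F

variable {E : Type*} [NormedAddCommGroup E] [NormedSpace ℝ E]

theorem near3 {K1 K2 K3 : Set E} (h1 : IsCompact K1) (h2 : IsCompact K2) (h3 : IsCompact K3)
    (h : ∀ z, z ∈ K1 → z ∈ K2 → z ∈ K3 → False) : ∀ᶠ ε in 𝓝[>] (0 : ℝ), ∀ z,
      (∃ x ∈ K1, dist z x < 2 * ε) → (∃ y ∈ K2, dist z y < 2 * ε) →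
      (∃ u ∈ K3, dist z u < 2 * ε) → False := by
  rcases (K1 ×ˢ (K2 ×ˢ K3)).eq_empty_or_nonempty with he | hne
  · refine Filter.Eventually.of_forall fun ε z => ?_
    rintro ⟨x, hx, -⟩ ⟨y, hy, -⟩ ⟨u, hu, -⟩
    have : (x, y, u) ∈ K1 ×ˢ (K2 ×ˢ K3) := ⟨hx, hy, hu⟩
    rw [he] at this
    exact this
  · have hc : IsCompact (K1 ×ˢ (K2 ×ˢ K3)) := h1.prod (h2.prod h3)
    obtain ⟨⟨x0, y0, u0⟩, ⟨hx0, hy0, hu0⟩, hmin⟩ := hc.exists_isMinOn hne
      (f := fun q : E × E × E => dist q.1 q.2.1 + dist q.1 q.2.2) (by fun_prop)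
    have hpos : 0 < dist x0 y0 + dist x0 u0 := by
      rcases eq_or_ne x0 y0 with rfl | hxy
      · rcases eq_or_ne x0 u0 with rfl | hxu
        · exact (h x0 hx0 hy0 hu0).elim
        · have := dist_pos.2 hxu
          have := dist_nonneg (x := x0) (y := x0)
          linarith
      · have := dist_pos.2 hxy
        have := dist_nonneg (x := x0) (y := u0)
        linarith
    filter_upwards [Ioo_mem_nhdsGT (show (0 : ℝ) < (dist x0 y0 + dist x0 u0) / 8 by positivity)]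
      with ε hε z
    rintro ⟨x, hx, h4⟩ ⟨y, hy, h5⟩ ⟨u, hu, h6⟩
    have h7 : dist x0 y0 + dist x0 u0 ≤ dist x y + dist x u := hmin (a := (x, y, u)) ⟨hx, hy, hu⟩
    have h8 := dist_triangle_left x y z
    have h9 := dist_triangle_left x u z
    linarith [hε.2]

theorem near_open {K U : Set E} (hK : IsCompact K) (hU : IsOpen U) (h : K ⊆ U) :
    ∀ᶠ ε in 𝓝[>] (0 : ℝ), ∀ z, (∃ x ∈ K, dist z x < 2 * ε) → z ∈ U := by
  obtain ⟨δ, hδ, hth⟩ := hK.exists_thickening_subset_open hU h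
  filter_upwards [Ioo_mem_nhdsGT (show (0 : ℝ) < δ / 2 by positivity)] with ε hε z
  rintro ⟨x, hx, h1⟩
  exact hth (mem_thickening_iff.2 ⟨x, hx, h1.trans (by linarith [hε.2])⟩)

variable [FiniteDimensional ℝ E]

theorem generic_pair {ι : Type*} [Countable ι] (hd : 3 < finrank ℝ E) {P0 : ℝ × ℝ → E}
    (h0 : ContDiff ℝ 1 P0) {P Q : ι → ℝ × ℝ → E} (hP : ∀ i, ContDiff ℝ 1 (P i))
    (hQ : ∀ i, ContDiff ℝ 1 (Q i)) {ε : ℝ} (hε : 0 < ε) :
    ∃ wa wb : E, ‖wa‖ < ε ∧ ‖wb‖ < ε ∧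
      ∀ i q0 q q', P0 q0 = P i q + wa → P0 q0 = Q i q' + wb → False := by
  let g : ι → (ℝ × ℝ) × ((ℝ × ℝ) × (ℝ × ℝ)) → E × E := fun i v =>
    (P0 v.1 - P i v.2.1, P0 v.1 - Q i v.2.2)
  have hg : ∀ i, ContDiff ℝ 1 (g i) := fun i =>
    ((h0.comp contDiff_fst).sub ((hP i).comp (contDiff_fst.comp contDiff_snd))).prodMk
      ((h0.comp contDiff_fst).sub ((hQ i).comp (contDiff_snd.comp contDiff_snd)))
  have hdense : Dense (⋃ i, range (g i))ᶜ := by
    apply dense_compl_of_dimH_lt_finrank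
    rw [dimH_iUnion]
    refine lt_of_le_of_lt (iSup_le fun i => (hg i).dimH_range_le) ?_
    have e1 : finrank ℝ ((ℝ × ℝ) × ((ℝ × ℝ) × (ℝ × ℝ))) = 6 := by
      simp [finrank_prod, finrank_self]
    have e2 : finrank ℝ (E × E) = finrank ℝ E + finrank ℝ E := finrank_prod
    rw [e1, e2]
    norm_cast
    omega
  obtain ⟨⟨wa, wb⟩, hw, hwb⟩ := hdense.exists_mem_open isOpen_ball
    ⟨(0 : E × E), mem_ball_self hε⟩
  rw [mem_ball, dist_zero_right, Prod.norm_def] at hwb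
  refine ⟨wa, wb, (le_max_left _ _).trans_lt hwb, (le_max_right _ _).trans_lt hwb, ?_⟩
  intro i q0 q q' h1 h2
  apply hw
  refine Set.mem_iUnion.2 ⟨i, (q0, q, q'), ?_⟩
  simp only [g]
  rw [Prod.mk.injEq]
  constructor
  · rw [h1]; abel
  · rw [h2]; abel

/-- a point near `x` off a small set, with a path in `U` -/
theorem exists_near_small (hd : 2 < finrank ℝ E) {x : E} {U : Set E} (hU : IsOpen U) (hx : x ∈ U)
    {S : Set E} (hS : Small (ℝ × ℝ) S) :
    ∃ (y : E) (ρ : Path x y), (∀ t, ρ t ∈ U) ∧ y ∉ S := by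
  obtain ⟨r, hr, hball⟩ := Metric.isOpen_iff.1 hU x hx
  obtain ⟨-, ι, _, g, hg, hgS⟩ := hS
  have hdense : Dense (⋃ k, range (g k))ᶜ := by
    apply dense_compl_of_dimH_lt_finrank
    rw [dimH_iUnion]
    refine lt_of_le_of_lt (iSup_le fun i => (hg i).dimH_range_le) ?_
    rw [finrank_prod, finrank_self]
    exact_mod_cast hd
  obtain ⟨y, hy, hyb⟩ := hdense.exists_mem_open isOpen_ball ⟨x, mem_ball_self hr⟩
  refine ⟨y, ⟨⟨fun t : I => x + (t : ℝ) • (y - x), by fun_prop⟩, by simp, by simp⟩, ?_, ?_⟩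
  · intro t
    apply hball
    have h1 : x + (t : ℝ) • (y - x) ∈ ball x r := by
      rw [mem_ball, dist_eq_norm, add_sub_cancel_left, norm_smul, Real.norm_of_nonneg t.2.1]
      calc (t : ℝ) * ‖y - x‖ ≤ 1 * ‖y - x‖ := by
            gcongr
            exact t.2.2
        _ < r := by rw [one_mul, ← dist_eq_norm]; exact hyb
    exact h1
  · exact fun h => hy (hgS h)

end H95F
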