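import Pool.Agent.Lib.H95G.Defs
import Pool.Agent.Lib.H95G.Regions

/-!
# Twins of cubic vertices

MP_7f673e_co. If the full complex of a finite graph `G` almost embeds in a space `E` of dimension
at least four, then so does the full complex of `G` with a twin of a vertex of degree three.
-/

open scoped unitInterval Topology
open Set Metric Module

namespace H95F

variable {α β : Type*}

theorem almostEmbeds_of_twin {G H : Graph α β} (hV : G.vertexSet.Finite) (hE : G.edgeSet.Finite)
    {E : Type*} [NormedAddCommGroup E] [NormedSpace ℝ E] [FiniteDimensional ℝ E]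
    (hd : 3 < finrank ℝ E) {v : α} {n : Fin 3 → α} {g : Fin 3 → β} {v' : α} {g' : Fin 3 → β}
    (h : IsTwin G H v n g v' g') (hG : AlmostEmbeds G E) : AlmostEmbeds H E := by
  classical
  obtain ⟨f, hf⟩ := hG
  obtain ⟨δ, hδ, hdis⟩ := exists_delta hV hE f hf
  have hU : ∀ A, f.big A ⊆ reg f δ A := big_sub_reg f hδ
  have hmono : ∀ A B : Set α, A ⊆ B → reg f δ A ⊆ reg f δ B := fun A B => reg_mono f δ
  have hvV : v ∈ G.vertexSet := (h.link 0).left_mem
  have hnV : ∀ i, n i ∈ G.vertexSet := fun i => (h.link i).right_mem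
  have hV' : ∀ x ∈ G.vertexSet, x ≠ v' := fun x hx hxv => h.notMem (hxv ▸ hx)
  -- smooth arcs at `v`
  have hp0 : ∀ i t, f.path (h.link i) t ∈ reg f δ {v, n i} := fun i t =>
    hU _ (path_mem_big f (h.link i) (by simp) (by simp) t)
  choose c hc q0 hq0c hq0U hq0 using fun i =>
    smooth_path (isOpen_reg f δ {v, n i}) (f.path (h.link i)) (hp0 i)
  have hcU : ∀ i, c i '' Icc 0 1 ⊆ reg f δ {v, n i} := by
    rintro i _ ⟨t, ht, rfl⟩
    have := hq0U i ⟨t, ht⟩
    rwa [hq0c] at this
  have hc0 : ∀ i, c i 0 = f.pt v := by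
    intro i
    have := hq0c i 0
    simpa using this.symm
  have hc1 : ∀ i, c i 1 = f.pt (n i) := by
    intro i
    have := hq0c i 1
    simpa using this.symm
  -- the point of the twin
  obtain ⟨P', r, hr, hP'⟩ := exists_near (by omega) (isOpen_reg f δ {v})
    (x := f.pt v) (hU _ (pt_mem_big f hvV rfl)) c hc
  let tw : Bool → α := fun b => cond b v' v
  let gg : Bool → Fin 3 → β := fun b => cond b g' g
  let φ : α → α := fun x => if x = v' then v else x
  let pt : α → E := fun x => if x = v' then P' else f.pt x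
  have hφ' : φ v' = v := if_pos rfl
  have hφn : ∀ x, x ≠ v' → φ x = x := fun x hx => if_neg hx
  have hpt' : pt v' = P' := if_pos rfl
  have hptn : ∀ x, x ≠ v' → pt x = f.pt x := fun x hx => if_neg hx
  have hφtw : ∀ b, φ (tw b) = v := by
    intro b
    cases b
    · exact hφn v (hV' v hvV)
    · exact hφ'
  have hφni : ∀ i, φ (n i) = n i := fun i => hφn _ (hV' _ (hnV i))
  have hφV : ∀ x ∈ H.vertexSet, φ x ∈ G.vertexSet := by
    intro x hx
    rw [h.verts] at hx
    rcases hx with rfl | hx
    · rw [hφ']; exact hvV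
    · rw [hφn x (hV' x hx)]; exact hx
  -- the connecting paths
  have hρ0 : ∀ x, ∃ s : Path (f.pt (φ x)) (pt x), (x = v' → ∀ t, s t = r t) ∧
      (x ≠ v' → ∀ t, s t = f.pt x) := by
    intro x
    by_cases hx : x = v'
    · refine ⟨⟨r.toContinuousMap, ?_, ?_⟩, fun _ t => rfl, fun h => absurd hx h⟩
      · rw [hx, hφ']; exact r.source
      · rw [hx, hpt']; exact r.target
    · refine ⟨⟨ContinuousMap.const _ (f.pt x), ?_, ?_⟩, fun h => absurd h hx, fun _ t => rfl⟩
      · rw [hφn x hx]; rfl
      · rw [hptn x hx]; rfl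
  choose ρ hρ1 hρ2 using hρ0
  have hρ : ∀ x ∈ H.vertexSet, ∀ t, ρ x t ∈ reg f δ {φ x} := by
    intro x hx t
    by_cases hx' : x = v'
    · rw [hρ1 x hx' t, hx', hφ']
      exact hr t
    · rw [hρ2 x hx' t, hφn x hx']
      rw [h.verts] at hx
      exact hU _ (pt_mem_big f (hx.resolve_left hx') rfl)
  have htwH : ∀ b, tw b ∈ H.vertexSet := by
    intro b
    rw [h.verts]
    cases b
    · exact Or.inr hvV
    · exact Or.inl rfl
  have hnH : ∀ i, n i ∈ H.vertexSet := by
    intro i
    rw [h.verts]
    exact Or.inr (hnV i)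
  have hl : ∀ b i, G.IsLink (g i) (φ (tw b)) (φ (n i)) := by
    intro b i
    rw [hφtw, hφni]
    exact h.link i
  have hset : ∀ b i, ({φ (tw b), φ (n i)} : Set α) = {v, n i} := by
    intro b i
    rw [hφtw, hφni]
  have hmem1 : ∀ b i t, ρ (tw b) t ∈ reg f δ {v, n i} := by
    intro b i t
    refine hmono {φ (tw b)} _ ?_ (hρ _ (htwH b) t)
    rw [hφtw]
    simp
  have hmem2 : ∀ i t, ρ (n i) t ∈ reg f δ {v, n i} := by
    intro i t
    refine hmono {φ (n i)} _ ?_ (hρ _ (hnH i) t)
    rw [hφni]
    simp
  have hmem3 : ∀ b i t, f.path (hl b i) t ∈ reg f δ {v, n i} := by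
    intro b i t
    refine hU _ (path_mem_big f (hl b i) ?_ ?_ t)
    · rw [hφtw]; simp
    · rw [hφni]; simp
  have hmem : ∀ b i t, ((ρ (tw b)).symm.trans ((f.path (hl b i)).trans (ρ (n i)))) t ∈
      reg f δ {v, n i} := fun b i => trans_mem (fun t => hmem1 b i _)
        (trans_mem (hmem3 b i) (hmem2 i))
  -- the smooth arcs
  have hex : ∀ b i, ∃ cc : ℝ → E, ContDiff ℝ 1 cc ∧ ∃ q : Path (pt (tw b)) (pt (n i)),
      (∀ t : I, q t = cc t) ∧ HomIn (reg f δ {v, n i})
        ((ρ (tw b)).symm.trans ((f.path (hl b i)).trans (ρ (n i)))) q ∧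
      (b = false → cc = c i) ∧ (b = true → ∀ j, j ≠ i → ∀ t, q t ∉ c j '' Icc 0 1) := by
    intro b i
    cases b
    · have e0 : pt (tw false) = f.pt v := hptn v (hV' v hvV)
      have e1 : pt (n i) = f.pt (n i) := hptn _ (hV' _ (hnV i))
      let q : Path (pt (tw false)) (pt (n i)) :=
        ⟨⟨fun t : I => c i t, (hc i).continuous.comp continuous_subtype_val⟩,
          by rw [e0]; simpa using hc0 i, by rw [e1]; simpa using hc1 i⟩
      let p' : Path (pt (tw false)) (pt (n i)) :=
        ⟨(f.path (h.link i)).toContinuousMap, by rw [e0]; exact (f.path (h.link i)).source,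
          by rw [e1]; exact (f.path (h.link i)).target⟩
      refine ⟨c i, hc i, q, fun t => rfl, ?_, fun _ => rfl, fun h => absurd h (by simp)⟩
      have h1 : HomIn (reg f δ {v, n i}) p'
          ((ρ (tw false)).symm.trans ((f.path (hl false i)).trans (ρ (n i)))) := by
        refine homIn_conj_const (fun t => ?_) (fun t => ?_) (fun t => ?_) (hmem3 false i)
        · rw [hρ2 (tw false) (hV' v hvV) t, hφtw]; rfl
        · rw [hρ2 (n i) (hV' _ (hnV i)) t, hφni]
        · change f.arc (g i) v (n i) t = f.arc (g i) (φ (tw false)) (φ (n i)) t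
          rw [hφtw, hφni]
      exact h1.symm.trans ((hq0 i).congr (fun t => rfl) (fun t => (hq0c i t).symm))
    · have e0 : pt (tw true) = P' := hpt'
      have e1 : pt (n i) = f.pt (n i) := hptn _ (hV' _ (hnV i))
      obtain ⟨cc, hcc, q, hqc, hq, hpq⟩ := exists_arc (by omega) (isOpen_reg f δ {v, n i})
        ((ρ (tw true)).symm.trans ((f.path (hl true i)).trans (ρ (n i)))) (hmem true i) c hc
        (Finset.univ.filter (fun j => j ≠ i)) (by
          intro j _
          rw [e0]
          exact hP' j) (by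
          intro j hj h2
          rw [e1] at h2
          have hj' : j ≠ i := (Finset.mem_filter.1 hj).2
          refine Set.disjoint_left.1 (hdis {n i} {v, n j} ?_)
            (hU _ (pt_mem_big f (hnV i) rfl)) (hcU j h2)
          rw [Set.disjoint_singleton_left]
          rintro (h3 | h3)
          · exact h.ne i h3.symm
          · exact hj' (h.inj h3).symm)
      exact ⟨cc, hcc, q, hqc, hpq, fun h => absurd h (by simp), fun _ j hj t =>
        (hq t).2 j (Finset.mem_filter.2 ⟨Finset.mem_univ _, hj⟩)⟩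
  choose γ hγ q hqγ hqh hqf hqt using hex
  -- the drawing
  let arc : β → α → α → C(I, E) := fun e x y =>
    if hh : ∃ bi : Bool × Fin 3, e = gg bi.1 bi.2 then
      (if x = tw hh.choose.1 then (q hh.choose.1 hh.choose.2).toContinuousMap
        else (q hh.choose.1 hh.choose.2).symm.toContinuousMap)
    else f.arc e x y
  have hggi : ∀ b i b' i', gg b i = gg b' i' → b = b' ∧ i = i' := by
    intro b i b' i' hgg
    cases b <;> cases b'
    · refine ⟨rfl, h.inj ?_⟩
      have h1 : g i = g i' := hgg
      exact (h.link i).right_unique (h1 ▸ h.link i')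
    · exfalso
      have h1 : g i = g' i' := hgg
      exact h.edge_notMem i' (h1 ▸ (h.link i).edge_mem)
    · exfalso
      have h1 : g' i = g i' := hgg
      exact h.edge_notMem i (h1 ▸ (h.link i').edge_mem)
    · exact ⟨rfl, h.edge_inj hgg⟩
  have arc_gg : ∀ b i x y, arc (gg b i) x y = if x = tw b then (q b i).toContinuousMap
      else (q b i).symm.toContinuousMap := by
    intro b i x y
    have hh : ∃ bi : Bool × Fin 3, gg b i = gg bi.1 bi.2 := ⟨(b, i), rfl⟩
    have h1 := hggi _ _ _ _ hh.choose_spec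
    have h2 : hh.choose = (b, i) := Prod.ext h1.1.symm h1.2.symm
    simp only [arc, dif_pos hh]
    rw [h2]
  have arc_other : ∀ e x y, (¬ ∃ bi : Bool × Fin 3, e = gg bi.1 bi.2) →
      arc e x y = f.arc e x y := by
    intro e x y hh
    simp only [arc, dif_neg hh]
  have htn : ∀ b i, tw b ≠ n i := by
    intro b i
    cases b
    · exact h.ne i
    · exact fun h2 => hV' _ (hnV i) h2.symm
  have cases' : ∀ {e x y}, H.IsLink e x y →
      (∃ b i, e = gg b i ∧ x = tw b ∧ y = n i) ∨ (∃ b i, e = gg b i ∧ x = n i ∧ y = tw b) ∨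
      (G.IsLink e x y ∧ x ≠ v' ∧ y ≠ v' ∧ ¬ ∃ bi : Bool × Fin 3, e = gg bi.1 bi.2) := by
    intro e x y hl'
    rcases (h.link_iff e x y).1 hl' with h1 | ⟨i, rfl, h2⟩
    · by_cases hh : ∃ i, e = g i
      · obtain ⟨i, rfl⟩ := hh
        rcases h1.eq_and_eq_or_eq_and_eq (h.link i) with ⟨rfl, rfl⟩ | ⟨rfl, rfl⟩
        · exact Or.inl ⟨false, i, rfl, rfl, rfl⟩
        · exact Or.inr (Or.inl ⟨false, i, rfl, rfl, rfl⟩)
      · refine Or.inr (Or.inr ⟨h1, hV' _ h1.left_mem, hV' _ h1.right_mem, ?_⟩)
        rintro ⟨⟨b, i⟩, rfl⟩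
        cases b
        · exact hh ⟨i, rfl⟩
        · exact h.edge_notMem i h1.edge_mem
    · rw [Sym2.eq_iff] at h2
      rcases h2 with ⟨rfl, rfl⟩ | ⟨rfl, rfl⟩
      · exact Or.inl ⟨true, i, rfl, rfl, rfl⟩
      · exact Or.inr (Or.inl ⟨true, i, rfl, rfl, rfl⟩)
  let D : Drawing H E :=
    { pt := pt
      arc := arc
      arc_zero := by
        intro e x y hl'
        rcases cases' hl' with ⟨b, i, rfl, rfl, rfl⟩ | ⟨b, i, rfl, rfl, rfl⟩ | ⟨h1, h2, h3, h4⟩
        · rw [arc_gg, if_pos rfl]
          exact (q b i).source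
        · rw [arc_gg, if_neg (htn b i).symm]
          exact (q b i).symm.source
        · rw [arc_other _ _ _ h4, hptn x h2]
          exact f.arc_zero h1
      arc_one := by
        intro e x y hl'
        rcases cases' hl' with ⟨b, i, rfl, rfl, rfl⟩ | ⟨b, i, rfl, rfl, rfl⟩ | ⟨h1, h2, h3, h4⟩
        · rw [arc_gg, if_pos rfl]
          exact (q b i).target
        · rw [arc_gg, if_neg (htn b i).symm]
          exact (q b i).symm.target
        · rw [arc_other _ _ _ h4, hptn y h3]
          exact f.arc_one h1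
      arc_symm := by
        intro e x y hl' t
        rcases cases' hl' with ⟨b, i, rfl, rfl, rfl⟩ | ⟨b, i, rfl, rfl, rfl⟩ | ⟨h1, h2, h3, h4⟩
        · rw [arc_gg, arc_gg, if_pos rfl, if_neg (htn b i).symm]
          rfl
        · rw [arc_gg, arc_gg, if_pos rfl, if_neg (htn b i).symm]
          change q b i t = q b i (σ (σ t))
          rw [unitInterval.symm_symm]
        · rw [arc_other _ _ _ h4, arc_other _ _ _ h4]
          exact f.arc_symm h1 t }
  -- the links of `H`
  have hpush1 : ∀ b i (hh : H.IsLink (gg b i) (tw b) (n i)),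
      HomIn (reg f δ {φ (tw b), φ (n i)}) (D.path hh)
        ((ρ (tw b)).symm.trans ((f.path (hl b i)).trans (ρ (n i)))) := by
    intro b i hh
    rw [hset]
    refine ((hqh b i).symm).congr (fun t => ?_) (fun t => rfl)
    change arc (gg b i) (tw b) (n i) t = q b i t
    rw [arc_gg, if_pos rfl]
    rfl
  have hpush : ∀ {e x y} (hh : H.IsLink e x y), ∃ (e' : β) (h' : G.IsLink e' (φ x) (φ y)),
      HomIn (reg f δ {φ x, φ y}) (D.path hh) ((ρ x).symm.trans ((f.path h').trans (ρ y))) := by
    intro e x y hh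
    rcases cases' hh with ⟨b, i, rfl, rfl, rfl⟩ | ⟨b, i, rfl, rfl, rfl⟩ | ⟨h1, h2, h3, h4⟩
    · exact ⟨g i, hl b i, hpush1 b i hh⟩
    · refine ⟨g i, (hl b i).symm, ?_⟩
      have h5 := hpush1 b i hh.symm
      rw [hset] at h5
      have h6 := homIn_conj_symm (hmem1 b i) (hmem2 i) (hmem3 b i) h5
      rw [Set.pair_comm, hset]
      refine h6.congr (fun t => ?_) (fun t => ?_)
      · exact D.arc_symm hh.symm t
      · rw [path_symm f (hl b i)]
    · have hx : φ x = x := hφn x h2
      have hy : φ y = y := hφn y h3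
      have h' : G.IsLink e (φ x) (φ y) := by rw [hx, hy]; exact h1
      refine ⟨e, h', homIn_conj_const (fun t => ?_) (fun t => ?_) (fun t => ?_) ?_⟩
      · rw [hρ2 x h2 t, hx]
      · rw [hρ2 y h3 t, hy]
      · change arc e x y t = f.arc e (φ x) (φ y) t
        rw [arc_other _ _ _ h4, hx, hy]
      · exact fun t => hU _ (path_mem_big f h' (by simp) (by simp) t)
  have hHlink : ∀ b i, H.IsLink (gg b i) (tw b) (n i) := by
    intro b i
    rw [h.link_iff]
    cases b
    · exact Or.inl (h.link i)
    · exact Or.inr ⟨i, rfl, rfl⟩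
  have hPc : ∀ i, pt v' ∉ c i '' Icc 0 1 := by
    intro i
    rw [hpt']
    exact hP' i
  have hγf : ∀ i, γ false i = c i := fun i => hqf false i rfl
  have hγt : ∀ i j, j ≠ i → Disjoint (γ true i '' Icc 0 1) (c j '' Icc 0 1) := by
    intro i j hji
    rw [Set.disjoint_left]
    rintro _ ⟨t, ht, rfl⟩ h2
    have h3 := hqγ true i ⟨t, ht⟩
    exact hqt true i rfl j hji ⟨t, ht⟩ (by rw [h3]; exact h2)
  have hvc : ∀ j, pt v ∈ c j '' Icc 0 1 := by
    intro j
    rw [hptn v (hV' v hvV), ← hc0 j]
    exact ⟨0, by simp, rfl⟩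
  have T : TwinData H D (fun A => reg f δ (φ '' A)) tw n gg γ :=
    { tn := htn
      tt := by
        intro b
        cases b
        · exact hV' v hvV
        · exact (hV' v hvV).symm
      link := hHlink
      only := by
        rintro b e ⟨y, hy⟩
        rcases cases' hy with ⟨b', i, rfl, h2, rfl⟩ | ⟨b', i, rfl, h2, rfl⟩ | ⟨h1, h2, h3, h4⟩
        · have : b = b' := by
            cases b <;> cases b'
            · rfl
            · exact absurd h2 (hV' v hvV)
            · exact absurd h2.symm (hV' v hvV)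
            · rfl
          subst this
          exact ⟨i, rfl⟩
        · exact absurd h2 (htn b i)
        · cases b
          · obtain ⟨i, rfl⟩ := h.only e ⟨y, h1⟩
            exact ⟨i, rfl⟩
          · exact absurd rfl h2
      isOpen := fun A => isOpen_reg f δ _
      mono := fun A B hAB => hmono _ _ (Set.image_mono hAB)
      dis := by
        intro A B hA hB hAB htwAB
        refine hdis _ _ ?_
        rw [Set.disjoint_left]
        rintro _ ⟨x, hx, rfl⟩ ⟨y, hy, hxy⟩
        have hne : x ≠ y := fun h2 => Set.disjoint_left.1 hAB hx (h2 ▸ hy)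
        by_cases hxv : x = v'
        · by_cases hyv : y = v'
          · exact hne (hxv.trans hyv.symm)
          · rw [hφn y hyv, hxv, hφ'] at hxy
            have h5 : v' ∈ A := hxv ▸ hx
            have h6 : v ∈ B := hxy ▸ hy
            exact htwAB true false h5 h6
        · by_cases hyv : y = v'
          · rw [hφn x hxv, hyv, hφ'] at hxy
            have h5 : v ∈ A := hxy ▸ hx
            have h6 : v' ∈ B := hyv ▸ hy
            exact htwAB false true h5 h6
          · rw [hφn x hxv, hφn y hyv] at hxy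
            exact hne hxy.symm
      pt := by
        intro x hx
        rw [Set.image_singleton]
        have := hρ x hx 1
        rwa [Path.target] at this
      arc := by
        intro e x y hh t
        rw [Set.image_pair]
        obtain ⟨e', h', hhom⟩ := hpush hh
        exact hhom.left_mem t
      null := by
        intro A hA x p hx hp
        exact push_null f (reg f δ) hU hmono D φ hφV ρ hρ hpush p hx hp
      smooth := hγ
      arc_eq := by
        intro b i t
        change arc (gg b i) (tw b) (n i) t = γ b i t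
        rw [arc_gg, if_pos rfl]
        exact hqγ b i t
      pt_curve := by
        intro b i
        cases b
        · intro h2
          change pt v ∈ γ true i '' Icc 0 1 at h2
          obtain ⟨j, hj⟩ := exists_ne i
          exact Set.disjoint_left.1 (hγt i j hj) h2 (hvc j)
        · change pt v' ∉ γ false i '' Icc 0 1
          rw [hγf]
          exact hPc i
      curve_curve := by
        intro b i j hij
        cases b
        · change Disjoint (γ false i '' Icc 0 1) (γ true j '' Icc 0 1)
          rw [hγf]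
          exact (hγt j i hij).symm
        · change Disjoint (γ true i '' Icc 0 1) (γ false j '' Icc 0 1)
          rw [hγf]
          exact hγt i j hij.symm }
  exact T.almostEmbeds hd

end H95F
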