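import Pool.Agent.Lib.H95G.Regions

/-!
# A lemma of van Kampen type

MP_7f673e_co. A loop in `X1` which is null-homotopic in `X1 ∪ X2` is homotopic in `X1` to a loop in
`X1 ∩ X2` which is null-homotopic in `X2`, if paths can be pushed to `X1 ∩ X2`.
-/

set_option linter.unusedSectionVars false

open scoped unitInterval Topology
open Set Metric

namespace H95F

section Rel

variable {Z : Type*} [TopologicalSpace Z] {X1 X2 : Set Z}

/-- `p` is homotopic in `X1` to `l q` for a loop `l` in `X1 ∩ X2` which is trivial in `X2` -/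
def Rel (X1 X2 : Set Z) {x y : Z} (p q : Path x y) : Prop :=
  ∃ l : Path x x, (∀ t, l t ∈ X1 ∩ X2) ∧ HomIn X2 l (Path.refl x) ∧ HomIn X1 p (l.trans q)

theorem rel_one {x y : Z} {p q : Path x y} (hx : x ∈ X1 ∩ X2) (h : HomIn X1 p q) :
    Rel X1 X2 p q := by
  refine ⟨Path.refl x, fun t => hx, HomIn.refl (fun t => hx.2), h.trans ?_⟩
  exact (homIn_refl_trans (fun t => (h.symm).left_mem t)).symm

theorem rel_two {x y : Z} {p q : Path x y} (hp : ∀ t, p t ∈ X1 ∩ X2) (hq : ∀ t, q t ∈ X1 ∩ X2)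
    (h : HomIn X2 p q) : Rel X1 X2 p q := by
  have hq' : ∀ t, q.symm t ∈ X1 ∩ X2 := fun t => hq _
  refine ⟨p.trans q.symm, trans_mem hp hq', ?_, ?_⟩
  · exact (h.hcomp (HomIn.refl (fun t => (hq' t).2))).trans
      (homIn_trans_symm (fun t => (hq t).2))
  · have h1 : HomIn X1 ((p.trans q.symm).trans q) (p.trans (q.symm.trans q)) :=
      homIn_assoc (fun t => (hp t).1) (fun t => (hq' t).1) (fun t => (hq t).1)
    have h2 : HomIn X1 (p.trans (q.symm.trans q)) (p.trans (Path.refl y)) :=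
      (HomIn.refl (fun t => (hp t).1)).hcomp (homIn_symm_trans (fun t => (hq t).1))
    exact ((h1.trans h2).trans (homIn_trans_refl (fun t => (hp t).1))).symm

theorem Rel.trans {x y : Z} {p q r : Path x y} (h : Rel X1 X2 p q) (h' : Rel X1 X2 q r) :
    Rel X1 X2 p r := by
  obtain ⟨l, hl, hl2, hl1⟩ := h
  obtain ⟨m, hm, hm2, hm1⟩ := h'
  have hr : ∀ t, r t ∈ X1 := by
    intro t
    have := (hm1.symm).left_mem
    have h1 : r t = r t := rfl
    rcases le_or_gt (t : ℝ) 1 with _ | h
    · have h2 := this ⟨(1 + (t : ℝ)) / 2, by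
        constructor <;> [linarith [t.2.1]; linarith [t.2.2]]⟩
      rw [Path.trans_apply] at h2
      split_ifs at h2 with h3
      · have h4 : (t : ℝ) = 0 := by
          simp only at h3
          linarith [t.2.1]
        have h5 : t = 0 := Subtype.ext h4
        rw [h5, r.source]
        exact (hm 0).1 |> fun h => by simpa using h
      · convert h2 using 2
        apply Subtype.ext
        simp only
        ring
    · exact absurd h (not_lt.2 t.2.2)
  refine ⟨l.trans m, trans_mem hl hm, (hl2.hcomp hm2).trans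
    (homIn_trans_refl (fun t => by simpa using (hl 0).2)), ?_⟩
  refine hl1.trans (((HomIn.refl (fun t => (hl t).1)).hcomp hm1).trans ?_)
  exact (homIn_assoc (fun t => (hl t).1) (fun t => (hm t).1) hr).symm

theorem Rel.right {x y z : Z} {p q : Path x y} {s : Path y z} (h : Rel X1 X2 p q)
    (hq : ∀ t, q t ∈ X1) (hs : ∀ t, s t ∈ X1) : Rel X1 X2 (p.trans s) (q.trans s) := by
  obtain ⟨l, hl, hl2, hl1⟩ := h
  exact ⟨l, hl, hl2, (hl1.hcomp (HomIn.refl hs)).trans
    (homIn_assoc (fun t => (hl t).1) hq hs)⟩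

theorem Rel.left {x y z : Z} {p q : Path y z} {r : Path x y} (h : Rel X1 X2 p q)
    (hq : ∀ t, q t ∈ X1) (hr : ∀ t, r t ∈ X1 ∩ X2) :
    Rel X1 X2 (r.trans p) (r.trans q) := by
  obtain ⟨l, hl, hl2, hl1⟩ := h
  have hr' : ∀ t, r.symm t ∈ X1 ∩ X2 := fun t => hr _
  have a1 : ∀ t, r t ∈ X1 := fun t => (hr t).1
  have a2 : ∀ t, r t ∈ X2 := fun t => (hr t).2
  have b1 : ∀ t, r.symm t ∈ X1 := fun t => (hr' t).1
  have b2 : ∀ t, r.symm t ∈ X2 := fun t => (hr' t).2
  have c1 : ∀ t, l t ∈ X1 := fun t => (hl t).1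
  refine ⟨r.trans (l.trans r.symm), trans_mem hr (trans_mem hl hr'), ?_, ?_⟩
  · refine ((HomIn.refl a2).hcomp ((hl2.hcomp (HomIn.refl b2)).trans (homIn_refl_trans b2))).trans
      ?_
    exact homIn_trans_symm a2
  · -- `(r (l r⁻¹)) (r q) ~ r (l q)`
    refine ((HomIn.refl a1).hcomp hl1).trans (HomIn.symm ?_)
    have e1 : HomIn X1 ((r.trans (l.trans r.symm)).trans (r.trans q))
        (r.trans ((l.trans r.symm).trans (r.trans q))) :=
      homIn_assoc a1 (trans_mem c1 b1) (trans_mem a1 hq)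
    have e2 : HomIn X1 ((l.trans r.symm).trans (r.trans q)) (l.trans (r.symm.trans (r.trans q))) :=
      homIn_assoc c1 b1 (trans_mem a1 hq)
    have e3 : HomIn X1 (r.symm.trans (r.trans q)) q :=
      (homIn_assoc b1 a1 hq).symm.trans (((homIn_symm_trans a1).hcomp (HomIn.refl hq)).trans
        (homIn_refl_trans hq))
    exact e1.trans ((HomIn.refl a1).hcomp (e2.trans ((HomIn.refl c1).hcomp e3)))

/-- concatenation of a sequence of paths -/
noncomputable def cat {P : ℕ → Z} (h : ∀ k, Path (P k) (P (k + 1))) : ∀ k, Path (P 0) (P k)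
  | 0 => Path.refl _
  | k + 1 => (cat h k).trans (h k)

theorem cat_mem {P : ℕ → Z} {h : ∀ k, Path (P k) (P (k + 1))} {S : Set Z}
    (hS : ∀ k t, h k t ∈ S) (k : ℕ) (t : I) : cat h k t ∈ S := by
  induction k generalizing t with
  | zero => simpa [cat] using hS 0 0
  | succ k ih => exact trans_mem ih (hS k) t

theorem cat_map {Y : Type*} [TopologicalSpace Y] {F : Y → Z} (hF : Continuous F) {P : ℕ → Y}
    (h : ∀ k, Path (P k) (P (k + 1))) (k : ℕ) :
    cat (P := fun k => F (P k)) (fun k => (h k).map hF) k = (cat h k).map hF := by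
  induction k with
  | zero =>
    ext t
    simp [cat]
  | succ k ih =>
    simp only [cat]
    rw [ih, Path.map_trans]

/-- the ladder lemma -/
theorem ladder {X : Set Z} {A P : ℕ → Z} (s : ∀ k, Path (A k) (P k))
    (e : ∀ k, Path (A k) (A (k + 1))) (h : ∀ k, Path (P k) (P (k + 1))) (hs : ∀ k t, s k t ∈ X)
    (he : ∀ k t, e k t ∈ X)
    (hh : ∀ k, HomIn X (h k) ((s k).symm.trans ((e k).trans (s (k + 1))))) (k : ℕ) :
    HomIn X ((cat e k).trans (s k)) ((s 0).trans (cat h k)) := by
  have hhm : ∀ k t, h k t ∈ X := fun k => (hh k).left_mem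
  induction k with
  | zero =>
    exact (homIn_refl_trans (hs 0)).trans (homIn_trans_refl (hs 0)).symm
  | succ k ih =>
    have c1 := cat_mem he k
    have c2 := cat_mem hhm k
    have hs' : ∀ t, (s k).symm t ∈ X := fun t => hs k _
    have d1 : HomIn X ((e k).trans (s (k + 1))) ((s k).trans (h k)) := by
      refine HomIn.symm (((HomIn.refl (hs k)).hcomp (hh k)).trans ?_)
      have es := trans_mem (he k) (hs (k + 1))
      exact (homIn_assoc (hs k) hs' es).symm.trans
        (((homIn_trans_symm (hs k)).hcomp (HomIn.refl es)).trans (homIn_refl_trans es))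
    refine (homIn_assoc c1 (he k) (hs (k + 1))).trans
      (((HomIn.refl c1).hcomp d1).trans ?_)
    refine (homIn_assoc c1 (hs k) (hhm k)).symm.trans
      ((ih.hcomp (HomIn.refl (hhm k))).trans ?_)
    exact homIn_assoc (hs 0) c2 (hhm k)

/-- rows -/
theorem rows {P : ℕ → ℕ → Z} (h : ∀ i k, Path (P i k) (P i (k + 1)))
    (v : ∀ i k, Path (P i k) (P (i + 1) k)) (hh : ∀ i k t, h i k t ∈ X1 ∩ X2)
    (hv : ∀ i k t, v i k t ∈ X1 ∩ X2)
    (hsq : ∀ i k, Rel X1 X2 ((h i k).trans (v i (k + 1))) ((v i k).trans (h (i + 1) k)))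
    (i k : ℕ) : Rel X1 X2 ((cat (h i) k).trans (v i k)) ((v i 0).trans (cat (h (i + 1)) k)) := by
  have hP : ∀ i k, P i k ∈ X1 ∩ X2 := fun i k => by simpa using hh i k 0
  have hh1 : ∀ i k t, h i k t ∈ X1 := fun i k t => (hh i k t).1
  have hv1 : ∀ i k t, v i k t ∈ X1 := fun i k t => (hv i k t).1
  induction k with
  | zero =>
    exact rel_one (hP i 0) ((homIn_refl_trans (hv1 i 0)).trans (homIn_trans_refl (hv1 i 0)).symm)
  | succ k ih =>
    have c1 := cat_mem (hh i) k
    have c1' := cat_mem (hh1 i) k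
    have c2' := cat_mem (hh1 (i + 1)) k
    have r1 : Rel X1 X2 (((cat (h i) k).trans (h i k)).trans (v i (k + 1)))
        ((cat (h i) k).trans ((h i k).trans (v i (k + 1)))) :=
      rel_one (hP i 0) (homIn_assoc c1' (hh1 i k) (hv1 i (k + 1)))
    have r2 := (hsq i k).left (r := cat (h i) k) (trans_mem (hv1 i k) (hh1 (i + 1) k)) c1
    have r3 : Rel X1 X2 ((cat (h i) k).trans ((v i k).trans (h (i + 1) k)))
        (((cat (h i) k).trans (v i k)).trans (h (i + 1) k)) :=
      rel_one (hP i 0) (homIn_assoc c1' (hv1 i k) (hh1 (i + 1) k)).symm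
    have r4 := ih.right (s := h (i + 1) k) (trans_mem (hv1 i 0) c2') (hh1 (i + 1) k)
    have r5 : Rel X1 X2 (((v i 0).trans (cat (h (i + 1)) k)).trans (h (i + 1) k))
        ((v i 0).trans ((cat (h (i + 1)) k).trans (h (i + 1) k))) :=
      rel_one (hP i 0) (homIn_assoc (hv1 i 0) c2' (hh1 (i + 1) k))
    exact (((r1.trans r2).trans r3).trans r4).trans r5

/-- the whole grid -/
theorem grid {P : ℕ → ℕ → Z} (h : ∀ i k, Path (P i k) (P i (k + 1)))
    (v : ∀ i k, Path (P i k) (P (i + 1) k)) (hh : ∀ i k t, h i k t ∈ X1 ∩ X2)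
    (hv : ∀ i k t, v i k t ∈ X1 ∩ X2)
    (hsq : ∀ i k, Rel X1 X2 ((h i k).trans (v i (k + 1))) ((v i k).trans (h (i + 1) k)))
    (i k : ℕ) : Rel X1 X2 ((cat (h 0) k).trans (cat (P := fun i => P i k) (fun i => v i k) i))
      ((cat (P := fun i => P i 0) (fun i => v i 0) i).trans (cat (h i) k)) := by
  have hP : ∀ i k, P i k ∈ X1 ∩ X2 := fun i k => by simpa using hh i k 0
  have hh1 : ∀ i k t, h i k t ∈ X1 := fun i k t => (hh i k t).1
  have hv1 : ∀ i k t, v i k t ∈ X1 := fun i k t => (hv i k t).1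
  induction i with
  | zero =>
    have c := cat_mem (hh1 0) k
    exact rel_one (hP 0 0) ((homIn_trans_refl c).trans (homIn_refl_trans c).symm)
  | succ i ih =>
    have c0 := cat_mem (hh1 0) k
    have ci := cat_mem (hh1 i) k
    have ci' := cat_mem (hh1 (i + 1)) k
    have w0 := cat_mem (P := fun i => P i 0) (h := fun i => v i 0) (fun i => hv i 0) i
    have w0' := cat_mem (P := fun i => P i 0) (h := fun i => v i 0) (fun i => hv1 i 0) i
    have wk' := cat_mem (P := fun i => P i k) (h := fun i => v i k) (fun i => hv1 i k) i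
    have r1 : Rel X1 X2 ((cat (h 0) k).trans
        ((cat (P := fun i => P i k) (fun i => v i k) i).trans (v i k)))
        (((cat (h 0) k).trans (cat (P := fun i => P i k) (fun i => v i k) i)).trans (v i k)) :=
      rel_one (hP 0 0) (homIn_assoc c0 wk' (hv1 i k)).symm
    have r2 := ih.right (s := v i k) (trans_mem w0' ci) (hv1 i k)
    have r3 : Rel X1 X2 (((cat (P := fun i => P i 0) (fun i => v i 0) i).trans
        (cat (h i) k)).trans (v i k))
        ((cat (P := fun i => P i 0) (fun i => v i 0) i).trans ((cat (h i) k).trans (v i k))) :=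
      rel_one (hP 0 0) (homIn_assoc w0' ci (hv1 i k))
    have r4 := (rows h v hh hv hsq i k).left
      (r := cat (P := fun i => P i 0) (fun i => v i 0) i) (trans_mem (hv1 i 0) ci') w0
    have r5 : Rel X1 X2 ((cat (P := fun i => P i 0) (fun i => v i 0) i).trans
        ((v i 0).trans (cat (h (i + 1)) k)))
        (((cat (P := fun i => P i 0) (fun i => v i 0) i).trans (v i 0)).trans
          (cat (h (i + 1)) k)) :=
      rel_one (hP 0 0) (homIn_assoc w0' (hv1 i 0) ci').symm
    exact (((r1.trans r2).trans r3).trans r4).trans r5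

end Rel

end H95F
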